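import Mathlib

/-! # The correlation sums of a Dirichlet character over short intervals -/

set_option autoImplicit false

namespace Pool.Agent.TH7.PG

open Finset

/-- the correlation sum of length `L` -/
noncomputable def V {p : ℕ} (χ : DirichletCharacter ℂ p) (L : ℕ) (h w : ZMod p) : ℂ :=
  ∑ i : Fin L, χ (w + ((i : ℕ) : ZMod p)) * (starRingEnd ℂ) (χ (w + h + ((i : ℕ) : ZMod p)))

theorem V_norm_le {p : ℕ} (χ : DirichletCharacter ℂ p) (L : ℕ) (h w : ZMod p) :
    ‖V χ L h w‖ ≤ L := by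
  unfold V
  refine (norm_sum_le _ _).trans ?_
  calc ∑ i : Fin L, ‖χ (w + ((i : ℕ) : ZMod p)) *
        (starRingEnd ℂ) (χ (w + h + ((i : ℕ) : ZMod p)))‖ ≤ ∑ _i : Fin L, (1 : ℝ) := by
        refine Finset.sum_le_sum fun i _ => ?_
        rw [norm_mul, RCLike.norm_conj]
        exact mul_le_one₀ (χ.norm_le_one _) (norm_nonneg _) (χ.norm_le_one _)
    _ = L := by simp

end Pool.Agent.TH7.PG
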