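import Pool.Agent.TH7.PG.Base

/-! # Bilinear forms over a short box, and the exceptional set -/

set_option autoImplicit false

namespace Pool.Agent.TH7.PG

open Finset

/-- the exceptional starting points: some correlation along the direction `θ` is larger than `B` -/
noncomputable def Bad {p : ℕ} [NeZero p] (χ : DirichletCharacter ℂ p) (L : ℕ) (B : ℝ)
    (θ : ZMod p) : Finset (ZMod p) :=
  open Classical in
  univ.filter fun w => ∃ j j' : Fin L, j ≠ j' ∧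
    B < ‖V χ L ((((j' : ℕ) : ZMod p) - ((j : ℕ) : ZMod p)) * θ) (w + ((j : ℕ) : ZMod p) * θ)‖

theorem bad_card {p : ℕ} [Fact p.Prime] (χ : DirichletCharacter ℂ p) (L : ℕ) (hL : L ≤ p)
    (B G : ℝ) (hG0 : 0 ≤ G)
    (hG : ∀ h : ZMod p, h ≠ 0 → ((univ.filter fun w => B < ‖V χ L h w‖).card : ℝ) ≤ G)
    (θ : ZMod p) (hθ : θ ≠ 0) : ((Bad χ L B θ).card : ℝ) ≤ (L : ℝ) ^ 2 * G := by
  classical
  set W : Finset (Fin L × Fin L) := univ.filter fun u => u.1 ≠ u.2 with hW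
  have hsub : Bad χ L B θ ⊆ W.biUnion fun u => univ.filter fun w =>
      B < ‖V χ L ((((u.2 : ℕ) : ZMod p) - ((u.1 : ℕ) : ZMod p)) * θ)
        (w + ((u.1 : ℕ) : ZMod p) * θ)‖ := by
    intro w hw
    obtain ⟨j, j', hjj, h1⟩ := (mem_filter.1 hw).2
    rw [mem_biUnion]
    exact ⟨(j, j'), mem_filter.2 ⟨mem_univ _, hjj⟩, mem_filter.2 ⟨mem_univ _, h1⟩⟩
  have h1 : ∀ u ∈ W, ((univ.filter fun w =>
      B < ‖V χ L ((((u.2 : ℕ) : ZMod p) - ((u.1 : ℕ) : ZMod p)) * θ)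
        (w + ((u.1 : ℕ) : ZMod p) * θ)‖).card : ℝ) ≤ G := by
    intro u hu
    have hne : u.1 ≠ u.2 := (mem_filter.1 hu).2
    have hh : (((u.2 : ℕ) : ZMod p) - ((u.1 : ℕ) : ZMod p)) * θ ≠ 0 := by
      refine mul_ne_zero (fun h2 => hne ?_) hθ
      have h3 : ((u.2 : ℕ) : ZMod p) = ((u.1 : ℕ) : ZMod p) := sub_eq_zero.1 h2
      rw [ZMod.natCast_eq_natCast_iff', Nat.mod_eq_of_lt (lt_of_lt_of_le u.2.2 hL),
        Nat.mod_eq_of_lt (lt_of_lt_of_le u.1.2 hL)] at h3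
      exact Fin.ext h3.symm
    refine le_trans ?_ (hG _ hh)
    have h4 : (univ.filter fun w =>
      B < ‖V χ L ((((u.2 : ℕ) : ZMod p) - ((u.1 : ℕ) : ZMod p)) * θ)
        (w + ((u.1 : ℕ) : ZMod p) * θ)‖).card ≤ (univ.filter fun w =>
      B < ‖V χ L ((((u.2 : ℕ) : ZMod p) - ((u.1 : ℕ) : ZMod p)) * θ) w‖).card := by
      refine Finset.card_le_card_of_injOn (fun w => w + ((u.1 : ℕ) : ZMod p) * θ) ?_ ?_
      · intro w hw
        have := (mem_filter.1 (mem_coe.1 hw)).2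
        exact mem_coe.2 (mem_filter.2 ⟨mem_univ _, this⟩)
      · intro w _ w' _ hww
        exact add_right_cancel hww
    exact_mod_cast h4
  calc ((Bad χ L B θ).card : ℝ) ≤ ((∑ u ∈ W, (univ.filter fun w =>
      B < ‖V χ L ((((u.2 : ℕ) : ZMod p) - ((u.1 : ℕ) : ZMod p)) * θ)
        (w + ((u.1 : ℕ) : ZMod p) * θ)‖).card : ℕ) : ℝ) := by
        exact_mod_cast (card_le_card hsub).trans card_biUnion_le
    _ ≤ ∑ _u ∈ W, G := by
        push_cast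
        exact Finset.sum_le_sum h1
    _ = W.card * G := by rw [Finset.sum_const, nsmul_eq_mul]
    _ ≤ (L : ℝ) ^ 2 * G := by
        refine mul_le_mul_of_nonneg_right ?_ hG0
        have h5 : W.card ≤ L ^ 2 := by
          refine (Finset.card_filter_le _ _).trans ?_
          rw [Finset.card_univ, Fintype.card_prod, Fintype.card_fin, sq]
        exact_mod_cast h5

/-- the bilinear form over the box, away from the exceptional set -/
theorem block {p : ℕ} [NeZero p] (χ : DirichletCharacter ℂ p) (L : ℕ) (B : ℝ) (hB : 0 ≤ B)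
    (θ w : ZMod p) (hw : w ∉ Bad χ L B θ) (α β : Fin L → ℂ) (hα : ∀ i, ‖α i‖ ≤ 1)
    (hβ : ∀ j, ‖β j‖ ≤ 1) :
    ‖∑ i : Fin L, ∑ j : Fin L, α i * β j *
      χ (w + ((i : ℕ) : ZMod p) + ((j : ℕ) : ZMod p) * θ)‖ ^ 2 ≤ (L : ℝ) ^ 3 * (1 + B) := by
  classical
  have hgood : ∀ j j' : Fin L, j ≠ j' →
      ‖V χ L ((((j' : ℕ) : ZMod p) - ((j : ℕ) : ZMod p)) * θ) (w + ((j : ℕ) : ZMod p) * θ)‖ ≤ B := by
    intro j j' hjj
    by_contra hcon
    push Not at hcon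
    exact hw (mem_filter.2 ⟨mem_univ _, j, j', hjj, hcon⟩)
  set T : Fin L → ℂ := fun i => ∑ j : Fin L, β j *
    χ (w + ((i : ℕ) : ZMod p) + ((j : ℕ) : ZMod p) * θ) with hT
  have h1 : ‖∑ i : Fin L, ∑ j : Fin L, α i * β j *
      χ (w + ((i : ℕ) : ZMod p) + ((j : ℕ) : ZMod p) * θ)‖ ≤ ∑ i : Fin L, ‖α i‖ * ‖T i‖ := by
    refine (norm_sum_le _ _).trans (Finset.sum_le_sum fun i _ => ?_)
    rw [← norm_mul, hT, Finset.mul_sum]
    simp only [mul_assoc]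
    exact le_rfl
  have h2 : (∑ i : Fin L, ‖α i‖ * ‖T i‖) ^ 2 ≤ (∑ i : Fin L, ‖α i‖ ^ 2) * ∑ i : Fin L, ‖T i‖ ^ 2 :=
    Finset.sum_mul_sq_le_sq_mul_sq _ _ _
  have h3 : ∑ i : Fin L, ‖α i‖ ^ 2 ≤ L := by
    calc ∑ i : Fin L, ‖α i‖ ^ 2 ≤ ∑ _i : Fin L, (1 : ℝ) :=
          Finset.sum_le_sum fun i _ => pow_le_one₀ (norm_nonneg _) (hα i)
      _ = L := by simp
  have h4 : ((∑ i : Fin L, ‖T i‖ ^ 2 : ℝ) : ℂ) = ∑ j : Fin L, ∑ j' : Fin L,
      β j * (starRingEnd ℂ) (β j') *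
      V χ L ((((j' : ℕ) : ZMod p) - ((j : ℕ) : ZMod p)) * θ) (w + ((j : ℕ) : ZMod p) * θ) := by
    have h5 : ∀ i : Fin L, ((‖T i‖ ^ 2 : ℝ) : ℂ) = ∑ j : Fin L, ∑ j' : Fin L,
        β j * (starRingEnd ℂ) (β j') *
        (χ (w + ((i : ℕ) : ZMod p) + ((j : ℕ) : ZMod p) * θ) *
        (starRingEnd ℂ) (χ (w + ((i : ℕ) : ZMod p) + ((j' : ℕ) : ZMod p) * θ))) := by
      intro i
      have h6 : ((‖T i‖ ^ 2 : ℝ) : ℂ) = T i * (starRingEnd ℂ) (T i) := by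
        rw [Complex.mul_conj, Complex.normSq_eq_norm_sq]
      rw [h6, hT]
      simp only [map_sum, map_mul]
      rw [Finset.sum_mul_sum]
      refine Finset.sum_congr rfl fun j _ => Finset.sum_congr rfl fun j' _ => ?_
      ring
    rw [Complex.ofReal_sum, Finset.sum_congr rfl fun i _ => h5 i, Finset.sum_comm]
    refine Finset.sum_congr rfl fun j _ => ?_
    rw [Finset.sum_comm]
    refine Finset.sum_congr rfl fun j' _ => ?_
    rw [← Finset.mul_sum, V]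
    congr 1
    refine Finset.sum_congr rfl fun i _ => ?_
    have e1 : w + ((i : ℕ) : ZMod p) + ((j : ℕ) : ZMod p) * θ =
        w + ((j : ℕ) : ZMod p) * θ + ((i : ℕ) : ZMod p) := by ring
    have e2 : w + ((i : ℕ) : ZMod p) + ((j' : ℕ) : ZMod p) * θ =
        w + ((j : ℕ) : ZMod p) * θ + (((j' : ℕ) : ZMod p) - ((j : ℕ) : ZMod p)) * θ +
          ((i : ℕ) : ZMod p) := by ring
    rw [e1, e2]
  have h5 : ∑ i : Fin L, ‖T i‖ ^ 2 ≤ (L : ℝ) ^ 2 * (1 + B) := by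
    have h6 : ∑ i : Fin L, ‖T i‖ ^ 2 = ‖∑ j : Fin L, ∑ j' : Fin L,
        β j * (starRingEnd ℂ) (β j') *
        V χ L ((((j' : ℕ) : ZMod p) - ((j : ℕ) : ZMod p)) * θ) (w + ((j : ℕ) : ZMod p) * θ)‖ := by
      rw [← h4, Complex.norm_real, Real.norm_eq_abs, abs_of_nonneg]
      exact Finset.sum_nonneg fun i _ => by positivity
    rw [h6]
    refine (norm_sum_le _ _).trans ?_
    have h7 : ∀ j : Fin L, ‖∑ j' : Fin L, β j * (starRingEnd ℂ) (β j') *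
        V χ L ((((j' : ℕ) : ZMod p) - ((j : ℕ) : ZMod p)) * θ) (w + ((j : ℕ) : ZMod p) * θ)‖ ≤
        L * (1 + B) := by
      intro j
      refine (norm_sum_le _ _).trans ?_
      have h8 : ∀ j' : Fin L, ‖β j * (starRingEnd ℂ) (β j') *
          V χ L ((((j' : ℕ) : ZMod p) - ((j : ℕ) : ZMod p)) * θ) (w + ((j : ℕ) : ZMod p) * θ)‖ ≤
          (if j' = j then (L : ℝ) else 0) + B := by
        intro j'
        rw [norm_mul, norm_mul, RCLike.norm_conj]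
        have h9 : ‖β j‖ * ‖β j'‖ ≤ 1 := mul_le_one₀ (hβ j) (norm_nonneg _) (hβ j')
        refine (mul_le_of_le_one_left (norm_nonneg _) h9).trans ?_
        split_ifs with h10
        · exact (V_norm_le χ L _ _).trans (by linarith)
        · rw [zero_add]
          exact hgood j j' (fun h11 => h10 h11.symm)
      refine (Finset.sum_le_sum fun j' _ => h8 j').trans ?_
      rw [Finset.sum_add_distrib, Finset.sum_ite_eq' univ j]
      simp only [mem_univ, if_true, Finset.sum_const, card_univ, Fintype.card_fin, nsmul_eq_mul]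
      linarith
    refine (Finset.sum_le_sum fun j _ => h7 j).trans ?_
    simp only [Finset.sum_const, card_univ, Fintype.card_fin, nsmul_eq_mul]
    exact le_of_eq (by ring)
  have hLn : (0 : ℝ) ≤ L := Nat.cast_nonneg L
  have hT0 : 0 ≤ ∑ i : Fin L, ‖T i‖ ^ 2 := Finset.sum_nonneg fun i _ => by positivity
  calc ‖∑ i : Fin L, ∑ j : Fin L, α i * β j *
      χ (w + ((i : ℕ) : ZMod p) + ((j : ℕ) : ZMod p) * θ)‖ ^ 2
      ≤ (∑ i : Fin L, ‖α i‖ * ‖T i‖) ^ 2 := pow_le_pow_left₀ (norm_nonneg _) h1 2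
    _ ≤ (∑ i : Fin L, ‖α i‖ ^ 2) * ∑ i : Fin L, ‖T i‖ ^ 2 := h2
    _ ≤ L * ((L : ℝ) ^ 2 * (1 + B)) := mul_le_mul h3 h5 hT0 hLn
    _ = (L : ℝ) ^ 3 * (1 + B) := by ring

end Pool.Agent.TH7.PG
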