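import Pool.Agent.TH7.PG.Count

/-! # There is a direction with few exceptional pairs -/

set_option autoImplicit false
set_option linter.unusedSectionVars false

namespace Pool.Agent.TH7.PG

open Finset

section

variable {p D : ℕ} [Fact p.Prime] (P Q : Sys p D)

/-- bound for the number of `z` with `w z - c ∈ S 2`, through Cauchy-Davenport -/
theorem TT_bound (L : ℕ) (hL : 1 ≤ L) (w c : ZMod p)
    (hz : ∃ z ∈ II P Q (1 / (L : ℝ)), z ≠ 0) :
    ((TT P Q w c (1 / (L : ℝ))).card : ℝ) ≤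
      ((SS P Q 3).card : ℝ) * (II P Q (2 * (1 / (L : ℝ)))).card *
      (1 / p + 2 / L * ((UU P Q w (1 / (L : ℝ)) (1 / (L : ℝ) ^ 2)).card /
        (((SS P Q (1 / (L : ℝ))).card : ℝ) * (II P Q (1 / (L : ℝ) ^ 2)).card))) := by
  classical
  have hLpos : (0 : ℝ) < L := by exact_mod_cast hL
  have hppos : (0 : ℝ) < p := by exact_mod_cast (Fact.out : p.Prime).pos
  have h1 := TT_mul P Q w c (1 / (L : ℝ))
  have h2 := WW_grow P Q w (1 / (L : ℝ)) (1 / (L : ℝ) ^ 2) (by positivity) (by positivity) L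
  have e1 : (L : ℝ) * (1 / (L : ℝ)) = 1 := by field_simp
  have e2 : (L : ℝ) * (1 / (L : ℝ) ^ 2) = 1 / L := by field_simp
  rw [e1, e2] at h2
  have h3 := WW_mul_UU P Q w (1 / (L : ℝ)) (1 / (L : ℝ) ^ 2)
  set T := (TT P Q w c (1 / (L : ℝ))).card with hT
  set W := (WW P Q w 1 (1 / (L : ℝ))).card with hW
  set Y := (WW P Q w (1 / (L : ℝ)) (1 / (L : ℝ) ^ 2)).card with hY
  set b := (SS P Q 3).card with hb
  set c₁ := (II P Q (2 * (1 / (L : ℝ)))).card with hc₁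
  set e := (SS P Q (1 / (L : ℝ))).card with he
  set f := (II P Q (1 / (L : ℝ) ^ 2)).card with hf
  set U := (UU P Q w (1 / (L : ℝ)) (1 / (L : ℝ) ^ 2)).card with hU
  have he1 : 1 ≤ e := Finset.card_pos.2 ⟨0, SS_zero P Q _ (by positivity)⟩
  have hf1 : 1 ≤ f := Finset.card_pos.2 ⟨0, II_zero P Q _ (by positivity)⟩
  have hY2 : 2 ≤ Y := by
    obtain ⟨z, hz1, hz0⟩ := hz
    have hz2 := (mem_II P Q _ _).1 hz1
    refine Finset.one_lt_card.2 ⟨0, ?_, z, ?_, fun h => hz0 h.symm⟩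
    · exact (mem_WW P Q _ _ _ _).2 ⟨0, SS_zero P Q _ (by positivity), 0,
        II_zero P Q _ (by positivity), by ring⟩
    · exact (mem_WW P Q _ _ _ _).2 ⟨z, P_sub_SS P Q _ (by positivity) z hz2.1, 0,
        II_zero P Q _ (by positivity), by ring⟩
  have he1' : (1 : ℝ) ≤ e := by exact_mod_cast he1
  have hf1' : (1 : ℝ) ≤ f := by exact_mod_cast hf1
  have hY2' : (2 : ℝ) ≤ Y := by exact_mod_cast hY2
  have hef : (0 : ℝ) < (e : ℝ) * f := by positivity
  -- lower bound for `W`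
  have hWlow : min (p : ℝ) ((L : ℝ) * Y / 2) ≤ W := by
    have h4 : min p (L * (Y - 1) + 1) ≤ W := h2
    have h5 : ((min p (L * (Y - 1) + 1) : ℕ) : ℝ) ≤ W := by exact_mod_cast h4
    refine le_trans ?_ h5
    rw [Nat.cast_min]
    refine min_le_min le_rfl ?_
    push_cast [Nat.cast_sub (show 1 ≤ Y by omega)]
    nlinarith
  have h1' : (T : ℝ) * W ≤ (b : ℝ) * c₁ := by exact_mod_cast h1
  have h3' : (e : ℝ) * f ≤ (U : ℝ) * Y := by exact_mod_cast h3
  have hT0 : (0 : ℝ) ≤ T := Nat.cast_nonneg _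
  have hbc : (0 : ℝ) ≤ (b : ℝ) * c₁ := by positivity
  have hYU : 1 / (Y : ℝ) ≤ U / ((e : ℝ) * f) := by
    rw [div_le_div_iff₀ (by positivity) hef, one_mul]
    exact h3'
  have hUn : (0 : ℝ) ≤ U / ((e : ℝ) * f) := by positivity
  rcases le_total (p : ℝ) ((L : ℝ) * Y / 2) with h6 | h6
  · rw [min_eq_left h6] at hWlow
    have h7 : (T : ℝ) * p ≤ (b : ℝ) * c₁ := (mul_le_mul_of_nonneg_left hWlow hT0).trans h1'
    have h8 : (T : ℝ) ≤ (b : ℝ) * c₁ * (1 / p) := by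
      rw [mul_one_div, le_div_iff₀ hppos]
      exact h7
    refine h8.trans (mul_le_mul_of_nonneg_left ?_ hbc)
    have : 0 ≤ 2 / (L : ℝ) * (U / ((e : ℝ) * f)) := by positivity
    linarith
  · rw [min_eq_right h6] at hWlow
    have h7 : (T : ℝ) * ((L : ℝ) * Y / 2) ≤ (b : ℝ) * c₁ :=
      (mul_le_mul_of_nonneg_left hWlow hT0).trans h1'
    have h8 : (T : ℝ) ≤ (b : ℝ) * c₁ * (2 / L * (1 / Y)) := by
      have h9 : (b : ℝ) * c₁ * (2 / L * (1 / Y)) = ((b : ℝ) * c₁) / ((L : ℝ) * Y / 2) := by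
        field_simp
      rw [h9, le_div_iff₀ (by positivity)]
      exact h7
    refine h8.trans (mul_le_mul_of_nonneg_left ?_ hbc)
    have h10 : 2 / (L : ℝ) * (1 / Y) ≤ 2 / (L : ℝ) * (U / ((e : ℝ) * f)) :=
      mul_le_mul_of_nonneg_left hYU (by positivity)
    have : 0 ≤ 1 / (p : ℝ) := by positivity
    linarith

theorem real_step1 (b c₁ cb X M q l ef Us gh E45 : ℝ) (hb : 0 ≤ b) (hc0 : 0 ≤ c₁)
    (hc : c₁ ≤ cb) (hX : X ≤ M) (hX0 : 0 ≤ X) (hq : 0 < q) (hl : 0 < l) (hef : 0 < ef)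
    (hU : Us ≤ M + gh) (hU0 : 0 ≤ Us) (hgh : gh ≤ E45 * ef) :
    b * c₁ * (X / q + 2 / l * (Us / ef)) ≤ b * cb * (M / q + 2 / l * (M / ef + E45)) := by
  refine mul_le_mul (mul_le_mul_of_nonneg_left hc hb) ?_ (by positivity)
    (mul_nonneg hb (hc0.trans hc))
  refine add_le_add (div_le_div_of_nonneg_right hX hq.le)
    (mul_le_mul_of_nonneg_left ?_ (by positivity))
  rw [div_le_iff₀ hef, add_mul, div_mul_cancel₀ _ hef.ne']
  linarith

/-- the sum of the bounds over the exceptional set -/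
theorem TT_sum (L : ℕ) (hL : 1 ≤ L) (X : Finset (ZMod p)) (c : ZMod p) (M : ℝ)
    (hX : (X.card : ℝ) ≤ M) (hz : ∃ z ∈ II P Q (1 / (L : ℝ)), z ≠ 0) :
    ((∑ w ∈ X, (TT P Q w c (1 / (L : ℝ))).card : ℕ) : ℝ) ≤
      ((SS P Q 3).card : ℝ) * (9 ^ (2 * D) * (II P Q (1 / (L : ℝ))).card) *
      (M / p + 2 / L * (M / (((SS P Q (1 / (L : ℝ))).card : ℝ) * (II P Q (1 / (L : ℝ) ^ 2)).card) +
        45 ^ (2 * D))) := by
  classical
  have hLpos : (0 : ℝ) < L := by exact_mod_cast hL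
  have hppos : (0 : ℝ) < p := by exact_mod_cast (Fact.out : p.Prime).pos
  have hc := II_cover P Q 4 (1 / (2 * (L : ℝ))) (by positivity)
  have hg := SS_cover P Q 2 (1 / (L : ℝ)) (by positivity)
  have hh := II_cover P Q 4 (1 / (2 * (L : ℝ) ^ 2)) (by positivity)
  have e1 : ((4 : ℕ) : ℝ) * (1 / (2 * (L : ℝ))) = 2 * (1 / (L : ℝ)) := by
    push_cast
    field_simp
    norm_num
  have e2 : (2 : ℝ) * (1 / (2 * (L : ℝ))) = 1 / (L : ℝ) := by field_simp
  have e3 : ((2 : ℕ) : ℝ) * (1 / (L : ℝ)) = 2 * (1 / (L : ℝ)) := by push_cast; ring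
  have e4 : ((4 : ℕ) : ℝ) * (1 / (2 * (L : ℝ) ^ 2)) = 2 * (1 / (L : ℝ) ^ 2) := by
    push_cast
    field_simp
    norm_num
  have e5 : (2 : ℝ) * (1 / (2 * (L : ℝ) ^ 2)) = 1 / (L : ℝ) ^ 2 := by field_simp
  rw [e1, e2] at hc
  rw [e3] at hg
  rw [e4, e5] at hh
  have hU := UU_sum P Q X (1 / (L : ℝ)) (1 / (L : ℝ) ^ 2)
  set b := (SS P Q 3).card with hb
  set c₁ := (II P Q (2 * (1 / (L : ℝ)))).card with hc₁
  set d := (II P Q (1 / (L : ℝ))).card with hd
  set e := (SS P Q (1 / (L : ℝ))).card with he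
  set f := (II P Q (1 / (L : ℝ) ^ 2)).card with hf
  set g := (SS P Q (2 * (1 / (L : ℝ)))).card with hg'
  set h := (II P Q (2 * (1 / (L : ℝ) ^ 2))).card with hh'
  have he1 : 1 ≤ e := Finset.card_pos.2 ⟨0, SS_zero P Q _ (by positivity)⟩
  have hf1 : 1 ≤ f := Finset.card_pos.2 ⟨0, II_zero P Q _ (by positivity)⟩
  have he1' : (1 : ℝ) ≤ e := by exact_mod_cast he1
  have hf1' : (1 : ℝ) ≤ f := by exact_mod_cast hf1
  have hef : (0 : ℝ) < (e : ℝ) * f := by positivity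
  have hc' : (c₁ : ℝ) ≤ 9 ^ (2 * D) * d := by exact_mod_cast hc
  have hg'' : (g : ℝ) ≤ 5 ^ (2 * D) * e := by exact_mod_cast hg
  have hh'' : (h : ℝ) ≤ 9 ^ (2 * D) * f := by exact_mod_cast hh
  have hU' : ((∑ w ∈ X, (UU P Q w (1 / (L : ℝ)) (1 / (L : ℝ) ^ 2)).card : ℕ) : ℝ) ≤
      M + (g : ℝ) * h := by
    have h1 : ((∑ w ∈ X, (UU P Q w (1 / (L : ℝ)) (1 / (L : ℝ) ^ 2)).card : ℕ) : ℝ) ≤
      (X.card : ℝ) + (g : ℝ) * h := by exact_mod_cast hU
    linarith
  have hgh : (g : ℝ) * h ≤ 45 ^ (2 * D) * ((e : ℝ) * f) := by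
    calc (g : ℝ) * h ≤ (5 ^ (2 * D) * e) * (9 ^ (2 * D) * f) :=
          mul_le_mul hg'' hh'' (Nat.cast_nonneg _) (by positivity)
      _ = (5 * 9 : ℝ) ^ (2 * D) * ((e : ℝ) * f) := by rw [mul_pow]; ring
      _ = 45 ^ (2 * D) * ((e : ℝ) * f) := by norm_num
  push_cast
  calc ∑ w ∈ X, ((TT P Q w c (1 / (L : ℝ))).card : ℝ)
      ≤ ∑ w ∈ X, (b : ℝ) * c₁ * (1 / p + 2 / L *
        ((UU P Q w (1 / (L : ℝ)) (1 / (L : ℝ) ^ 2)).card / ((e : ℝ) * f))) :=
        Finset.sum_le_sum fun w _ => TT_bound P Q L hL w c hz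
    _ = (b : ℝ) * c₁ * ((X.card : ℝ) / p + 2 / L *
        (((∑ w ∈ X, (UU P Q w (1 / (L : ℝ)) (1 / (L : ℝ) ^ 2)).card : ℕ) : ℝ) /
          ((e : ℝ) * f))) := by
        push_cast
        rw [← Finset.mul_sum, Finset.sum_add_distrib, ← Finset.mul_sum, Finset.sum_const,
          nsmul_eq_mul, mul_one_div, ← Finset.sum_div]
    _ ≤ (b : ℝ) * (9 ^ (2 * D) * d) * (M / p + 2 / L * (M / ((e : ℝ) * f) + 45 ^ (2 * D))) := by
        exact real_step1 _ _ _ _ _ _ _ _ _ _ _ (Nat.cast_nonneg _) (Nat.cast_nonneg _) hc' hX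
          (Nat.cast_nonneg _) hppos hLpos hef hU' (Nat.cast_nonneg _) hgh

theorem bad_pairs (x y : ZMod p) (L : ℕ) (hL : 1 ≤ L)
    (hP : ∃ z ∈ P.S (1 / (L : ℝ)), z ≠ 0) (hQ : ∃ z ∈ Q.S (1 / (L : ℝ)), z ≠ 0) (M : ℝ)
    (hM : 0 ≤ M) (X : ZMod p → Finset (ZMod p)) (hX : ∀ θ, θ ≠ 0 → ((X θ).card : ℝ) ≤ M) :
    ∃ z ∈ P.S (1 / (L : ℝ)), ∃ z' ∈ Q.S (1 / (L : ℝ)), z ≠ 0 ∧ z' ≠ 0 ∧
      ((NN P Q x y z (X (z' / z))).card : ℝ) ≤ 4 * 6075 ^ (2 * D) *
        (((P.S 1).card : ℝ) * (Q.S 1).card * (M / p + 1 / L) + (L : ℝ) ^ (6 * D) * M) := by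
  classical
  have hL1 : (1 : ℝ) ≤ L := by exact_mod_cast hL
  have hLpos : (0 : ℝ) < L := by exact_mod_cast hL
  have hppos : (0 : ℝ) < p := by exact_mod_cast (Fact.out : p.Prime).pos
  set PP : ℝ := ((P.S 1).card : ℝ) * (Q.S 1).card with hPP
  have hPP0 : 0 ≤ PP := by positivity
  by_cases hI : ∃ z ∈ II P Q (1 / (L : ℝ)), z ≠ 0
  · have hT := TT_sum P Q L hL (X 1) (x + y) M (hX 1 one_ne_zero) hI
    have ha := II_cover P Q (8 * L ^ 2) (1 / (2 * (L : ℝ) ^ 2)) (by positivity)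
    have hb := SS_cover P Q (3 * L) (1 / (L : ℝ)) (by positivity)
    have hab := SS_mul_II P Q 3 4
    have e1 : ((8 * L ^ 2 : ℕ) : ℝ) * (1 / (2 * (L : ℝ) ^ 2)) = 4 := by
      push_cast
      field_simp
      norm_num
    have e2 : (2 : ℝ) * (1 / (2 * (L : ℝ) ^ 2)) = 1 / (L : ℝ) ^ 2 := by field_simp
    have e3 : ((3 * L : ℕ) : ℝ) * (1 / (L : ℝ)) = 3 := by
      push_cast
      field_simp
    have e4 : (3 : ℝ) + 4 = 7 := by norm_num
    rw [e1, e2] at ha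
    rw [e3] at hb
    rw [e4] at hab
    have h7P := P.card_mul_le 7 1 zero_le_one
    have h7Q := Q.card_mul_le 7 1 zero_le_one
    have e5 : ((7 : ℕ) : ℝ) * 1 = 7 := by norm_num
    rw [e5] at h7P h7Q
    set a := (II P Q 4).card with ha'
    set b := (SS P Q 3).card with hb'
    set d := (II P Q (1 / (L : ℝ))).card with hd
    set e := (SS P Q (1 / (L : ℝ))).card with he
    set f := (II P Q (1 / (L : ℝ) ^ 2)).card with hf
    have he1 : 1 ≤ e := Finset.card_pos.2 ⟨0, SS_zero P Q _ (by positivity)⟩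
    have hf1 : 1 ≤ f := Finset.card_pos.2 ⟨0, II_zero P Q _ (by positivity)⟩
    have he1' : (1 : ℝ) ≤ e := by exact_mod_cast he1
    have hf1' : (1 : ℝ) ≤ f := by exact_mod_cast hf1
    have hef : (0 : ℝ) < (e : ℝ) * f := by positivity
    have hd2 : 2 ≤ d := by
      obtain ⟨z, hz1, hz0⟩ := hI
      exact Finset.one_lt_card.2 ⟨0, II_zero P Q _ (by positivity), z, hz1, fun h => hz0 h.symm⟩
    have hd2' : (2 : ℝ) ≤ d := by exact_mod_cast hd2
    set G : Finset (ZMod p) := (II P Q (1 / (L : ℝ))).erase 0 with hG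
    have hGcard : G.card = d - 1 := Finset.card_erase_of_mem (II_zero P Q _ (by positivity))
    have hGcard' : (d : ℝ) / 2 ≤ G.card := by
      rw [hGcard]
      push_cast [Nat.cast_sub (show 1 ≤ d by omega)]
      linarith
    have hGne : G.Nonempty := by
      rw [← Finset.card_pos, hGcard]
      omega
    set Ω : ℝ := (a : ℝ) * ((b : ℝ) * (9 ^ (2 * D) * d) *
      (M / p + 2 / L * (M / ((e : ℝ) * f) + 45 ^ (2 * D)))) with hΩ
    have hsum : ∑ z ∈ G, ((NN P Q x y z (X 1)).card : ℝ) ≤ Ω := by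
      have h1 : ∀ z ∈ G, (NN P Q x y z (X 1)).card ≤
          a * ((X 1).filter fun w => w * z - (x + y) ∈ SS P Q 2).card := by
        intro z hz
        exact NN_card P Q x y z (Finset.mem_erase.1 hz).1 (X 1)
      have h2 : ∑ z ∈ G, (NN P Q x y z (X 1)).card ≤
          a * ∑ w ∈ X 1, (TT P Q w (x + y) (1 / (L : ℝ))).card := by
        refine (Finset.sum_le_sum h1).trans ?_
        rw [← Finset.mul_sum]
        refine Nat.mul_le_mul_left _ ?_
        simp only [Finset.card_filter]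
        rw [Finset.sum_comm]
        refine Finset.sum_le_sum fun w _ => ?_
        unfold TT
        rw [Finset.card_filter]
        exact Finset.sum_le_sum_of_subset (Finset.erase_subset _ _)
      have h3 : ((∑ z ∈ G, (NN P Q x y z (X 1)).card : ℕ) : ℝ) ≤
          (a : ℝ) * ((∑ w ∈ X 1, (TT P Q w (x + y) (1 / (L : ℝ))).card : ℕ) : ℝ) := by
        exact_mod_cast h2
      push_cast at h3 hT
      exact h3.trans (mul_le_mul_of_nonneg_left hT (Nat.cast_nonneg _))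
    obtain ⟨z, hzG, hz⟩ : ∃ z ∈ G, ((NN P Q x y z (X 1)).card : ℝ) ≤ Ω / G.card := by
      by_contra hcon
      push Not at hcon
      have h1 := Finset.sum_lt_sum_of_nonempty hGne hcon
      rw [Finset.sum_const, nsmul_eq_mul,
        mul_div_cancel₀ _ (by positivity : (G.card : ℝ) ≠ 0)] at h1
      linarith
    have hzI := (mem_II P Q _ _).1 (Finset.mem_erase.1 hzG).2
    have hz0 : z ≠ 0 := (Finset.mem_erase.1 hzG).1
    refine ⟨z, hzI.1, z, hzI.2, hz0, hz0, ?_⟩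
    rw [div_self hz0]
    refine hz.trans ?_
    -- numerical part
    have hab' : (a : ℝ) * b ≤ 15 ^ (2 * D) * PP := by
      have h1 : b * a ≤ 15 ^ (2 * D) * ((P.S 1).card * (Q.S 1).card) := by
        refine hab.trans ?_
        have e6 : 2 * 7 + 1 = 15 := by norm_num
        rw [e6] at h7P h7Q
        calc (P.S 7).card * (Q.S 7).card ≤ (15 ^ D * (P.S 1).card) * (15 ^ D * (Q.S 1).card) :=
              Nat.mul_le_mul h7P h7Q
          _ = 15 ^ (2 * D) * ((P.S 1).card * (Q.S 1).card) := by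
              rw [two_mul D, pow_add]
              ring
      have h2 : (b : ℝ) * a ≤ 15 ^ (2 * D) * (((P.S 1).card : ℝ) * (Q.S 1).card) := by
        exact_mod_cast h1
      rw [mul_comm (a : ℝ)]
      exact h2
    have ha2 : (a : ℝ) ≤ (17 * (L : ℝ) ^ 2) ^ (2 * D) * f := by
      have h1 : (a : ℝ) ≤ (2 * (8 * (L : ℝ) ^ 2) + 1) ^ (2 * D) * f := by exact_mod_cast ha
      refine h1.trans (mul_le_mul_of_nonneg_right (pow_le_pow_left₀ (by positivity) ?_ _)
        (Nat.cast_nonneg _))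
      nlinarith
    have hb2 : (b : ℝ) ≤ (7 * (L : ℝ)) ^ (2 * D) * e := by
      have h1 : (b : ℝ) ≤ (2 * (3 * (L : ℝ)) + 1) ^ (2 * D) * e := by exact_mod_cast hb
      refine h1.trans (mul_le_mul_of_nonneg_right (pow_le_pow_left₀ (by positivity) ?_ _)
        (Nat.cast_nonneg _))
      linarith
    have hab2 : (a : ℝ) * b * (M / ((e : ℝ) * f)) ≤ 119 ^ (2 * D) * ((L : ℝ) ^ (6 * D) * M) := by
      have h1 : (a : ℝ) * b ≤ 119 ^ (2 * D) * (L : ℝ) ^ (6 * D) * ((e : ℝ) * f) := by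
        calc (a : ℝ) * b ≤ ((17 * (L : ℝ) ^ 2) ^ (2 * D) * f) * ((7 * (L : ℝ)) ^ (2 * D) * e) :=
              mul_le_mul ha2 hb2 (Nat.cast_nonneg _) (by positivity)
          _ = (17 * 7 : ℝ) ^ (2 * D) * (((L : ℝ) ^ 2) ^ (2 * D) * (L : ℝ) ^ (2 * D)) *
              ((e : ℝ) * f) := by
              rw [mul_pow, mul_pow, mul_pow]
              ring
          _ = 119 ^ (2 * D) * (L : ℝ) ^ (6 * D) * ((e : ℝ) * f) := by
              have e7 : 2 * (2 * D) + 2 * D = 6 * D := by ring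
              have e8 : (17 * 7 : ℝ) = 119 := by norm_num
              rw [← pow_mul, ← pow_add, e7, e8]
      calc (a : ℝ) * b * (M / ((e : ℝ) * f)) ≤
            (119 ^ (2 * D) * (L : ℝ) ^ (6 * D) * ((e : ℝ) * f)) * (M / ((e : ℝ) * f)) :=
            mul_le_mul_of_nonneg_right h1 (by positivity)
        _ = 119 ^ (2 * D) * ((L : ℝ) ^ (6 * D) * M) := by
            field_simp
    have hd0 : (0 : ℝ) < d := by linarith
    have hΩ0 : 0 ≤ Ω := by positivity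
    have h1 : Ω / G.card ≤ Ω / ((d : ℝ) / 2) := div_le_div_of_nonneg_left hΩ0 (by positivity) hGcard'
    refine h1.trans ?_
    have h2 : Ω / ((d : ℝ) / 2) = 2 * 9 ^ (2 * D) * (((a : ℝ) * b) * (M / p) +
        2 / L * (((a : ℝ) * b) * (M / ((e : ℝ) * f))) +
        2 / L * (45 ^ (2 * D) * ((a : ℝ) * b))) := by
      rw [hΩ]
      field_simp
      ring
    rw [h2]
    have hMp : 0 ≤ M / p := by positivity
    have h3 : ((a : ℝ) * b) * (M / p) ≤ 15 ^ (2 * D) * (PP * (M / p)) := by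
      rw [← mul_assoc]
      exact mul_le_mul_of_nonneg_right hab' hMp
    have h4 : 2 / (L : ℝ) * (((a : ℝ) * b) * (M / ((e : ℝ) * f))) ≤
        2 * (119 ^ (2 * D) * ((L : ℝ) ^ (6 * D) * M)) := by
      refine mul_le_mul ?_ hab2 (by positivity) (by norm_num)
      rw [div_le_iff₀ hLpos]
      linarith
    have h5 : 2 / (L : ℝ) * (45 ^ (2 * D) * ((a : ℝ) * b)) ≤
        2 * (675 ^ (2 * D) * (PP * (1 / L))) := by
      have h6 : (45 : ℝ) ^ (2 * D) * ((a : ℝ) * b) ≤ 675 ^ (2 * D) * PP := by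
        calc (45 : ℝ) ^ (2 * D) * ((a : ℝ) * b) ≤ 45 ^ (2 * D) * (15 ^ (2 * D) * PP) :=
              mul_le_mul_of_nonneg_left hab' (by positivity)
          _ = (45 * 15 : ℝ) ^ (2 * D) * PP := by rw [mul_pow]; ring
          _ = 675 ^ (2 * D) * PP := by norm_num
      calc 2 / (L : ℝ) * (45 ^ (2 * D) * ((a : ℝ) * b)) ≤ 2 / (L : ℝ) * (675 ^ (2 * D) * PP) :=
            mul_le_mul_of_nonneg_left h6 (by positivity)
        _ = 2 * (675 ^ (2 * D) * (PP * (1 / L))) := by ring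
    have hp1 : (9 : ℝ) ^ (2 * D) * 15 ^ (2 * D) ≤ 6075 ^ (2 * D) := by
      rw [← mul_pow]
      exact pow_le_pow_left₀ (by norm_num) (by norm_num) _
    have hp2 : (9 : ℝ) ^ (2 * D) * 119 ^ (2 * D) ≤ 6075 ^ (2 * D) := by
      rw [← mul_pow]
      exact pow_le_pow_left₀ (by norm_num) (by norm_num) _
    have hp3 : (9 : ℝ) ^ (2 * D) * 675 ^ (2 * D) ≤ 6075 ^ (2 * D) := by
      rw [← mul_pow]
      exact pow_le_pow_left₀ (by norm_num) (by norm_num) _
    have hn1 : 0 ≤ PP * (M / p) := by positivity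
    have hn2 : 0 ≤ (L : ℝ) ^ (6 * D) * M := by positivity
    have hn3 : 0 ≤ PP * (1 / (L : ℝ)) := by positivity
    have hE : (0 : ℝ) ≤ 6075 ^ (2 * D) := by positivity
    calc 2 * 9 ^ (2 * D) * (((a : ℝ) * b) * (M / p) +
        2 / L * (((a : ℝ) * b) * (M / ((e : ℝ) * f))) +
        2 / L * (45 ^ (2 * D) * ((a : ℝ) * b)))
        ≤ 2 * 9 ^ (2 * D) * (15 ^ (2 * D) * (PP * (M / p)) +
          2 * (119 ^ (2 * D) * ((L : ℝ) ^ (6 * D) * M)) +
          2 * (675 ^ (2 * D) * (PP * (1 / L)))) := by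
          refine mul_le_mul_of_nonneg_left ?_ (by positivity)
          linarith
      _ = 2 * ((9 ^ (2 * D) * 15 ^ (2 * D)) * (PP * (M / p))) +
          4 * ((9 ^ (2 * D) * 119 ^ (2 * D)) * ((L : ℝ) ^ (6 * D) * M)) +
          4 * ((9 ^ (2 * D) * 675 ^ (2 * D)) * (PP * (1 / L))) := by ring
      _ ≤ 2 * (6075 ^ (2 * D) * (PP * (M / p))) +
          4 * (6075 ^ (2 * D) * ((L : ℝ) ^ (6 * D) * M)) +
          4 * (6075 ^ (2 * D) * (PP * (1 / L))) := by
          have := mul_le_mul_of_nonneg_right hp1 hn1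
          have := mul_le_mul_of_nonneg_right hp2 hn2
          have := mul_le_mul_of_nonneg_right hp3 hn3
          linarith
      _ ≤ 4 * 6075 ^ (2 * D) * (PP * (M / p + 1 / L) + (L : ℝ) ^ (6 * D) * M) := by
          have := mul_nonneg hE hn1
          linarith
  · push Not at hI
    obtain ⟨z, hz, hz0⟩ := hP
    obtain ⟨z', hz', hz0'⟩ := hQ
    refine ⟨z, hz, z', hz', hz0, hz0', ?_⟩
    have h1 := NN_card P Q x y z hz0 (X (z' / z))
    have h2 := II_cover P Q (8 * L) (1 / (2 * (L : ℝ))) (by positivity)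
    have e1 : ((8 * L : ℕ) : ℝ) * (1 / (2 * (L : ℝ))) = 4 := by
      push_cast
      field_simp
      norm_num
    have e2 : (2 : ℝ) * (1 / (2 * (L : ℝ))) = 1 / (L : ℝ) := by field_simp
    rw [e1, e2] at h2
    have h3 : (II P Q (1 / (L : ℝ))).card ≤ 1 := by
      refine Finset.card_le_one.2 fun a ha b hb => ?_
      rw [hI a ha, hI b hb]
    have h4 : (NN P Q x y z (X (z' / z))).card ≤ (2 * (8 * L) + 1) ^ (2 * D) * (X (z' / z)).card := by
      refine h1.trans (Nat.mul_le_mul ?_ (Finset.card_filter_le _ _))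
      exact h2.trans (by
        calc _ ≤ (2 * (8 * L) + 1) ^ (2 * D) * 1 := Nat.mul_le_mul_left _ h3
          _ = _ := mul_one _)
    have h5 : ((NN P Q x y z (X (z' / z))).card : ℝ) ≤
        (2 * (8 * (L : ℝ)) + 1) ^ (2 * D) * (X (z' / z)).card := by exact_mod_cast h4
    have h6 : ((X (z' / z)).card : ℝ) ≤ M := hX _ (div_ne_zero hz0' hz0)
    calc ((NN P Q x y z (X (z' / z))).card : ℝ)
        ≤ (2 * (8 * (L : ℝ)) + 1) ^ (2 * D) * (X (z' / z)).card := h5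
      _ ≤ (17 * (L : ℝ)) ^ (2 * D) * M := by
          refine mul_le_mul (pow_le_pow_left₀ (by positivity) (by linarith) _) h6
            (Nat.cast_nonneg _) (by positivity)
      _ = 17 ^ (2 * D) * ((L : ℝ) ^ (2 * D) * M) := by rw [mul_pow]; ring
      _ ≤ (4 * 6075 ^ (2 * D)) * ((L : ℝ) ^ (6 * D) * M) := by
          refine mul_le_mul ?_ ?_ (by positivity) (by positivity)
          · have h7 : (17 : ℝ) ^ (2 * D) ≤ 6075 ^ (2 * D) :=
              pow_le_pow_left₀ (by norm_num) (by norm_num) _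
            have h8 : (0 : ℝ) ≤ 6075 ^ (2 * D) := by positivity
            linarith
          · refine mul_le_mul_of_nonneg_right (pow_le_pow_right₀ hL1 ?_) hM
            omega
      _ ≤ 4 * 6075 ^ (2 * D) * (PP * (M / p + 1 / L) + (L : ℝ) ^ (6 * D) * M) := by
          refine mul_le_mul_of_nonneg_left ?_ (by positivity)
          have : 0 ≤ PP * (M / p + 1 / (L : ℝ)) := by positivity
          linarith

end

end Pool.Agent.TH7.PG
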