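import Pool.Agent.TH7.PG.Block

/-! # Shifting both variables -/

set_option autoImplicit false

namespace Pool.Agent.TH7.PG

open Finset

theorem sum_shift {p : ℕ} [NeZero p] (A₀ U : Finset (ZMod p)) (s : ZMod p)
    (hU : ∀ a ∈ A₀, a - s ∈ U) (Φ : ZMod p → ℂ) (hΦ : ∀ x, x ∉ A₀ → Φ x = 0) :
    ∑ a ∈ A₀, Φ a = ∑ t ∈ U, Φ (t + s) := by
  classical
  have h1 : ∑ a ∈ A₀, Φ a = ∑ x : ZMod p, Φ x :=
    Finset.sum_subset (subset_univ _) fun x _ hx => hΦ x hx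
  have h2 : ∑ t ∈ U, Φ (t + s) = ∑ t : ZMod p, Φ (t + s) := by
    refine Finset.sum_subset (subset_univ _) fun t _ ht => hΦ _ fun h3 => ht ?_
    have := hU _ h3
    simpa using this
  rw [h1, h2]
  exact (Equiv.sum_comp (Equiv.addRight s) Φ).symm

theorem shift_bound {p : ℕ} [Fact p.Prime] (χ : DirichletCharacter ℂ p) (L : ℕ) (hL : 1 ≤ L)
    (B : ℝ) (hB : 0 ≤ B) (z z' : ZMod p) (hz : z ≠ 0)
    (A₀ B₀ U U' : Finset (ZMod p)) (hU : ∀ a ∈ A₀, ∀ i : Fin L, a - ((i : ℕ) : ZMod p) * z ∈ U)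
    (hU' : ∀ b ∈ B₀, ∀ j : Fin L, b - ((j : ℕ) : ZMod p) * z' ∈ U')
    (f g : ZMod p → ℂ) (hf : ∀ x, ‖f x‖ ≤ 1) (hg : ∀ x, ‖g x‖ ≤ 1) :
    ‖∑ a ∈ A₀, ∑ b ∈ B₀, f a * g b * χ (a + b)‖ ≤
      Real.sqrt ((1 + B) / L) * ((U.card : ℝ) * U'.card) +
      (((U ×ˢ U').filter fun t => (t.1 + t.2) / z ∈ Bad χ L B (z' / z)).card : ℝ) := by
  classical
  have hLpos : (0 : ℝ) < L := by exact_mod_cast hL
  set F : ZMod p → ℂ := fun a => if a ∈ A₀ then f a else 0 with hF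
  set G : ZMod p → ℂ := fun b => if b ∈ B₀ then g b else 0 with hG
  have hFn : ∀ x, ‖F x‖ ≤ 1 := by
    intro x
    rw [hF]
    dsimp only
    split_ifs
    · exact hf x
    · simp
  have hGn : ∀ x, ‖G x‖ ≤ 1 := by
    intro x
    rw [hG]
    dsimp only
    split_ifs
    · exact hg x
    · simp
  set S : ℂ := ∑ a ∈ A₀, ∑ b ∈ B₀, f a * g b * χ (a + b) with hS
  -- the local sums
  set T : ZMod p × ZMod p → ℂ := fun t => ∑ i : Fin L, ∑ j : Fin L,
    F (t.1 + ((i : ℕ) : ZMod p) * z) * G (t.2 + ((j : ℕ) : ZMod p) * z') *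
      χ (t.1 + ((i : ℕ) : ZMod p) * z + (t.2 + ((j : ℕ) : ZMod p) * z')) with hT
  have hij : ∀ i j : Fin L, S = ∑ t ∈ U ×ˢ U',
      F (t.1 + ((i : ℕ) : ZMod p) * z) * G (t.2 + ((j : ℕ) : ZMod p) * z') *
      χ (t.1 + ((i : ℕ) : ZMod p) * z + (t.2 + ((j : ℕ) : ZMod p) * z')) := by
    intro i j
    rw [Finset.sum_product]
    have h1 : S = ∑ a ∈ A₀, ∑ b ∈ B₀, F a * G b * χ (a + b) := by
      rw [hS]
      refine Finset.sum_congr rfl fun a ha => Finset.sum_congr rfl fun b hb => ?_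
      rw [hF, hG]
      simp only [ha, hb, if_true]
    rw [h1]
    have h2 : ∀ a, ∑ b ∈ B₀, F a * G b * χ (a + b) = ∑ t' ∈ U',
        F a * G (t' + ((j : ℕ) : ZMod p) * z') * χ (a + (t' + ((j : ℕ) : ZMod p) * z')) := by
      intro a
      refine sum_shift B₀ U' _ (fun b hb => hU' b hb j) (fun b => F a * G b * χ (a + b)) ?_
      intro x hx
      simp [hG, hx]
    rw [Finset.sum_congr rfl fun a _ => h2 a]
    refine sum_shift A₀ U _ (fun a ha => hU a ha i) (fun a => ∑ t' ∈ U',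
        F a * G (t' + ((j : ℕ) : ZMod p) * z') * χ (a + (t' + ((j : ℕ) : ZMod p) * z'))) ?_
    intro x hx
    simp [hF, hx]
  have htot : ((L : ℂ) ^ 2) * S = ∑ t ∈ U ×ˢ U', T t := by
    have h1 : ∑ t ∈ U ×ˢ U', T t = ∑ _i : Fin L, ∑ _j : Fin L, S := by
      rw [hT]
      rw [Finset.sum_comm]
      refine Finset.sum_congr rfl fun i _ => ?_
      rw [Finset.sum_comm]
      refine Finset.sum_congr rfl fun j _ => ?_
      exact (hij i j).symm
    rw [h1]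
    simp only [Finset.sum_const, card_univ, Fintype.card_fin, nsmul_eq_mul]
    ring
  -- bounds for the local sums
  have hsmall : ∀ t ∈ U ×ˢ U', ‖T t‖ ≤ (L : ℝ) ^ 2 := by
    intro t _
    rw [hT]
    refine (norm_sum_le _ _).trans ?_
    calc ∑ i : Fin L, ‖∑ j : Fin L, F (t.1 + ((i : ℕ) : ZMod p) * z) *
          G (t.2 + ((j : ℕ) : ZMod p) * z') *
          χ (t.1 + ((i : ℕ) : ZMod p) * z + (t.2 + ((j : ℕ) : ZMod p) * z'))‖
        ≤ ∑ _i : Fin L, ∑ _j : Fin L, (1 : ℝ) := by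
          refine Finset.sum_le_sum fun i _ => (norm_sum_le _ _).trans
            (Finset.sum_le_sum fun j _ => ?_)
          rw [norm_mul, norm_mul]
          exact mul_le_one₀ (mul_le_one₀ (hFn _) (norm_nonneg _) (hGn _)) (norm_nonneg _)
            (χ.norm_le_one _)
      _ = (L : ℝ) ^ 2 := by
          simp only [Finset.sum_const, card_univ, Fintype.card_fin, nsmul_eq_mul]
          ring
  have hgood : ∀ t ∈ U ×ˢ U', (t.1 + t.2) / z ∉ Bad χ L B (z' / z) →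
      ‖T t‖ ≤ (L : ℝ) ^ 2 * Real.sqrt ((1 + B) / L) := by
    intro t _ ht
    have h1 := block χ L B hB (z' / z) ((t.1 + t.2) / z) ht
      (fun i => F (t.1 + ((i : ℕ) : ZMod p) * z)) (fun j => G (t.2 + ((j : ℕ) : ZMod p) * z'))
      (fun i => hFn _) (fun j => hGn _)
    have h2 : T t = χ z * ∑ i : Fin L, ∑ j : Fin L,
        F (t.1 + ((i : ℕ) : ZMod p) * z) * G (t.2 + ((j : ℕ) : ZMod p) * z') *
        χ ((t.1 + t.2) / z + ((i : ℕ) : ZMod p) + ((j : ℕ) : ZMod p) * (z' / z)) := by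
      rw [hT]
      simp only [Finset.mul_sum]
      refine Finset.sum_congr rfl fun i _ => Finset.sum_congr rfl fun j _ => ?_
      have h3 : t.1 + ((i : ℕ) : ZMod p) * z + (t.2 + ((j : ℕ) : ZMod p) * z') =
          z * ((t.1 + t.2) / z + ((i : ℕ) : ZMod p) + ((j : ℕ) : ZMod p) * (z' / z)) := by
        field_simp
        ring
      rw [h3, map_mul]
      ring
    have h4 : ‖T t‖ ^ 2 ≤ (L : ℝ) ^ 3 * (1 + B) := by
      rw [h2, norm_mul, mul_pow]
      refine (mul_le_of_le_one_left (by positivity) ?_).trans h1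
      exact pow_le_one₀ (norm_nonneg _) (χ.norm_le_one _)
    have h5 : ‖T t‖ ≤ Real.sqrt ((L : ℝ) ^ 3 * (1 + B)) := Real.le_sqrt_of_sq_le h4
    refine h5.trans (le_of_eq ?_)
    have h6 : (L : ℝ) ^ 3 * (1 + B) = ((L : ℝ) ^ 2) ^ 2 * ((1 + B) / L) := by
      field_simp
    rw [h6, Real.sqrt_mul (by positivity), Real.sqrt_sq (by positivity)]
  set R : ℝ := Real.sqrt ((1 + B) / L) with hR
  have hR0 : 0 ≤ R := Real.sqrt_nonneg _
  set Z : Finset (ZMod p × ZMod p) :=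
    (U ×ˢ U').filter fun t => (t.1 + t.2) / z ∈ Bad χ L B (z' / z) with hZ
  have h7 : ‖∑ t ∈ U ×ˢ U', T t‖ ≤ (L : ℝ) ^ 2 * (R * ((U.card : ℝ) * U'.card) + Z.card) := by
    refine (norm_sum_le _ _).trans ?_
    rw [← Finset.sum_filter_add_sum_filter_not (U ×ˢ U')
      (fun t => (t.1 + t.2) / z ∈ Bad χ L B (z' / z))]
    have h8 : ∑ t ∈ (U ×ˢ U').filter (fun t => (t.1 + t.2) / z ∈ Bad χ L B (z' / z)), ‖T t‖ ≤
        (Z.card : ℝ) * (L : ℝ) ^ 2 := by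
      refine (Finset.sum_le_card_nsmul _ _ _ fun t ht => hsmall t (mem_filter.1 ht).1).trans ?_
      rw [nsmul_eq_mul]
    have h9 : ∑ t ∈ (U ×ˢ U').filter (fun t => ¬ (t.1 + t.2) / z ∈ Bad χ L B (z' / z)), ‖T t‖ ≤
        ((U.card : ℝ) * U'.card) * ((L : ℝ) ^ 2 * R) := by
      refine (Finset.sum_le_card_nsmul _ _ _ fun t ht =>
        hgood t (mem_filter.1 ht).1 (mem_filter.1 ht).2).trans ?_
      rw [nsmul_eq_mul]
      refine mul_le_mul_of_nonneg_right ?_ (by positivity)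
      have h10 := Finset.card_filter_le (U ×ˢ U')
        (fun t => ¬ (t.1 + t.2) / z ∈ Bad χ L B (z' / z))
      rw [Finset.card_product] at h10
      exact_mod_cast h10
    calc _ ≤ (Z.card : ℝ) * (L : ℝ) ^ 2 + ((U.card : ℝ) * U'.card) * ((L : ℝ) ^ 2 * R) :=
          add_le_add h8 h9
      _ = (L : ℝ) ^ 2 * (R * ((U.card : ℝ) * U'.card) + Z.card) := by ring
  rw [← htot, norm_mul, norm_pow, Complex.norm_natCast] at h7
  exact le_of_mul_le_mul_left h7 (by positivity)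

end Pool.Agent.TH7.PG
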