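import Pool.Agent.TH7.PG.Mom
import Pool.Agent.TH7.PG.Shift
import Pool.Agent.TH7.PG.Bound

/-! # Power saving for bilinear forms supported on translates of two systems -/

set_option autoImplicit false
set_option linter.unusedSectionVars false

namespace Pool.Agent.TH7.PG

open Finset

theorem large (C s : ℝ) (hs : 0 < s) : ∃ p₀ : ℕ, ∀ p : ℕ, p₀ ≤ p → C ≤ (p : ℝ) ^ s := by
  have h := (tendsto_rpow_atTop hs).comp (tendsto_natCast_atTop_atTop (R := ℝ))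
  have h2 := h.eventually_ge_atTop C
  rw [Filter.eventually_atTop] at h2
  obtain ⟨p₀, hp₀⟩ := h2
  exact ⟨p₀, fun p hp => hp₀ p hp⟩

theorem G_bound {p : ℕ} [Fact p.Prime] (χ : DirichletCharacter ℂ p) (hχ : χ ≠ 1) (k L : ℕ)
    (hL1 : 1 ≤ L) (hL : L ≤ p) (B : ℝ) (hB : 0 < B) (h : ZMod p) (hh : h ≠ 0) :
    ((univ.filter fun w => B < ‖V χ L h w‖).card : ℝ) ≤
      ((4 * k : ℝ) ^ (2 * k) * (L : ℝ) ^ k * p + (4 * k) * (L : ℝ) ^ (2 * k) * Real.sqrt p) /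
        B ^ (2 * k) := by
  classical
  rw [le_div_iff₀ (by positivity)]
  refine le_trans ?_ (mom χ hχ k L hL1 hL h hh)
  calc ((univ.filter fun w => B < ‖V χ L h w‖).card : ℝ) * B ^ (2 * k)
      = ∑ _w ∈ univ.filter fun w => B < ‖V χ L h w‖, B ^ (2 * k) := by
        rw [Finset.sum_const, nsmul_eq_mul]
    _ ≤ ∑ w ∈ univ.filter fun w => B < ‖V χ L h w‖, ‖V χ L h w‖ ^ (2 * k) := by
        refine Finset.sum_le_sum fun w hw => ?_
        exact pow_le_pow_left₀ hB.le (mem_filter.1 hw).2.le _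
    _ ≤ ∑ w : ZMod p, ‖V χ L h w‖ ^ (2 * k) :=
        Finset.sum_le_sum_of_subset_of_nonneg (Finset.subset_univ _) fun _ _ _ => by positivity

/-- numerical bound for the size of the exceptional set -/
theorem M_num (x κ c : ℝ) (k : ℕ) (l : ℝ) (hx : 1 ≤ x) (hκ : 0 < κ) (hc : 0 < c) (hc4 : c ≤ 1 / 4)
    (hk1 : 1 ≤ κ * k) (hk2 : κ * k ≤ 2) (hl1 : 1 ≤ l) (hl : x ^ κ / 2 ≤ l) (hl' : l ≤ x ^ κ) :
    l ^ 2 * (((4 * k : ℝ) ^ (2 * k) * l ^ k * x + (4 * k) * l ^ (2 * k) * Real.sqrt x) /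
        (l ^ (1 - c)) ^ (2 * k)) ≤
      ((4 * k : ℝ) ^ (2 * k) * 2 ^ k + 4 * k) * x ^ (1 / 2 + 4 * c + 2 * κ) := by
  have hx0 : 0 < x := by linarith
  have hl0 : 0 < l := by linarith
  have hk0 : (0 : ℝ) ≤ k := Nat.cast_nonneg k
  have e1 : (l ^ (1 - c)) ^ (2 * k) = l ^ ((2 * k : ℝ) * (1 - c)) := by
    rw [← Real.rpow_natCast, ← Real.rpow_mul hl0.le]
    congr 1
    push_cast
    ring
  have e2 : l ^ k / l ^ ((2 * k : ℝ) * (1 - c)) = l ^ (-(k * (1 - 2 * c)) : ℝ) := by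
    rw [← Real.rpow_natCast, ← Real.rpow_sub hl0]
    congr 1
    ring
  have e3 : l ^ (2 * k) / l ^ ((2 * k : ℝ) * (1 - c)) = l ^ (2 * k * c : ℝ) := by
    rw [← Real.rpow_natCast, ← Real.rpow_sub hl0]
    congr 1
    push_cast
    ring
  have h1 : l ^ (-(k * (1 - 2 * c)) : ℝ) ≤ 2 ^ k * x ^ (-(1 - 2 * c)) := by
    have hy : 0 < x ^ κ / 2 := by positivity
    calc l ^ (-(k * (1 - 2 * c)) : ℝ) ≤ (x ^ κ / 2) ^ (-(k * (1 - 2 * c)) : ℝ) := by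
          refine Real.rpow_le_rpow_of_nonpos hy hl ?_
          have : 0 ≤ (k : ℝ) * (1 - 2 * c) := mul_nonneg hk0 (by linarith)
          linarith
      _ = x ^ (κ * -(k * (1 - 2 * c)) : ℝ) * 2 ^ ((k : ℝ) * (1 - 2 * c)) := by
          rw [Real.div_rpow (by positivity) (by norm_num), ← Real.rpow_mul hx0.le,
            div_eq_mul_inv, ← Real.rpow_neg (by norm_num)]
          congr 2
          ring
      _ ≤ x ^ (-(1 - 2 * c)) * 2 ^ (k : ℝ) := by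
          refine mul_le_mul ?_ ?_ (by positivity) (by positivity)
          · refine Real.rpow_le_rpow_of_exponent_le hx ?_
            have : (1 - 2 * c) ≤ (κ * k) * (1 - 2 * c) := by nlinarith
            linarith
          · refine Real.rpow_le_rpow_of_exponent_le (by norm_num) ?_
            nlinarith
      _ = 2 ^ k * x ^ (-(1 - 2 * c)) := by
          rw [Real.rpow_natCast]
          ring
  have h2 : l ^ (2 * k * c : ℝ) ≤ x ^ (4 * c) := by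
    calc l ^ (2 * k * c : ℝ) ≤ (x ^ κ) ^ (2 * k * c : ℝ) :=
          Real.rpow_le_rpow hl0.le hl' (by positivity)
      _ = x ^ (κ * (2 * k * c) : ℝ) := by rw [← Real.rpow_mul hx0.le]
      _ ≤ x ^ (4 * c) := by
          refine Real.rpow_le_rpow_of_exponent_le hx ?_
          nlinarith
  have h3 : l ^ 2 ≤ x ^ (2 * κ) := by
    calc l ^ 2 ≤ (x ^ κ) ^ 2 := pow_le_pow_left₀ hl0.le hl' 2
      _ = x ^ (2 * κ) := by
          rw [← Real.rpow_natCast, ← Real.rpow_mul hx0.le]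
          congr 1
          push_cast
          ring
  have h4 : ((4 * k : ℝ) ^ (2 * k) * l ^ k * x + (4 * k) * l ^ (2 * k) * Real.sqrt x) /
        (l ^ (1 - c)) ^ (2 * k) = (4 * k : ℝ) ^ (2 * k) * l ^ (-(k * (1 - 2 * c)) : ℝ) * x +
        (4 * k) * l ^ (2 * k * c : ℝ) * x ^ (1 / 2 : ℝ) := by
    rw [e1, ← e2, ← e3, Real.sqrt_eq_rpow]
    ring
  have h5 : x ^ (-(1 - 2 * c)) * x ≤ x ^ (1 / 2 + 4 * c) := by
    nth_rewrite 2 [← Real.rpow_one x]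
    rw [← Real.rpow_add hx0]
    exact Real.rpow_le_rpow_of_exponent_le hx (by linarith)
  have h6 : x ^ (4 * c) * x ^ (1 / 2 : ℝ) = x ^ (1 / 2 + 4 * c) := by
    rw [← Real.rpow_add hx0]
    congr 1
    ring
  have h7 : (4 * k : ℝ) ^ (2 * k) * l ^ (-(k * (1 - 2 * c)) : ℝ) * x +
        (4 * k) * l ^ (2 * k * c : ℝ) * x ^ (1 / 2 : ℝ) ≤
        ((4 * k : ℝ) ^ (2 * k) * 2 ^ k + 4 * k) * x ^ (1 / 2 + 4 * c) := by
    have a1 : (4 * k : ℝ) ^ (2 * k) * l ^ (-(k * (1 - 2 * c)) : ℝ) * x ≤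
        (4 * k : ℝ) ^ (2 * k) * 2 ^ k * x ^ (1 / 2 + 4 * c) := by
      calc (4 * k : ℝ) ^ (2 * k) * l ^ (-(k * (1 - 2 * c)) : ℝ) * x
          ≤ (4 * k : ℝ) ^ (2 * k) * (2 ^ k * x ^ (-(1 - 2 * c))) * x := by
            refine mul_le_mul_of_nonneg_right (mul_le_mul_of_nonneg_left h1 (by positivity)) hx0.le
        _ = (4 * k : ℝ) ^ (2 * k) * 2 ^ k * (x ^ (-(1 - 2 * c)) * x) := by ring
        _ ≤ (4 * k : ℝ) ^ (2 * k) * 2 ^ k * x ^ (1 / 2 + 4 * c) :=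
            mul_le_mul_of_nonneg_left h5 (by positivity)
    have a2 : (4 * k) * l ^ (2 * k * c : ℝ) * x ^ (1 / 2 : ℝ) ≤ (4 * k) * x ^ (1 / 2 + 4 * c) := by
      rw [← h6, mul_assoc]
      refine mul_le_mul_of_nonneg_left (mul_le_mul_of_nonneg_right h2 (by positivity))
        (by positivity)
    calc _ ≤ (4 * k : ℝ) ^ (2 * k) * 2 ^ k * x ^ (1 / 2 + 4 * c) +
          (4 * k) * x ^ (1 / 2 + 4 * c) := add_le_add a1 a2
      _ = _ := by ring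
  rw [h4]
  calc l ^ 2 * _ ≤ x ^ (2 * κ) * (((4 * k : ℝ) ^ (2 * k) * 2 ^ k + 4 * k) * x ^ (1 / 2 + 4 * c)) := by
        refine mul_le_mul h3 h7 (by positivity) (by positivity)
    _ = ((4 * k : ℝ) ^ (2 * k) * 2 ^ k + 4 * k) * (x ^ (1 / 2 + 4 * c) * x ^ (2 * κ)) := by ring
    _ = _ := by rw [← Real.rpow_add hx0]

/-- numerical bound for the square root factor -/
theorem R_num (x κ c l : ℝ) (hx : 1 ≤ x) (hκ : 0 < κ) (hc : 0 < c) (hc1 : c ≤ 1) (hl1 : 1 ≤ l)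
    (hl : x ^ κ / 2 ≤ l) : Real.sqrt ((1 + l ^ (1 - c)) / l) ≤ 2 * x ^ (-(κ * c / 2)) := by
  have hx0 : 0 < x := by linarith
  have hl0 : 0 < l := by linarith
  refine Real.sqrt_le_iff.2 ⟨by positivity, ?_⟩
  have h1 : 1 ≤ l ^ (1 - c) := Real.one_le_rpow hl1 (by linarith)
  have h2 : (1 + l ^ (1 - c)) / l ≤ 2 * l ^ (-c) := by
    rw [div_le_iff₀ hl0]
    have h3 : l ^ (-c) * l = l ^ (1 - c) := by
      nth_rewrite 2 [← Real.rpow_one l]
      rw [← Real.rpow_add hl0]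
      congr 1
      ring
    rw [mul_assoc, h3]
    linarith
  have h4 : l ^ (-c) ≤ 2 * x ^ (-(κ * c)) := by
    have hy : 0 < x ^ κ / 2 := by positivity
    calc l ^ (-c) ≤ (x ^ κ / 2) ^ (-c) := Real.rpow_le_rpow_of_nonpos hy hl (by linarith)
      _ = x ^ (κ * -c) * 2 ^ c := by
          rw [Real.div_rpow (by positivity) (by norm_num), ← Real.rpow_mul hx0.le,
            div_eq_mul_inv, ← Real.rpow_neg (by norm_num), neg_neg]
      _ ≤ x ^ (κ * -c) * 2 ^ (1 : ℝ) := by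
          refine mul_le_mul_of_nonneg_left ?_ (by positivity)
          exact Real.rpow_le_rpow_of_exponent_le (by norm_num) hc1
      _ = 2 * x ^ (-(κ * c)) := by
          rw [Real.rpow_one, mul_neg]
          ring
  have h5 : (2 * x ^ (-(κ * c / 2))) ^ 2 = 4 * x ^ (-(κ * c)) := by
    have e : (-(κ * c / 2)) * ((2 : ℕ) : ℝ) = -(κ * c) := by
      push_cast
      ring
    rw [mul_pow, ← Real.rpow_natCast (x ^ _), ← Real.rpow_mul hx0.le, e]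
    norm_num
  rw [h5]
  linarith

theorem final_num (PP x s₁ s₂ s₃ s₄ t : ℝ) (a b C₁ R M l F : ℝ) (hPP : 0 ≤ PP) (ha : 0 ≤ a)
    (hb : 0 ≤ b) (hC : 0 ≤ C₁) (hR : R ≤ 2 * x ^ s₁) (hM : M / x ≤ C₁ * x ^ s₂)
    (hl : 1 / l ≤ 2 * x ^ s₃) (hF : F ≤ C₁ * x ^ s₄ * PP)
    (h1 : x ^ s₁ ≤ x ^ t) (h2 : x ^ s₂ ≤ x ^ t) (h3 : x ^ s₃ ≤ x ^ t) (h4 : x ^ s₄ ≤ x ^ t) :
    R * (a * PP) + b * (PP * (M / x + 1 / l) + F) ≤
      (2 * a + b * (2 * C₁ + 2)) * x ^ t * PP := by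
  have e1 : R * (a * PP) ≤ 2 * x ^ t * (a * PP) :=
    mul_le_mul_of_nonneg_right (by linarith) (by positivity)
  have e2 : M / x ≤ C₁ * x ^ t := hM.trans (mul_le_mul_of_nonneg_left h2 hC)
  have e3 : 1 / l ≤ 2 * x ^ t := by linarith
  have e4 : F ≤ C₁ * x ^ t * PP :=
    hF.trans (mul_le_mul_of_nonneg_right (mul_le_mul_of_nonneg_left h4 hC) hPP)
  have e5 : PP * (M / x + 1 / l) ≤ PP * (C₁ * x ^ t + 2 * x ^ t) :=
    mul_le_mul_of_nonneg_left (by linarith) hPP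
  have e6 : b * (PP * (M / x + 1 / l) + F) ≤
      b * (PP * (C₁ * x ^ t + 2 * x ^ t) + C₁ * x ^ t * PP) :=
    mul_le_mul_of_nonneg_left (by linarith) hb
  calc _ ≤ 2 * x ^ t * (a * PP) + b * (PP * (C₁ * x ^ t + 2 * x ^ t) + C₁ * x ^ t * PP) :=
        add_le_add e1 e6
    _ = _ := by ring

theorem core (ε : ℝ) (hε : 0 < ε) (hε1 : ε ≤ 1) (D : ℕ) : ∃ η : ℝ, 0 < η ∧ ∃ p₀ : ℕ,
    ∀ (p : ℕ) [Fact p.Prime], p₀ ≤ p → ∀ (χ : DirichletCharacter ℂ p), χ ≠ 1 →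
    ∀ (P Q : Sys p D) (x y : ZMod p) (A B : Finset (ZMod p)),
      (∀ a ∈ A, a - x ∈ P.S 1) → (∀ b ∈ B, b - y ∈ Q.S 1) →
      (p : ℝ) ^ (ε / 2) ≤ (P.S 1).card → (p : ℝ) ^ (ε / 2) ≤ (Q.S 1).card →
      (p : ℝ) ^ (1 / 2 + ε / 2) ≤ ((P.S 1).card : ℝ) * (Q.S 1).card →
      ∀ f g : ZMod p → ℂ, (∀ x, ‖f x‖ ≤ 1) → (∀ x, ‖g x‖ ≤ 1) →
        ‖∑ a ∈ A, ∑ b ∈ B, f a * g b * χ (a + b)‖ ≤
          (p : ℝ) ^ (-η) * (((P.S 1).card : ℝ) * (Q.S 1).card) := by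
  classical
  set κ : ℝ := ε / (64 * (D + 1)) with hκ
  set c : ℝ := ε / 64 with hc
  have hκ0 : 0 < κ := by positivity
  have hc0 : 0 < c := by positivity
  have hDκ : κ * D ≤ ε / 64 := by
    rw [hκ, div_mul_eq_mul_div, div_le_div_iff₀ (by positivity) (by norm_num)]
    nlinarith
  have hκc : κ ≤ ε / 64 := by
    rw [hκ, div_le_div_iff₀ (by positivity) (by norm_num)]
    have : (0 : ℝ) ≤ D := Nat.cast_nonneg D
    nlinarith
  have hκ1 : κ ≤ 1 := by linarith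
  set k : ℕ := ⌈1 / κ⌉₊ with hk
  have hk1 : 1 ≤ κ * k := by
    have h1 : 1 / κ ≤ k := Nat.le_ceil _
    rw [div_le_iff₀ hκ0] at h1
    linarith
  have hk2 : κ * k ≤ 2 := by
    have h1 : (k : ℝ) < 1 / κ + 1 := Nat.ceil_lt_add_one (by positivity)
    have h2 : κ * k < κ * (1 / κ + 1) := mul_lt_mul_of_pos_left h1 hκ0
    have h3 : κ * (1 / κ + 1) = 1 + κ := by
      field_simp
    linarith
  set C₁ : ℝ := (4 * k : ℝ) ^ (2 * k) * 2 ^ k + 4 * k with hC₁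
  have hC₁0 : 0 ≤ C₁ := by positivity
  set C₂ : ℝ := 2 * (25 : ℝ) ^ D + 4 * 6075 ^ (2 * D) * (2 * C₁ + 2) with hC₂
  refine ⟨κ * c / 4, by positivity, ?_⟩
  obtain ⟨p₁, hp₁⟩ := large 2 κ hκ0
  obtain ⟨p₂, hp₂⟩ := large (3 ^ D + 1) (ε / 4) (by positivity)
  obtain ⟨p₃, hp₃⟩ := large C₂ (κ * c / 4) (by positivity)
  refine ⟨max p₁ (max p₂ p₃), ?_⟩
  intro p hpf hp χ hχ P Q x y A B hA hB hPc hQc hPQ f g hf hg
  have hp1 := hp₁ p ((le_max_left _ _).trans hp)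
  have hp2 := hp₂ p ((le_max_left _ _).trans ((le_max_right _ _).trans hp))
  have hp3 := hp₃ p ((le_max_right _ _).trans ((le_max_right _ _).trans hp))
  have hpprime : p.Prime := Fact.out
  have hpR : (1 : ℝ) ≤ p := by exact_mod_cast hpprime.one_lt.le
  have hp0 : (0 : ℝ) < p := by linarith
  set L : ℕ := ⌊(p : ℝ) ^ κ⌋₊ with hL
  have hLle : (L : ℝ) ≤ (p : ℝ) ^ κ := Nat.floor_le (by positivity)
  have hLge : (p : ℝ) ^ κ / 2 ≤ L := by
    have := Nat.lt_floor_add_one ((p : ℝ) ^ κ)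
    rw [← hL] at this
    linarith
  have hL1 : 1 ≤ L := by
    rw [hL]
    exact Nat.le_floor (by push_cast; linarith)
  have hL1' : (1 : ℝ) ≤ L := by exact_mod_cast hL1
  have hLp : L ≤ p := by
    have h1 : (L : ℝ) ≤ p := by
      refine hLle.trans ?_
      calc (p : ℝ) ^ κ ≤ (p : ℝ) ^ (1 : ℝ) := Real.rpow_le_rpow_of_exponent_le hpR hκ1
        _ = p := Real.rpow_one _
    exact_mod_cast h1
  have hLpos : (0 : ℝ) < L := by linarith
  -- the exceptional sets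
  set Bd : ℝ := (L : ℝ) ^ (1 - c) with hBd
  have hBd0 : 0 < Bd := by positivity
  set G : ℝ := ((4 * k : ℝ) ^ (2 * k) * (L : ℝ) ^ k * p +
    (4 * k) * (L : ℝ) ^ (2 * k) * Real.sqrt p) / Bd ^ (2 * k) with hG
  have hG0 : 0 ≤ G := by positivity
  set M : ℝ := (L : ℝ) ^ 2 * G with hM
  have hM0 : 0 ≤ M := by positivity
  have hX : ∀ θ : ZMod p, θ ≠ 0 → ((Bad χ L Bd θ).card : ℝ) ≤ M := by
    intro θ hθ
    exact bad_card χ L hLp Bd G hG0 (fun h hh => G_bound χ hχ k L hL1 hLp Bd hBd0 h hh) θ hθ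
  have hMle : M ≤ C₁ * (p : ℝ) ^ (1 / 2 + 4 * c + 2 * κ) :=
    M_num p κ c k L hpR hκ0 hc0 (by linarith) hk1 hk2 hL1' hLge hLle
  -- the small dilates are not trivial
  have hnt : ∀ S : Sys p D, (p : ℝ) ^ (ε / 2) ≤ (S.S 1).card →
      ∃ z ∈ S.S (1 / (L : ℝ)), z ≠ 0 := by
    intro S hS
    by_contra hcon
    push Not at hcon
    have h1 : (S.S (1 / (L : ℝ))).card ≤ 1 := by
      refine Finset.card_le_one.2 fun a ha b hb => ?_
      rw [hcon a ha, hcon b hb]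
    have h2 := S.card_mul_le L (1 / (L : ℝ)) (by positivity)
    have e1 : (L : ℝ) * (1 / (L : ℝ)) = 1 := by field_simp
    rw [e1] at h2
    have h3 : (S.S 1).card ≤ (2 * L + 1) ^ D := by
      refine h2.trans ?_
      calc (2 * L + 1) ^ D * (S.S (1 / (L : ℝ))).card ≤ (2 * L + 1) ^ D * 1 :=
            Nat.mul_le_mul_left _ h1
        _ = _ := mul_one _
    have h4 : ((S.S 1).card : ℝ) ≤ (2 * (L : ℝ) + 1) ^ D := by exact_mod_cast h3
    have h5 : (2 * (L : ℝ) + 1) ^ D ≤ 3 ^ D * (p : ℝ) ^ (ε / 4) := by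
      calc (2 * (L : ℝ) + 1) ^ D ≤ (3 * (p : ℝ) ^ κ) ^ D :=
            pow_le_pow_left₀ (by positivity) (by linarith) _
        _ = 3 ^ D * (p : ℝ) ^ (κ * D) := by
            rw [mul_pow, ← Real.rpow_natCast ((p : ℝ) ^ κ), ← Real.rpow_mul hp0.le]
        _ ≤ 3 ^ D * (p : ℝ) ^ (ε / 4) := by
            refine mul_le_mul_of_nonneg_left (Real.rpow_le_rpow_of_exponent_le hpR ?_)
              (by positivity)
            linarith
    have h6 : (p : ℝ) ^ (ε / 2) = (p : ℝ) ^ (ε / 4) * (p : ℝ) ^ (ε / 4) := by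
      rw [← Real.rpow_add hp0]
      congr 1
      ring
    have h7 : 0 < (p : ℝ) ^ (ε / 4) := by positivity
    have h8 : (p : ℝ) ^ (ε / 4) * (p : ℝ) ^ (ε / 4) ≤ 3 ^ D * (p : ℝ) ^ (ε / 4) := by
      rw [← h6]
      exact hS.trans (h4.trans h5)
    have h9 := le_of_mul_le_mul_right h8 h7
    linarith
  obtain ⟨z, hzP, z', hzQ, hz0, hz0', hNN⟩ := bad_pairs P Q x y L hL1 (hnt P hPc) (hnt Q hQc) M
    hM0 (fun θ => Bad χ L Bd θ) hX
  set PP : ℝ := ((P.S 1).card : ℝ) * (Q.S 1).card with hPP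
  have hPP0 : 0 ≤ PP := by positivity
  -- membership in the shifted sets
  have hmem : ∀ (S : Sys p D) (x₀ z₀ : ZMod p), z₀ ∈ S.S (1 / (L : ℝ)) → ∀ a, a - x₀ ∈ S.S 1 →
      ∀ i : Fin L, a - ((i : ℕ) : ZMod p) * z₀ ∈ (S.S 2).image fun t => x₀ + t := by
    intro S x₀ z₀ hz₀ a ha i
    refine mem_image.2 ⟨a - ((i : ℕ) : ZMod p) * z₀ - x₀, ?_, by ring⟩
    have h1 := S.nat_mul_mem i _ _ hz₀
    have h2 := S.mono _ 1 (by
      have h3 : ((i : ℕ) : ℝ) ≤ L := by exact_mod_cast i.2.le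
      rw [mul_one_div, div_le_one hLpos]
      exact h3) h1
    have h4 := S.sub_mem _ _ _ _ ha h2
    have e1 : (1 : ℝ) + 1 = 2 := by norm_num
    have e2 : a - x₀ - ((i : ℕ) : ZMod p) * z₀ = a - ((i : ℕ) : ZMod p) * z₀ - x₀ := by ring
    rw [e1, e2] at h4
    exact h4
  have hsb := shift_bound χ L hL1 Bd hBd0.le z z' hz0 A B _ _
    (fun a ha i => hmem P x z hzP a (hA a ha) i) (fun b hb j => hmem Q y z' hzQ b (hB b hb) j)
    f g hf hg
  refine hsb.trans ?_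
  have hcard : ∀ (S : Sys p D) (x₀ : ZMod p),
      (((S.S 2).image fun t => x₀ + t).card : ℝ) ≤ 5 ^ D * (S.S 1).card := by
    intro S x₀
    have h1 := S.card_mul_le 2 1 zero_le_one
    have e1 : ((2 : ℕ) : ℝ) * 1 = 2 := by norm_num
    rw [e1] at h1
    have h2 : ((S.S 2).image fun t => x₀ + t).card ≤ (2 * 2 + 1) ^ D * (S.S 1).card :=
      card_image_le.trans h1
    exact_mod_cast h2
  have hUU : (((P.S 2).image fun t => x + t).card : ℝ) * ((Q.S 2).image fun t => y + t).card ≤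
      25 ^ D * PP := by
    calc _ ≤ (5 ^ D * ((P.S 1).card : ℝ)) * (5 ^ D * ((Q.S 1).card : ℝ)) :=
          mul_le_mul (hcard P x) (hcard Q y) (Nat.cast_nonneg _) (by positivity)
      _ = (5 * 5 : ℝ) ^ D * PP := by rw [mul_pow, hPP]; ring
      _ = 25 ^ D * PP := by norm_num
  have hstep : Real.sqrt ((1 + Bd) / L) * ((((P.S 2).image fun t => x + t).card : ℝ) *
      ((Q.S 2).image fun t => y + t).card) +
      ((((P.S 2).image fun t => x + t) ×ˢ ((Q.S 2).image fun t => y + t)).filter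
        fun t => (t.1 + t.2) / z ∈ Bad χ L Bd (z' / z)).card ≤
      Real.sqrt ((1 + Bd) / L) * (25 ^ D * PP) + 4 * 6075 ^ (2 * D) *
        (PP * (M / p + 1 / L) + (L : ℝ) ^ (6 * D) * M) :=
    add_le_add (mul_le_mul_of_nonneg_left hUU (Real.sqrt_nonneg _)) hNN
  refine hstep.trans ?_
  -- the final numerical bound
  have hR : Real.sqrt ((1 + Bd) / L) ≤ 2 * (p : ℝ) ^ (-(κ * c / 2)) :=
    R_num p κ c L hpR hκ0 hc0 (by linarith) hL1' hLge
  have hMp : M / p ≤ C₁ * (p : ℝ) ^ (1 / 2 + 4 * c + 2 * κ - 1) := by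
    rw [Real.rpow_sub_one hp0.ne', ← mul_div_assoc]
    exact div_le_div_of_nonneg_right hMle hp0.le
  have hLinv : 1 / (L : ℝ) ≤ 2 * (p : ℝ) ^ (-κ) := by
    rw [Real.rpow_neg hp0.le, div_le_iff₀ hLpos]
    have h1 : 0 < (p : ℝ) ^ κ := by positivity
    have h2 : 2 * ((p : ℝ) ^ κ)⁻¹ * ((p : ℝ) ^ κ / 2) = 1 := by
      field_simp
    calc (1 : ℝ) = 2 * ((p : ℝ) ^ κ)⁻¹ * ((p : ℝ) ^ κ / 2) := h2.symm
      _ ≤ 2 * ((p : ℝ) ^ κ)⁻¹ * L := mul_le_mul_of_nonneg_left hLge (by positivity)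
  have hF : (L : ℝ) ^ (6 * D) * M ≤ C₁ * (p : ℝ) ^ (-(ε / 4)) * PP := by
    have h1 : (L : ℝ) ^ (6 * D) ≤ (p : ℝ) ^ (6 * (ε / 64)) := by
      calc (L : ℝ) ^ (6 * D) ≤ ((p : ℝ) ^ κ) ^ (6 * D) := pow_le_pow_left₀ hLpos.le hLle _
        _ = (p : ℝ) ^ (6 * (κ * D)) := by
            rw [← Real.rpow_natCast, ← Real.rpow_mul hp0.le]
            congr 1
            push_cast
            ring
        _ ≤ (p : ℝ) ^ (6 * (ε / 64)) := Real.rpow_le_rpow_of_exponent_le hpR (by linarith)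
    calc (L : ℝ) ^ (6 * D) * M ≤ (p : ℝ) ^ (6 * (ε / 64)) *
          (C₁ * (p : ℝ) ^ (1 / 2 + 4 * c + 2 * κ)) := mul_le_mul h1 hMle hM0 (by positivity)
      _ = C₁ * (p : ℝ) ^ (6 * (ε / 64) + (1 / 2 + 4 * c + 2 * κ)) := by
          rw [Real.rpow_add hp0 (6 * (ε / 64)) (1 / 2 + 4 * c + 2 * κ)]
          ring
      _ ≤ C₁ * (p : ℝ) ^ (-(ε / 4) + (1 / 2 + ε / 2)) := by
          refine mul_le_mul_of_nonneg_left (Real.rpow_le_rpow_of_exponent_le hpR ?_) hC₁0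
          rw [hc]
          linarith
      _ = C₁ * (p : ℝ) ^ (-(ε / 4)) * (p : ℝ) ^ (1 / 2 + ε / 2) := by
          rw [Real.rpow_add hp0, mul_assoc]
      _ ≤ C₁ * (p : ℝ) ^ (-(ε / 4)) * PP :=
          mul_le_mul_of_nonneg_left hPQ (by positivity)
  have hκc0 : 0 < κ * c := by positivity
  have hκc1 : κ * c ≤ κ := by nlinarith
  have hfin := final_num PP p (-(κ * c / 2)) (1 / 2 + 4 * c + 2 * κ - 1) (-κ) (-(ε / 4))
    (-(κ * c / 2)) (25 ^ D) (4 * 6075 ^ (2 * D)) C₁ (Real.sqrt ((1 + Bd) / L)) M L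
    ((L : ℝ) ^ (6 * D) * M) hPP0 (by positivity) (by positivity) hC₁0 hR hMp hLinv hF le_rfl
    (Real.rpow_le_rpow_of_exponent_le hpR (by rw [hc] at *; nlinarith))
    (Real.rpow_le_rpow_of_exponent_le hpR (by linarith))
    (Real.rpow_le_rpow_of_exponent_le hpR (by linarith))
  refine hfin.trans ?_
  rw [← hC₂]
  refine mul_le_mul_of_nonneg_right ?_ hPP0
  calc C₂ * (p : ℝ) ^ (-(κ * c / 2)) ≤ (p : ℝ) ^ (κ * c / 4) * (p : ℝ) ^ (-(κ * c / 2)) :=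
        mul_le_mul_of_nonneg_right hp3 (by positivity)
    _ = (p : ℝ) ^ (-(κ * c / 4)) := by
        rw [← Real.rpow_add hp0]
        congr 1
        ring

end Pool.Agent.TH7.PG
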