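import Pool.Agent.TH7.PG.Sys

/-! # Counting the pairs whose sum falls in a dilate of an exceptional set -/

set_option autoImplicit false
set_option linter.unusedSectionVars false

namespace Pool.Agent.TH7.PG

open Finset

section general

variable {p D : ℕ} [Fact p.Prime] (P Q : Sys p D)

theorem cover_card (X Y F : Finset (ZMod p)) (h : ∀ x ∈ X, ∃ t ∈ F, x - t ∈ Y) :
    X.card ≤ F.card * Y.card := by
  classical
  have hsub : X ⊆ (F ×ˢ Y).image fun u => u.1 + u.2 := by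
    intro x hx
    obtain ⟨t, ht, hy⟩ := h x hx
    exact mem_image.2 ⟨(t, x - t), mem_product.2 ⟨ht, hy⟩, by ring⟩
  refine (card_le_card hsub).trans (card_image_le.trans ?_)
  rw [card_product]

theorem Sys.card_mul_le (m : ℕ) (ρ : ℝ) (hρ : 0 ≤ ρ) :
    (P.S (m * ρ)).card ≤ (2 * m + 1) ^ D * (P.S ρ).card := by
  obtain ⟨F, hF, h⟩ := P.cover m ρ hρ
  exact (cover_card _ _ F h).trans (Nat.mul_le_mul_right _ hF)

theorem Sys.nat_mul_mem (n : ℕ) (ρ : ℝ) (x : ZMod p) (hx : x ∈ P.S ρ) :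
    (n : ZMod p) * x ∈ P.S (n * ρ) := by
  induction n with
  | zero => simpa using P.zero_mem 0 le_rfl
  | succ n ih =>
    have := P.add_mem _ _ _ _ ih hx
    have e1 : ((n + 1 : ℕ) : ZMod p) * x = (n : ZMod p) * x + x := by push_cast; ring
    have e2 : ((n + 1 : ℕ) : ℝ) * ρ = n * ρ + ρ := by push_cast; ring
    rw [e1, e2]
    exact this

theorem Sys.sub_mem (ρ σ : ℝ) (x y : ZMod p) (hx : x ∈ P.S ρ) (hy : y ∈ P.S σ) :
    x - y ∈ P.S (ρ + σ) := by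
  rw [sub_eq_add_neg]
  exact P.add_mem _ _ _ _ hx (P.neg_mem _ _ hy)

/-- the intersection -/
def II (ρ : ℝ) : Finset (ZMod p) := P.S ρ ∩ Q.S ρ

/-- the sum set -/
def SS (ρ : ℝ) : Finset (ZMod p) := (P.S ρ ×ˢ Q.S ρ).image fun t => t.1 + t.2

theorem mem_II (ρ : ℝ) (x : ZMod p) : x ∈ II P Q ρ ↔ x ∈ P.S ρ ∧ x ∈ Q.S ρ := mem_inter

theorem mem_SS (ρ : ℝ) (x : ZMod p) : x ∈ SS P Q ρ ↔ ∃ a ∈ P.S ρ, ∃ b ∈ Q.S ρ, x = a + b := by
  unfold SS
  rw [mem_image]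
  constructor
  · rintro ⟨t, ht, rfl⟩
    rw [mem_product] at ht
    exact ⟨t.1, ht.1, t.2, ht.2, rfl⟩
  · rintro ⟨a, ha, b, hb, rfl⟩
    exact ⟨(a, b), mem_product.2 ⟨ha, hb⟩, rfl⟩

theorem II_add (ρ σ : ℝ) (x y : ZMod p) (hx : x ∈ II P Q ρ) (hy : y ∈ II P Q σ) :
    x + y ∈ II P Q (ρ + σ) := by
  rw [mem_II] at *
  exact ⟨P.add_mem _ _ _ _ hx.1 hy.1, Q.add_mem _ _ _ _ hx.2 hy.2⟩

theorem II_neg (ρ : ℝ) (x : ZMod p) (hx : x ∈ II P Q ρ) : -x ∈ II P Q ρ := by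
  rw [mem_II] at *
  exact ⟨P.neg_mem _ _ hx.1, Q.neg_mem _ _ hx.2⟩

theorem II_zero (ρ : ℝ) (hρ : 0 ≤ ρ) : (0 : ZMod p) ∈ II P Q ρ :=
  (mem_II P Q _ _).2 ⟨P.zero_mem _ hρ, Q.zero_mem _ hρ⟩

theorem SS_add (ρ σ : ℝ) (x y : ZMod p) (hx : x ∈ SS P Q ρ) (hy : y ∈ SS P Q σ) :
    x + y ∈ SS P Q (ρ + σ) := by
  rw [mem_SS] at *
  obtain ⟨a, ha, b, hb, rfl⟩ := hx
  obtain ⟨a', ha', b', hb', rfl⟩ := hy
  exact ⟨a + a', P.add_mem _ _ _ _ ha ha', b + b', Q.add_mem _ _ _ _ hb hb', by ring⟩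

theorem SS_neg (ρ : ℝ) (x : ZMod p) (hx : x ∈ SS P Q ρ) : -x ∈ SS P Q ρ := by
  rw [mem_SS] at *
  obtain ⟨a, ha, b, hb, rfl⟩ := hx
  exact ⟨-a, P.neg_mem _ _ ha, -b, Q.neg_mem _ _ hb, by ring⟩

theorem SS_zero (ρ : ℝ) (hρ : 0 ≤ ρ) : (0 : ZMod p) ∈ SS P Q ρ :=
  (mem_SS P Q _ _).2 ⟨0, P.zero_mem _ hρ, 0, Q.zero_mem _ hρ, by ring⟩

theorem P_sub_SS (ρ : ℝ) (hρ : 0 ≤ ρ) (x : ZMod p) (hx : x ∈ P.S ρ) : x ∈ SS P Q ρ :=
  (mem_SS P Q _ _).2 ⟨x, hx, 0, Q.zero_mem _ hρ, by ring⟩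

theorem II_cover (m : ℕ) (ρ : ℝ) (hρ : 0 ≤ ρ) :
    (II P Q (m * ρ)).card ≤ (2 * m + 1) ^ (2 * D) * (II P Q (2 * ρ)).card := by
  classical
  obtain ⟨F, hF, h1⟩ := P.cover m ρ hρ
  obtain ⟨G, hG, h2⟩ := Q.cover m ρ hρ
  set pt : ZMod p × ZMod p → ZMod p := fun u =>
    if h : ∃ x, x - u.1 ∈ P.S ρ ∧ x - u.2 ∈ Q.S ρ then h.choose else 0 with hpt
  have h3 := cover_card (II P Q (m * ρ)) (II P Q (2 * ρ)) ((F ×ˢ G).image pt) (by
    intro x hx
    rw [mem_II] at hx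
    obtain ⟨t, ht, htx⟩ := h1 x hx.1
    obtain ⟨u, hu, hux⟩ := h2 x hx.2
    refine ⟨pt (t, u), mem_image.2 ⟨(t, u), mem_product.2 ⟨ht, hu⟩, rfl⟩, ?_⟩
    have hex : ∃ x, x - (t, u).1 ∈ P.S ρ ∧ x - (t, u).2 ∈ Q.S ρ := ⟨x, htx, hux⟩
    have hpe : pt (t, u) = hex.choose := by
      rw [hpt]
      exact dif_pos hex
    rw [hpe]
    have hsp := hex.choose_spec
    rw [mem_II, two_mul]
    constructor
    · have := P.sub_mem _ _ _ _ htx hsp.1
      have e : x - t - (hex.choose - (t, u).1) = x - hex.choose := by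
        show x - t - (hex.choose - t) = _
        ring
      rwa [e] at this
    · have := Q.sub_mem _ _ _ _ hux hsp.2
      have e : x - u - (hex.choose - (t, u).2) = x - hex.choose := by
        show x - u - (hex.choose - u) = _
        ring
      rwa [e] at this)
  refine h3.trans (Nat.mul_le_mul_right _ ?_)
  refine card_image_le.trans ?_
  rw [card_product, two_mul D, pow_add]
  exact Nat.mul_le_mul hF hG

theorem SS_cover (m : ℕ) (ρ : ℝ) (hρ : 0 ≤ ρ) :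
    (SS P Q (m * ρ)).card ≤ (2 * m + 1) ^ (2 * D) * (SS P Q ρ).card := by
  classical
  obtain ⟨F, hF, h1⟩ := P.cover m ρ hρ
  obtain ⟨G, hG, h2⟩ := Q.cover m ρ hρ
  have h3 := cover_card (SS P Q (m * ρ)) (SS P Q ρ) ((F ×ˢ G).image fun u => u.1 + u.2) (by
    intro x hx
    rw [mem_SS] at hx
    obtain ⟨a, ha, b, hb, rfl⟩ := hx
    obtain ⟨t, ht, hta⟩ := h1 a ha
    obtain ⟨u, hu, hub⟩ := h2 b hb
    refine ⟨t + u, mem_image.2 ⟨(t, u), mem_product.2 ⟨ht, hu⟩, rfl⟩, ?_⟩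
    rw [mem_SS]
    exact ⟨a - t, hta, b - u, hub, by ring⟩)
  refine h3.trans (Nat.mul_le_mul_right _ ?_)
  refine card_image_le.trans ?_
  rw [card_product, two_mul D, pow_add]
  exact Nat.mul_le_mul hF hG

theorem SS_mul_II (ρ σ : ℝ) :
    (SS P Q ρ).card * (II P Q σ).card ≤ (P.S (ρ + σ)).card * (Q.S (ρ + σ)).card := by
  classical
  have hch : ∀ s : ZMod p, ∃ a b : ZMod p, s ∈ SS P Q ρ → (a ∈ P.S ρ ∧ b ∈ Q.S ρ ∧ s = a + b) := by
    intro s
    by_cases hs : s ∈ SS P Q ρ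
    · obtain ⟨a, ha, b, hb, h⟩ := (mem_SS P Q _ _).1 hs
      exact ⟨a, b, fun _ => ⟨ha, hb, h⟩⟩
    · exact ⟨0, 0, fun h => absurd h hs⟩
  choose a b hab using hch
  rw [← card_product, ← card_product]
  refine Finset.card_le_card_of_injOn (fun u => (a u.1 + u.2, b u.1 - u.2)) ?_ ?_
  · intro u hu
    have hu' := mem_product.1 (mem_coe.1 hu)
    obtain ⟨h1, h2, h3⟩ := hab u.1 hu'.1
    have h4 := (mem_II P Q _ _).1 hu'.2
    exact mem_coe.2 (mem_product.2 ⟨P.add_mem _ _ _ _ h1 h4.1, Q.sub_mem _ _ _ _ h2 h4.2⟩)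
  · intro u hu v hv huv
    have hu' := mem_product.1 (mem_coe.1 hu)
    have hv' := mem_product.1 (mem_coe.1 hv)
    obtain ⟨_, _, h3⟩ := hab u.1 hu'.1
    obtain ⟨_, _, h3'⟩ := hab v.1 hv'.1
    have e1 : a u.1 + u.2 = a v.1 + v.2 := congrArg Prod.fst huv
    have e2 : b u.1 - u.2 = b v.1 - v.2 := congrArg Prod.snd huv
    have e3 : u.1 = v.1 := by
      rw [h3, h3']
      linear_combination e1 + e2
    rw [e3] at e1
    exact Prod.ext e3 (add_left_cancel e1)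

/-- `W w ρ σ = S(ρ) - w I(σ)` -/
def WW (w : ZMod p) (ρ σ : ℝ) : Finset (ZMod p) :=
  (SS P Q ρ ×ˢ II P Q σ).image fun t => t.1 - w * t.2

theorem mem_WW (w : ZMod p) (ρ σ : ℝ) (x : ZMod p) :
    x ∈ WW P Q w ρ σ ↔ ∃ s ∈ SS P Q ρ, ∃ y ∈ II P Q σ, x = s - w * y := by
  unfold WW
  rw [mem_image]
  constructor
  · rintro ⟨t, ht, rfl⟩
    rw [mem_product] at ht
    exact ⟨t.1, ht.1, t.2, ht.2, rfl⟩
  · rintro ⟨a, ha, b, hb, rfl⟩
    exact ⟨(a, b), mem_product.2 ⟨ha, hb⟩, rfl⟩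

theorem WW_grow (w : ZMod p) (ρ σ : ℝ) (hρ : 0 ≤ ρ) (hσ : 0 ≤ σ) (n : ℕ) :
    min p (n * ((WW P Q w ρ σ).card - 1) + 1) ≤ (WW P Q w (n * ρ) (n * σ)).card := by
  classical
  have hne : (WW P Q w ρ σ).Nonempty :=
    ⟨0, (mem_WW P Q _ _ _ _).2 ⟨0, SS_zero P Q _ hρ, 0, II_zero P Q _ hσ, by ring⟩⟩
  have hcp : 1 ≤ (WW P Q w ρ σ).card := Finset.card_pos.2 hne
  induction n with
  | zero =>
    have h0 : (0 : ZMod p) ∈ WW P Q w ((0 : ℕ) * ρ) ((0 : ℕ) * σ) := by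
      refine (mem_WW P Q _ _ _ _).2 ⟨0, SS_zero P Q _ ?_, 0, II_zero P Q _ ?_, by ring⟩ <;> simp
    have h1 := Finset.card_pos.2 ⟨_, h0⟩
    have h2 : min p (0 * ((WW P Q w ρ σ).card - 1) + 1) ≤ 1 := by
      refine (min_le_right _ _).trans ?_
      simp
    exact h2.trans h1
  | succ n ih =>
    open Pointwise in
    have hsub : WW P Q w (n * ρ) (n * σ) + WW P Q w ρ σ ⊆
        WW P Q w (((n + 1 : ℕ) : ℝ) * ρ) (((n + 1 : ℕ) : ℝ) * σ) := by
      intro x hx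
      obtain ⟨y, hy, z, hz, rfl⟩ := Finset.mem_add.1 hx
      obtain ⟨s, hs, t, ht, rfl⟩ := (mem_WW P Q _ _ _ _).1 hy
      obtain ⟨s', hs', t', ht', rfl⟩ := (mem_WW P Q _ _ _ _).1 hz
      have e1 : ((n + 1 : ℕ) : ℝ) * ρ = n * ρ + ρ := by push_cast; ring
      have e2 : ((n + 1 : ℕ) : ℝ) * σ = n * σ + σ := by push_cast; ring
      rw [e1, e2, mem_WW]
      exact ⟨s + s', SS_add P Q _ _ _ _ hs hs', t + t', II_add P Q _ _ _ _ ht ht', by ring⟩
    have hne2 : (WW P Q w (n * ρ) (n * σ)).Nonempty := by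
      refine ⟨0, (mem_WW P Q _ _ _ _).2 ⟨0, SS_zero P Q _ ?_, 0, II_zero P Q _ ?_, by ring⟩⟩ <;>
        positivity
    have h1 := ZMod.cauchy_davenport (Fact.out : p.Prime) hne2 hne
    have h2 := h1.trans (card_le_card hsub)
    refine le_trans ?_ h2
    set c := (WW P Q w ρ σ).card with hc
    set d := (WW P Q w (n * ρ) (n * σ)).card with hd
    have e3 : (n + 1) * (c - 1) = n * (c - 1) + (c - 1) := by ring
    rw [e3]
    omega

/-- the number of `z` in the intersection mapped into a translate of `S 2` -/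
noncomputable def TT (w c : ZMod p) (σ : ℝ) : Finset (ZMod p) :=
  (II P Q σ).filter fun z => w * z - c ∈ SS P Q 2

theorem TT_mul (w c : ZMod p) (σ : ℝ) :
    (TT P Q w c σ).card * (WW P Q w 1 σ).card ≤
      (SS P Q 3).card * (II P Q (2 * σ)).card := by
  classical
  have hch : ∀ u : ZMod p, ∃ s y : ZMod p,
      u ∈ WW P Q w 1 σ → (s ∈ SS P Q 1 ∧ y ∈ II P Q σ ∧ u = s - w * y) := by
    intro u
    by_cases hs : u ∈ WW P Q w 1 σ
    · obtain ⟨a, ha, b, hb, h⟩ := (mem_WW P Q _ _ _ _).1 hs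
      exact ⟨a, b, fun _ => ⟨ha, hb, h⟩⟩
    · exact ⟨0, 0, fun h => absurd h hs⟩
  choose s y hsy using hch
  rw [← card_product, ← card_product]
  refine Finset.card_le_card_of_injOn (fun t => (w * t.1 - c + s t.2, t.1 + y t.2)) ?_ ?_
  · intro t ht
    have ht' := mem_product.1 (mem_coe.1 ht)
    obtain ⟨h1, h2, h3⟩ := hsy t.2 ht'.2
    have h4 := mem_filter.1 ht'.1
    refine mem_coe.2 (mem_product.2 ⟨?_, ?_⟩)
    · have := SS_add P Q _ _ _ _ h4.2 h1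
      have e : (2 : ℝ) + 1 = 3 := by norm_num
      rwa [e] at this
    · have := II_add P Q _ _ _ _ h4.1 h2
      have e : σ + σ = 2 * σ := by ring
      rwa [e] at this
  · intro t ht u hu htu
    have ht' := mem_product.1 (mem_coe.1 ht)
    have hu' := mem_product.1 (mem_coe.1 hu)
    obtain ⟨_, _, h3⟩ := hsy t.2 ht'.2
    obtain ⟨_, _, h3'⟩ := hsy u.2 hu'.2
    have e1 : w * t.1 - c + s t.2 = w * u.1 - c + s u.2 := congrArg Prod.fst htu
    have e2 : t.1 + y t.2 = u.1 + y u.2 := congrArg Prod.snd htu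
    have e3 : t.2 = u.2 := by
      rw [h3, h3']
      linear_combination e1 - w * e2
    rw [e3] at e2
    exact Prod.ext (add_right_cancel e2) e3

/-- the number of representations -/
noncomputable def UU (w : ZMod p) (ρ σ : ℝ) : Finset (ZMod p × ZMod p) :=
  (SS P Q (2 * ρ) ×ˢ II P Q (2 * σ)).filter fun t => t.1 = w * t.2

theorem WW_mul_UU (w : ZMod p) (ρ σ : ℝ) :
    (SS P Q ρ).card * (II P Q σ).card ≤ (UU P Q w ρ σ).card * (WW P Q w ρ σ).card := by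
  classical
  rw [← card_product]
  refine Finset.card_le_mul_card_image _ _ ?_
  intro x hx
  obtain ⟨t₀, ht₀, rfl⟩ := mem_image.1 hx
  have ht₀' := mem_product.1 ht₀
  refine Finset.card_le_card_of_injOn (fun t => (t.1 - t₀.1, t.2 - t₀.2)) ?_ ?_
  · intro t ht
    have ht1 := mem_filter.1 (mem_coe.1 ht)
    have ht2 := mem_product.1 ht1.1
    refine mem_coe.2 (mem_filter.2 ⟨mem_product.2 ⟨?_, ?_⟩, ?_⟩)
    · show t.1 - t₀.1 ∈ _
      rw [two_mul, sub_eq_add_neg]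
      exact SS_add P Q _ _ _ _ ht2.1 (SS_neg P Q _ _ ht₀'.1)
    · show t.2 - t₀.2 ∈ _
      rw [two_mul, sub_eq_add_neg]
      exact II_add P Q _ _ _ _ ht2.2 (II_neg P Q _ _ ht₀'.2)
    · have := ht1.2
      simp only at this ⊢
      linear_combination this
  · intro t _ u _ htu
    have e1 : t.1 - t₀.1 = u.1 - t₀.1 := congrArg Prod.fst htu
    have e2 : t.2 - t₀.2 = u.2 - t₀.2 := congrArg Prod.snd htu
    exact Prod.ext (sub_left_injective e1) (sub_left_injective e2)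

theorem UU_sum (X : Finset (ZMod p)) (ρ σ : ℝ) :
    ∑ w ∈ X, (UU P Q w ρ σ).card ≤ X.card + (SS P Q (2 * ρ)).card * (II P Q (2 * σ)).card := by
  classical
  have h1 : ∀ w ∈ X, (UU P Q w ρ σ).card ≤
      1 + ((SS P Q (2 * ρ) ×ˢ II P Q (2 * σ)).filter fun t => t.2 ≠ 0 ∧ t.1 = w * t.2).card := by
    intro w _
    have hsub : UU P Q w ρ σ ⊆ {(0, 0)} ∪
        (SS P Q (2 * ρ) ×ˢ II P Q (2 * σ)).filter fun t => t.2 ≠ 0 ∧ t.1 = w * t.2 := by
      intro t ht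
      have ht1 := mem_filter.1 ht
      rw [mem_union]
      by_cases h : t.2 = 0
      · left
        rw [mem_singleton]
        refine Prod.ext ?_ h
        rw [ht1.2, h, mul_zero]
      · right
        exact mem_filter.2 ⟨ht1.1, h, ht1.2⟩
    refine (card_le_card hsub).trans ((card_union_le _ _).trans ?_)
    simp
  refine (Finset.sum_le_sum h1).trans ?_
  rw [Finset.sum_add_distrib, Finset.sum_const, smul_eq_mul, mul_one]
  refine Nat.add_le_add_left ?_ _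
  simp only [Finset.card_filter]
  rw [Finset.sum_comm, ← card_product]
  calc ∑ t ∈ SS P Q (2 * ρ) ×ˢ II P Q (2 * σ), ∑ w ∈ X,
        (if t.2 ≠ 0 ∧ t.1 = w * t.2 then 1 else 0)
      ≤ ∑ _t ∈ SS P Q (2 * ρ) ×ˢ II P Q (2 * σ), 1 := by
        refine Finset.sum_le_sum fun t _ => ?_
        rw [← Finset.card_filter]
        refine Finset.card_le_one.2 fun a ha b hb => ?_
        have ha' := (mem_filter.1 ha).2
        have hb' := (mem_filter.1 hb).2
        have h3 : a * t.2 = b * t.2 := by rw [← ha'.2, ← hb'.2]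
        exact mul_right_cancel₀ ha'.1 h3
    _ = (SS P Q (2 * ρ) ×ˢ II P Q (2 * σ)).card := by simp

/-- pairs in translates of `P 2` and `Q 2` whose sum divided by `z` is exceptional -/
noncomputable def NN (x y z : ZMod p) (X : Finset (ZMod p)) : Finset (ZMod p × ZMod p) :=
  (((P.S 2).image fun t => x + t) ×ˢ ((Q.S 2).image fun t => y + t)).filter
    fun t => (t.1 + t.2) / z ∈ X

theorem NN_card (x y z : ZMod p) (hz : z ≠ 0) (X : Finset (ZMod p)) :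
    (NN P Q x y z X).card ≤
      (II P Q 4).card * (X.filter fun w => w * z - (x + y) ∈ SS P Q 2).card := by
  classical
  have e4 : (2 : ℝ) + 2 = 4 := by norm_num
  refine Finset.card_le_mul_card_image_of_maps_to (f := fun t => (t.1 + t.2) / z) ?_ _ ?_
  · intro t ht
    have ht1 := mem_filter.1 ht
    have ht2 := mem_product.1 ht1.1
    obtain ⟨a, ha, ha2⟩ := mem_image.1 ht2.1
    obtain ⟨b, hb, hb2⟩ := mem_image.1 ht2.2
    refine mem_filter.2 ⟨ht1.2, ?_⟩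
    rw [div_mul_cancel₀ _ hz, ← ha2, ← hb2, mem_SS]
    exact ⟨a, ha, b, hb, by ring⟩
  · intro w _
    rcases Finset.eq_empty_or_nonempty ((NN P Q x y z X).filter fun t => (t.1 + t.2) / z = w) with
      h0 | ⟨t₀, ht₀⟩
    · rw [h0]
      simp
    · have ht₀1 := mem_filter.1 ht₀
      have ht₀2 := mem_product.1 (mem_filter.1 ht₀1.1).1
      obtain ⟨a₀, ha₀, ha₀2⟩ := mem_image.1 ht₀2.1
      obtain ⟨b₀, hb₀, hb₀2⟩ := mem_image.1 ht₀2.2
      refine Finset.card_le_card_of_injOn (fun t => t.1 - t₀.1) ?_ ?_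
      · intro t ht
        have ht1 := mem_filter.1 (mem_coe.1 ht)
        have ht2 := mem_product.1 (mem_filter.1 ht1.1).1
        obtain ⟨a, ha, ha2⟩ := mem_image.1 ht2.1
        obtain ⟨b, hb, hb2⟩ := mem_image.1 ht2.2
        have hsum : t.1 + t.2 = t₀.1 + t₀.2 := by
          have h1 := ht1.2
          have h2 := ht₀1.2
          rw [div_eq_iff hz] at h1 h2
          rw [h1, h2]
        refine mem_coe.2 ((mem_II P Q _ _).2 ⟨?_, ?_⟩)
        · have := P.sub_mem _ _ _ _ ha ha₀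
          rw [e4] at this
          have e : t.1 - t₀.1 = a - a₀ := by rw [← ha2, ← ha₀2]; ring
          show t.1 - t₀.1 ∈ _
          rwa [e]
        · have := Q.sub_mem _ _ _ _ hb₀ hb
          rw [e4] at this
          have e : t.1 - t₀.1 = b₀ - b := by
            have e' : t.1 - t₀.1 = t₀.2 - t.2 := by linear_combination hsum
            rw [e', ← hb2, ← hb₀2]
            ring
          show t.1 - t₀.1 ∈ _
          rwa [e]
      · intro t ht u hu htu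
        have ht1 := mem_filter.1 (mem_coe.1 ht)
        have hu1 := mem_filter.1 (mem_coe.1 hu)
        have e1 : t.1 = u.1 := sub_left_injective (show t.1 - t₀.1 = u.1 - t₀.1 from htu)
        have h1 := ht1.2
        have h2 := hu1.2
        rw [div_eq_iff hz] at h1 h2
        refine Prod.ext e1 ?_
        rw [← h2, e1] at h1
        exact add_left_cancel h1

end general

end Pool.Agent.TH7.PG
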