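import Mathlib

/-! # Counting tuples in which every entry has a partner

`Sol` is the set of functions `i : ι → Fin L` with `i s = i (π s) + o s` modulo `p` for every index
`s`, where `π s ≠ s`.  One of the two sides `{π s before s}`, `{π s after s}` contains at least half
of the indices, and the entries on that side are determined by the remaining ones. -/

set_option autoImplicit false

namespace Pool.Agent.TH7.PG

open Finset

/-- the tuples satisfying the relations given by `π` and `o` -/
def Sol {ι : Type*} [Fintype ι] [DecidableEq ι] (p L : ℕ) (π : ι → ι) (o : ι → ZMod p) :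
    Finset (ι → Fin L) :=
  univ.filter fun i => ∀ s, (((i s : Fin L) : ℕ) : ZMod p) = ((i (π s) : Fin L) : ℕ) + o s

theorem sol_one_side {ι : Type*} [Fintype ι] [DecidableEq ι] (p L : ℕ) (hL : L ≤ p)
    (hL0 : 1 ≤ L) (π : ι → ι) (o : ι → ZMod p) (rk : ι → ℕ) (k : ℕ)
    (hk : (univ.filter fun s => ¬ rk (π s) < rk s).card ≤ k) :
    (Sol p L π o).card ≤ L ^ k := by
  classical
  set D : Finset ι := univ.filter fun s => ¬ rk (π s) < rk s with hD
  have h1 : (Sol p L π o).card ≤ (univ : Finset (D → Fin L)).card := by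
    refine Finset.card_le_card_of_injOn (fun i s => i s.1) (fun _ _ => mem_coe.2 (mem_univ _)) ?_
    intro i hi j hj hij
    have hi' := (mem_filter.1 (mem_coe.1 hi)).2
    have hj' := (mem_filter.1 (mem_coe.1 hj)).2
    have key : ∀ n : ℕ, ∀ s, rk s < n → i s = j s := by
      intro n
      induction n with
      | zero => intro s hs; omega
      | succ n ih =>
        intro s hs
        by_cases hsD : s ∈ D
        · exact congrFun hij ⟨s, hsD⟩
        · have h2 : rk (π s) < rk s := by
            by_contra hcon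
            exact hsD (mem_filter.2 ⟨mem_univ _, hcon⟩)
          have h3 := ih (π s) (by omega)
          have h4 := hi' s
          have h5 := hj' s
          rw [h3, ← h5] at h4
          rw [ZMod.natCast_eq_natCast_iff'] at h4
          rw [Nat.mod_eq_of_lt (lt_of_lt_of_le (i s).2 hL),
            Nat.mod_eq_of_lt (lt_of_lt_of_le (j s).2 hL)] at h4
          exact Fin.ext h4
    funext s
    exact key (rk s + 1) s (Nat.lt_succ_self _)
  refine h1.trans ?_
  rw [Finset.card_univ, Fintype.card_fun, Fintype.card_fin, Fintype.card_coe]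
  exact Nat.pow_le_pow_right hL0 hk

theorem sol_card {ι : Type*} [Fintype ι] [DecidableEq ι] (p L : ℕ) (hL : L ≤ p)
    (hL0 : 1 ≤ L) (π : ι → ι) (o : ι → ZMod p) (rk : ι → ℕ) (hrk : Function.Injective rk) (k : ℕ)
    (hk : Fintype.card ι ≤ 2 * k) (hπ : ∀ s, π s ≠ s) :
    (Sol p L π o).card ≤ L ^ k := by
  classical
  by_cases h : (univ.filter fun s => ¬ rk (π s) < rk s).card ≤ k
  · exact sol_one_side p L hL hL0 π o rk k h
  · set M : ℕ := ∑ s, rk s with hM
    have hle : ∀ s, rk s ≤ M := fun s => Finset.single_le_sum (fun _ _ => Nat.zero_le _) (mem_univ s)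
    refine sol_one_side p L hL hL0 π o (fun s => M - rk s) k ?_
    have h1 : (univ.filter fun s => ¬ (M - rk (π s) < M - rk s)) ⊆
        univ.filter fun s => rk (π s) < rk s := by
      intro s hs
      rw [mem_filter] at hs ⊢
      refine ⟨mem_univ _, ?_⟩
      have h2 := hs.2
      have h3 := hle s
      have h4 := hle (π s)
      have h5 : rk (π s) ≠ rk s := fun h5 => hπ s (hrk h5)
      omega
    refine (card_le_card h1).trans ?_
    have h2 := Finset.card_filter_add_card_filter_not (s := (univ : Finset ι))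
      (fun s => rk (π s) < rk s)
    rw [Finset.card_univ] at h2
    omega

/-- tuples in which each entry has a partner with offset `0` or `h` -/
theorem partner_card {ι : Type*} [Fintype ι] [DecidableEq ι] (p L : ℕ) (hL : L ≤ p)
    (hL0 : 1 ≤ L) (h : ZMod p) (rk : ι → ℕ) (hrk : Function.Injective rk) (k : ℕ)
    (hk : Fintype.card ι = 2 * k) (T : Finset (ι → Fin L))
    (hT : ∀ i ∈ T, ∀ s, ∃ t, t ≠ s ∧ ((((i s : Fin L) : ℕ) : ZMod p) = ((i t : Fin L) : ℕ) ∨
      (((i s : Fin L) : ℕ) : ZMod p) = ((i t : Fin L) : ℕ) + h)) :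
    T.card ≤ (4 * k) ^ (2 * k) * L ^ k := by
  classical
  set W : Finset ((ι → ι) × (ι → Bool)) := univ.filter fun w => ∀ s, w.1 s ≠ s with hW
  have hsub : T ⊆ W.biUnion fun w => Sol p L w.1 (fun s => if w.2 s then h else 0) := by
    intro i hi
    choose π hπ using hT i hi
    rw [mem_biUnion]
    refine ⟨(π, fun s => decide (¬ ((((i s : Fin L) : ℕ) : ZMod p) = ((i (π s) : Fin L) : ℕ)))),
      mem_filter.2 ⟨mem_univ _, fun s => (hπ s).1⟩, mem_filter.2 ⟨mem_univ _, fun s => ?_⟩⟩
    by_cases h1 : (((i s : Fin L) : ℕ) : ZMod p) = ((i (π s) : Fin L) : ℕ)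
    · simp [h1]
    · have h2 := (hπ s).2.resolve_left h1
      simp only [h1, not_false_eq_true, decide_true, if_true]
      exact h2
  refine (card_le_card hsub).trans (card_biUnion_le.trans ?_)
  have h1 : ∀ w ∈ W, (Sol p L w.1 (fun s => if w.2 s then h else 0)).card ≤ L ^ k := by
    intro w hw
    exact sol_card p L hL hL0 _ _ rk hrk k hk.le (mem_filter.1 hw).2
  refine (Finset.sum_le_card_nsmul _ _ _ h1).trans ?_
  rw [smul_eq_mul]
  refine Nat.mul_le_mul_right _ ?_
  refine (Finset.card_filter_le _ _).trans ?_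
  rw [Finset.card_univ, Fintype.card_prod, Fintype.card_fun, Fintype.card_fun, Fintype.card_bool,
    hk, ← mul_pow]
  refine Nat.pow_le_pow_left ?_ _
  omega

end Pool.Agent.TH7.PG
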