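import Mathlib

/-! # From bounded weights to square integrable weights -/

set_option autoImplicit false

namespace Pool.Agent.TH7.PG

open Finset

theorem l1_le_l2 {α : Type*} (A : Finset α) (f : α → ℂ) :
    ∑ a ∈ A, ‖f a‖ ≤ Real.sqrt A.card * Real.sqrt (∑ a ∈ A, ‖f a‖ ^ 2) := by
  rw [← Real.sqrt_mul (Nat.cast_nonneg _)]
  refine Real.le_sqrt_of_sq_le ?_
  have h := Finset.sum_mul_sq_le_sq_mul_sq A (fun _ => (1 : ℝ)) (fun a => ‖f a‖)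
  simp only [one_mul, one_pow, Finset.sum_const, nsmul_eq_mul, mul_one] at h
  exact h

theorem large_l1 {α : Type*} (A : Finset α) (f : α → ℂ) (T : ℝ) (hT : 0 < T)
    (hF : 0 < Real.sqrt (∑ a ∈ A, ‖f a‖ ^ 2)) :
    ∑ a ∈ A, ‖(if ‖f a‖ * Real.sqrt A.card ≤ T * Real.sqrt (∑ a ∈ A, ‖f a‖ ^ 2) then (0 : ℂ)
      else f a)‖ ≤ 1 / T * (Real.sqrt A.card * Real.sqrt (∑ a ∈ A, ‖f a‖ ^ 2)) := by
  set F : ℝ := Real.sqrt (∑ a ∈ A, ‖f a‖ ^ 2) with hFd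
  have hF2 : F ^ 2 = ∑ a ∈ A, ‖f a‖ ^ 2 := Real.sq_sqrt (Finset.sum_nonneg fun a _ => by positivity)
  have h1 : ∀ a ∈ A, ‖(if ‖f a‖ * Real.sqrt A.card ≤ T * F then (0 : ℂ) else f a)‖ ≤
      Real.sqrt A.card / (T * F) * ‖f a‖ ^ 2 := by
    intro a _
    split_ifs with h
    · rw [norm_zero]
      positivity
    · push Not at h
      rw [div_mul_eq_mul_div, le_div_iff₀ (by positivity)]
      nlinarith [norm_nonneg (f a)]
  refine (Finset.sum_le_sum h1).trans (le_of_eq ?_)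
  rw [← Finset.mul_sum, ← hF2]
  field_simp

theorem linf_to_l2 {α : Type*} (A B : Finset α) (K : α → α → ℂ) (hK : ∀ a b, ‖K a b‖ ≤ 1)
    (θ T : ℝ) (hT : 0 < T)
    (h : ∀ f g : α → ℂ, (∀ x, ‖f x‖ ≤ 1) → (∀ x, ‖g x‖ ≤ 1) →
      ‖∑ a ∈ A, ∑ b ∈ B, f a * g b * K a b‖ ≤ θ * (A.card * B.card)) (f g : α → ℂ) :
    ‖∑ a ∈ A, ∑ b ∈ B, f a * g b * K a b‖ ≤ (T ^ 2 * θ + 2 / T) *
      ((Real.sqrt A.card * Real.sqrt B.card) *
        (Real.sqrt (∑ a ∈ A, ‖f a‖ ^ 2) * Real.sqrt (∑ b ∈ B, ‖g b‖ ^ 2))) := by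
  classical
  set F : ℝ := Real.sqrt (∑ a ∈ A, ‖f a‖ ^ 2) with hF
  set G : ℝ := Real.sqrt (∑ b ∈ B, ‖g b‖ ^ 2) with hG
  have hF0 : 0 ≤ F := Real.sqrt_nonneg _
  have hG0 : 0 ≤ G := Real.sqrt_nonneg _
  have htriv : ∀ u v : α → ℂ, ‖∑ a ∈ A, ∑ b ∈ B, u a * v b * K a b‖ ≤
      (∑ a ∈ A, ‖u a‖) * ∑ b ∈ B, ‖v b‖ := by
    intro u v
    refine (norm_sum_le _ _).trans ?_
    rw [Finset.sum_mul]
    refine Finset.sum_le_sum fun a _ => (norm_sum_le _ _).trans ?_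
    rw [Finset.mul_sum]
    refine Finset.sum_le_sum fun b _ => ?_
    rw [norm_mul, norm_mul]
    exact mul_le_of_le_one_right (by positivity) (hK a b)
  rcases hF0.eq_or_lt with hF1 | hF1
  · have h1 := htriv f g
    have h2 := l1_le_l2 A f
    rw [← hF, ← hF1, mul_zero] at h2
    have h3 : ∑ a ∈ A, ‖f a‖ = 0 := le_antisymm h2 (Finset.sum_nonneg fun _ _ => norm_nonneg _)
    rw [h3, zero_mul] at h1
    rw [← hF1]
    simpa using h1
  rcases hG0.eq_or_lt with hG1 | hG1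
  · have h1 := htriv f g
    have h2 := l1_le_l2 B g
    rw [← hG, ← hG1, mul_zero] at h2
    have h3 : ∑ a ∈ B, ‖g a‖ = 0 := le_antisymm h2 (Finset.sum_nonneg fun _ _ => norm_nonneg _)
    rw [h3, mul_zero] at h1
    rw [← hG1]
    simpa using h1
  have hA0 : A.Nonempty := by
    rw [Finset.nonempty_iff_ne_empty]
    rintro rfl
    simp [hF] at hF1
  have hB0 : B.Nonempty := by
    rw [Finset.nonempty_iff_ne_empty]
    rintro rfl
    simp [hG] at hG1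
  set sA : ℝ := Real.sqrt A.card with hsA
  set sB : ℝ := Real.sqrt B.card with hsB
  have hsA0 : 0 < sA := Real.sqrt_pos.2 (by exact_mod_cast hA0.card_pos)
  have hsB0 : 0 < sB := Real.sqrt_pos.2 (by exact_mod_cast hB0.card_pos)
  have hsA2 : sA * sA = A.card := Real.mul_self_sqrt (Nat.cast_nonneg _)
  have hsB2 : sB * sB = B.card := Real.mul_self_sqrt (Nat.cast_nonneg _)
  -- decomposition
  set f₂ : α → ℂ := fun a => if ‖f a‖ * sA ≤ T * F then (0 : ℂ) else f a with hf₂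
  set g₂ : α → ℂ := fun b => if ‖g b‖ * sB ≤ T * G then (0 : ℂ) else g b with hg₂
  set f₁ : α → ℂ := fun a => if ‖f a‖ * sA ≤ T * F then f a else (0 : ℂ) with hf₁
  set g₁ : α → ℂ := fun b => if ‖g b‖ * sB ≤ T * G then g b else (0 : ℂ) with hg₁
  have hfd : ∀ a, f a = f₁ a + f₂ a := by
    intro a
    simp only [hf₁, hf₂]
    split_ifs <;> simp
  have hgd : ∀ b, g b = g₁ b + g₂ b := by
    intro b
    simp only [hg₁, hg₂]
    split_ifs <;> simp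
  have hf₂1 : ∑ a ∈ A, ‖f₂ a‖ ≤ 1 / T * (sA * F) := large_l1 A f T hT hF1
  have hg₂1 : ∑ b ∈ B, ‖g₂ b‖ ≤ 1 / T * (sB * G) := large_l1 B g T hT hG1
  have hf1 : ∑ a ∈ A, ‖f a‖ ≤ sA * F := l1_le_l2 A f
  have hg1 : ∑ b ∈ B, ‖g b‖ ≤ sB * G := l1_le_l2 B g
  have hf₁1 : ∑ a ∈ A, ‖f₁ a‖ ≤ sA * F := by
    refine (Finset.sum_le_sum fun a _ => ?_).trans hf1
    simp only [hf₁]
    split_ifs
    · exact le_rfl
    · rw [norm_zero]
      exact norm_nonneg _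
  have hdec : ∑ a ∈ A, ∑ b ∈ B, f a * g b * K a b =
      ∑ a ∈ A, ∑ b ∈ B, f₁ a * g₁ b * K a b + ∑ a ∈ A, ∑ b ∈ B, f₁ a * g₂ b * K a b +
      ∑ a ∈ A, ∑ b ∈ B, f₂ a * g b * K a b := by
    rw [← Finset.sum_add_distrib, ← Finset.sum_add_distrib]
    refine Finset.sum_congr rfl fun a _ => ?_
    rw [← Finset.sum_add_distrib, ← Finset.sum_add_distrib]
    refine Finset.sum_congr rfl fun b _ => ?_
    rw [hfd a, hgd b]
    ring
  -- the main term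
  obtain ⟨lam, hlam⟩ : ∃ l : ℝ, l = T * F / sA := ⟨_, rfl⟩
  obtain ⟨mu, hmu⟩ : ∃ l : ℝ, l = T * G / sB := ⟨_, rfl⟩
  have hlam0 : 0 < lam := by
    rw [hlam]
    exact div_pos (mul_pos hT hF1) hsA0
  have hmu0 : 0 < mu := by
    rw [hmu]
    exact div_pos (mul_pos hT hG1) hsB0
  have hlm0 : 0 < lam * mu := mul_pos hlam0 hmu0
  have hsF0 : 0 ≤ sA * F := mul_nonneg hsA0.le hF0
  have hsG0 : 0 ≤ sB * G := mul_nonneg hsB0.le hG0
  have hTF0 : 0 ≤ 1 / T * (sA * F) := mul_nonneg (by positivity) hsF0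
  have h11 : ‖∑ a ∈ A, ∑ b ∈ B, f₁ a * g₁ b * K a b‖ ≤ T ^ 2 * θ * ((sA * sB) * (F * G)) := by
    have h1 := h (fun a => f₁ a / lam) (fun b => g₁ b / mu) (by
      intro x
      simp only [hf₁]
      split_ifs with h2
      · rw [norm_div, Complex.norm_real, Real.norm_eq_abs, abs_of_pos hlam0, div_le_one hlam0,
          hlam, le_div_iff₀ hsA0]
        exact h2
      · simp) (by
      intro x
      simp only [hg₁]
      split_ifs with h2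
      · rw [norm_div, Complex.norm_real, Real.norm_eq_abs, abs_of_pos hmu0, div_le_one hmu0,
          hmu, le_div_iff₀ hsB0]
        exact h2
      · simp)
    have h2 : ∑ a ∈ A, ∑ b ∈ B, f₁ a * g₁ b * K a b =
        ((lam * mu : ℝ) : ℂ) * ∑ a ∈ A, ∑ b ∈ B, f₁ a / lam * (g₁ b / mu) * K a b := by
      simp only [Finset.mul_sum]
      refine Finset.sum_congr rfl fun a _ => Finset.sum_congr rfl fun b _ => ?_
      have h3 : (lam : ℂ) ≠ 0 := by exact_mod_cast hlam0.ne'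
      have h4 : (mu : ℂ) ≠ 0 := by exact_mod_cast hmu0.ne'
      push_cast
      field_simp
    rw [h2, norm_mul, Complex.norm_real, Real.norm_eq_abs, abs_of_pos hlm0]
    refine (mul_le_mul_of_nonneg_left h1 hlm0.le).trans (le_of_eq ?_)
    rw [← hsA2, ← hsB2, hlam, hmu]
    field_simp
  have h12 : ‖∑ a ∈ A, ∑ b ∈ B, f₁ a * g₂ b * K a b‖ ≤ 1 / T * ((sA * sB) * (F * G)) := by
    refine (htriv f₁ g₂).trans ?_
    calc (∑ a ∈ A, ‖f₁ a‖) * ∑ b ∈ B, ‖g₂ b‖ ≤ (sA * F) * (1 / T * (sB * G)) :=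
          mul_le_mul hf₁1 hg₂1 (Finset.sum_nonneg fun _ _ => norm_nonneg _) hsF0
      _ = 1 / T * ((sA * sB) * (F * G)) := by ring
  have h21 : ‖∑ a ∈ A, ∑ b ∈ B, f₂ a * g b * K a b‖ ≤ 1 / T * ((sA * sB) * (F * G)) := by
    refine (htriv f₂ g).trans ?_
    calc (∑ a ∈ A, ‖f₂ a‖) * ∑ b ∈ B, ‖g b‖ ≤ (1 / T * (sA * F)) * (sB * G) :=
          mul_le_mul hf₂1 hg1 (Finset.sum_nonneg fun _ _ => norm_nonneg _) hTF0
      _ = 1 / T * ((sA * sB) * (F * G)) := by ring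
  rw [hdec]
  refine (norm_add_le _ _).trans ((add_le_add ((norm_add_le _ _).trans (add_le_add h11 h12))
    h21).trans (le_of_eq ?_))
  ring

/-- the same with powers of `p` -/
theorem linf_to_l2_pow {α : Type*} (A B : Finset α) (K : α → α → ℂ) (hK : ∀ a b, ‖K a b‖ ≤ 1)
    (x τ : ℝ) (hx : 1 ≤ x) (hx3 : 3 ≤ x ^ (τ / 12))
    (h : ∀ f g : α → ℂ, (∀ x, ‖f x‖ ≤ 1) → (∀ x, ‖g x‖ ≤ 1) →
      ‖∑ a ∈ A, ∑ b ∈ B, f a * g b * K a b‖ ≤ x ^ (-τ) * (A.card * B.card)) (f g : α → ℂ) :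
    ‖∑ a ∈ A, ∑ b ∈ B, f a * g b * K a b‖ ≤ x ^ (-(τ / 4)) *
      ((Real.sqrt A.card * Real.sqrt B.card) *
        (Real.sqrt (∑ a ∈ A, ‖f a‖ ^ 2) * Real.sqrt (∑ b ∈ B, ‖g b‖ ^ 2))) := by
  have hx0 : 0 < x := by linarith
  have h1 := linf_to_l2 A B K hK (x ^ (-τ)) (x ^ (τ / 3)) (by positivity) h f g
  refine h1.trans (mul_le_mul_of_nonneg_right ?_ (by positivity))
  have e1 : (x ^ (τ / 3)) ^ 2 * x ^ (-τ) = x ^ (-(τ / 3)) := by
    rw [← Real.rpow_natCast, ← Real.rpow_mul hx0.le, ← Real.rpow_add hx0]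
    congr 1
    push_cast
    ring
  have e2 : 2 / x ^ (τ / 3) = 2 * x ^ (-(τ / 3)) := by
    rw [Real.rpow_neg hx0.le, div_eq_mul_inv]
  rw [e1, e2]
  have e3 : x ^ (-(τ / 4)) = x ^ (τ / 12) * x ^ (-(τ / 3)) := by
    rw [← Real.rpow_add hx0]
    congr 1
    ring
  rw [e3]
  have h2 : 0 < x ^ (-(τ / 3)) := by positivity
  nlinarith

end Pool.Agent.TH7.PG
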