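import Pool.Agent.TH7.PG.Core
import Pool.Agent.TH7.PG.L2
import Pool.Agent.W27.BG.Final

/-! # Pairs of sets that are nearly invariant under sets of bounded doubling -/

set_option autoImplicit false
set_option linter.unusedSectionVars false

namespace Pool.Agent.TH7.PG

open Finset
open scoped Pointwise

/-- the sets `A` nearly invariant under a set of bounded doubling are covered economically by
translates of the unit member of a system -/
theorem gap_cover {K : ℝ} (hK1 : 1 ≤ K) : ∃ (C : ℝ) (D : ℕ), 1 ≤ C ∧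
    ∀ (p : ℕ) [Fact p.Prime], 3 ≤ p → ∀ A₁ : Finset (ZMod p), A₁.Nonempty →
      ((A₁ + A₁).card : ℝ) ≤ K * A₁.card →
      ∃ P : Sys p D, (A₁.card : ℝ) ≤ C * (P.S 1).card ∧
        ∀ (A : Finset (ZMod p)) (t : ℝ), ((A + A₁).card : ℝ) ≤ t * A.card →
          ∃ F : Finset (ZMod p), (F.card : ℝ) * (P.S 1).card ≤ C * (t * A.card) ∧
            ∀ a ∈ A, ∃ x ∈ F, a - x ∈ P.S 1 := by
  classical
  obtain ⟨C, D, hC, hD, hgap⟩ := Pool.Agent.W27.BG.gap_all hK1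
  refine ⟨C ^ 3 * 5 ^ D, D, ?_, ?_⟩
  · have h1 : (1 : ℝ) ≤ C ^ 3 := one_le_pow₀ hC
    have h2 : (1 : ℝ) ≤ 5 ^ D := one_le_pow₀ (by norm_num)
    nlinarith
  intro p _ hp3 A₁ hA₁ hdoub
  obtain ⟨k, v, R, T, hk, _, hvol, hT, hcov⟩ := hgap p hp3 A₁ hA₁ hdoub
  set P : Sys p D := boxSys D hk v R with hP
  have hC0 : (0 : ℝ) < C := by linarith
  have hPcard : ((P.S 1).card : ℝ) ≤ C * A₁.card := by
    have h1 : ((P.S 1).card : ℝ) ≤ ((∏ i, (2 * R i + 1) : ℕ) : ℝ) := by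
      exact_mod_cast box_card v R
    refine h1.trans ?_
    push_cast
    exact hvol
  have hmemP : ∀ c : Fin k → ℤ, (∀ i, |c i| ≤ R i) → Pool.Agent.W27.BG.lin v c ∈ P.S 1 := by
    intro c hc
    show Pool.Agent.W27.BG.lin v c ∈ boxS v R 1
    rw [mem_boxS]
    refine ⟨c, fun i => ?_, rfl⟩
    rw [one_mul]
    exact_mod_cast hc i
  have hcov' : ∀ a ∈ A₁, ∃ t ∈ T, a - t ∈ P.S 1 := by
    intro a ha
    obtain ⟨t, ht, c, hc, hac⟩ := hcov a ha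
    refine ⟨t, ht, ?_⟩
    rw [hac, add_sub_cancel_left]
    exact hmemP c hc
  have hA₁pos : (0 : ℝ) < A₁.card := by exact_mod_cast hA₁.card_pos
  refine ⟨P, ?_, ?_⟩
  · have h1 := cover_card A₁ (P.S 1) T hcov'
    have h2 : (A₁.card : ℝ) ≤ T.card * (P.S 1).card := by exact_mod_cast h1
    refine h2.trans (mul_le_mul_of_nonneg_right ?_ (Nat.cast_nonneg _))
    refine hT.trans ?_
    have h3 : (1 : ℝ) ≤ C ^ 2 := one_le_pow₀ hC
    have h4 : (1 : ℝ) ≤ 5 ^ D := one_le_pow₀ (by norm_num)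
    calc C = C * 1 * 1 := by ring
      _ ≤ C * C ^ 2 * 5 ^ D := by
          refine mul_le_mul (mul_le_mul_of_nonneg_left h3 hC0.le) h4 zero_le_one (by positivity)
      _ = C ^ 3 * 5 ^ D := by ring
  · intro A t hAt
    have hruz : ((A + A₁).card : ℝ) ≤ (t * A.card / A₁.card) * A₁.card := by
      rw [div_mul_cancel₀ _ hA₁pos.ne']
      exact hAt
    obtain ⟨F, hFA, hFcard, hFcov⟩ := Finset.ruzsa_covering_add hA₁ hruz
    obtain ⟨F₂, hF₂, hF₂c⟩ := P.cover 2 1 zero_le_one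
    refine ⟨((F ×ˢ T) ×ˢ (T ×ˢ F₂)).image fun u => u.1.1 + u.1.2 - u.2.1 + u.2.2, ?_, ?_⟩
    · have h1 : (((F ×ˢ T) ×ˢ (T ×ˢ F₂)).image
          fun u => u.1.1 + u.1.2 - u.2.1 + u.2.2).card ≤
          (F.card * T.card) * (T.card * (2 * 2 + 1) ^ D) := by
        refine card_image_le.trans ?_
        rw [card_product, card_product, card_product]
        exact Nat.mul_le_mul_left _ (Nat.mul_le_mul_left _ hF₂)
      have h2 : ((((F ×ˢ T) ×ˢ (T ×ˢ F₂)).image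
          fun u => u.1.1 + u.1.2 - u.2.1 + u.2.2).card : ℝ) ≤
          ((F.card : ℝ) * T.card) * (T.card * 5 ^ D) := by exact_mod_cast h1
      have h3 : ((F.card : ℝ) * T.card) * (T.card * 5 ^ D) ≤
          ((t * A.card / A₁.card) * C) * (C * 5 ^ D) := by
        have hF0 : (0 : ℝ) ≤ F.card := Nat.cast_nonneg _
        have hT0 : (0 : ℝ) ≤ T.card := Nat.cast_nonneg _
        have hX0 : 0 ≤ t * A.card / A₁.card := hF0.trans hFcard
        refine mul_le_mul (mul_le_mul hFcard hT hT0 hX0)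
          (mul_le_mul_of_nonneg_right hT (by positivity)) (by positivity)
          (mul_nonneg hX0 hC0.le)
      have hX0 : 0 ≤ t * A.card / A₁.card := (Nat.cast_nonneg _).trans hFcard
      calc _ ≤ (((t * A.card / A₁.card) * C) * (C * 5 ^ D)) * (C * A₁.card) :=
            mul_le_mul (h2.trans h3) hPcard (Nat.cast_nonneg _)
              (mul_nonneg (mul_nonneg hX0 hC0.le) (by positivity))
        _ = C ^ 3 * 5 ^ D * (t * A.card) := by
            field_simp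
    · intro a ha
      obtain ⟨f, hf, d, hd, rfl⟩ := Finset.mem_add.1 (hFcov ha)
      obtain ⟨a₁, ha₁, a₂, ha₂, rfl⟩ := Finset.mem_sub.1 hd
      obtain ⟨t₁, ht₁, hu₁⟩ := hcov' a₁ ha₁
      obtain ⟨t₂, ht₂, hu₂⟩ := hcov' a₂ ha₂
      have h1 := P.sub_mem _ _ _ _ hu₁ hu₂
      have e1 : (1 : ℝ) + 1 = ((2 : ℕ) : ℝ) * 1 := by norm_num
      rw [e1] at h1
      obtain ⟨s, hs, hs2⟩ := hF₂c _ h1
      refine ⟨f + t₁ - t₂ + s, mem_image.2 ⟨((f, t₁), (t₂, s)), ?_, rfl⟩, ?_⟩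
      · simp only [mem_product]
        exact ⟨⟨hf, ht₁⟩, ht₂, hs⟩
      · have e2 : f + (a₁ - a₂) - (f + t₁ - t₂ + s) = a₁ - t₁ - (a₂ - t₂) - s := by ring
        rw [e2]
        exact hs2

/-- summation over the pieces -/
theorem sum_pieces {p : ℕ} (A B FA FB : Finset (ZMod p)) (S S' : Finset (ZMod p))
    (hA : ∀ a ∈ A, ∃ x ∈ FA, a - x ∈ S) (hB : ∀ b ∈ B, ∃ y ∈ FB, b - y ∈ S')
    (k : ZMod p → ZMod p → ℂ) (M : ℝ)
    (h : ∀ x y : ZMod p, ∀ A' B' : Finset (ZMod p), (∀ a ∈ A', a - x ∈ S) →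
      (∀ b ∈ B', b - y ∈ S') → ‖∑ a ∈ A', ∑ b ∈ B', k a b‖ ≤ M) :
    ‖∑ a ∈ A, ∑ b ∈ B, k a b‖ ≤ FA.card * FB.card * M := by
  classical
  have hch : ∀ a : ZMod p, ∃ x : ZMod p, a ∈ A → (x ∈ FA ∧ a - x ∈ S) := by
    intro a
    by_cases ha : a ∈ A
    · obtain ⟨x, hx, h1⟩ := hA a ha
      exact ⟨x, fun _ => ⟨hx, h1⟩⟩
    · exact ⟨0, fun h1 => absurd h1 ha⟩
  have hch' : ∀ b : ZMod p, ∃ y : ZMod p, b ∈ B → (y ∈ FB ∧ b - y ∈ S') := by
    intro b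
    by_cases hb : b ∈ B
    · obtain ⟨x, hx, h1⟩ := hB b hb
      exact ⟨x, fun _ => ⟨hx, h1⟩⟩
    · exact ⟨0, fun h1 => absurd h1 hb⟩
  choose φ hφ using hch
  choose ψ hψ using hch'
  have e1 : ∑ a ∈ A, ∑ b ∈ B, k a b = ∑ x ∈ FA, ∑ y ∈ FB,
      ∑ a ∈ A.filter (fun a => φ a = x), ∑ b ∈ B.filter (fun b => ψ b = y), k a b := by
    rw [← Finset.sum_fiberwise_of_maps_to (fun a ha => (hφ a ha).1)]
    refine Finset.sum_congr rfl fun x _ => ?_
    rw [Finset.sum_comm (s := FB)]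
    refine Finset.sum_congr rfl fun a _ => ?_
    exact (Finset.sum_fiberwise_of_maps_to (fun b hb => (hψ b hb).1) _).symm
  rw [e1]
  refine (norm_sum_le _ _).trans ?_
  refine (Finset.sum_le_card_nsmul _ _ (FB.card * M) fun x hx => ?_).trans ?_
  · refine (norm_sum_le _ _).trans ?_
    refine (Finset.sum_le_card_nsmul _ _ M fun y hy => ?_).trans ?_
    · refine h x y _ _ (fun a ha => ?_) (fun b hb => ?_)
      · have h1 := mem_filter.1 ha
        rw [← h1.2]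
        exact (hφ a h1.1).2
      · have h1 := mem_filter.1 hb
        rw [← h1.2]
        exact (hψ b h1.1).2
    · rw [nsmul_eq_mul]
  · rw [nsmul_eq_mul, mul_assoc]

theorem bounded_doubling (ε K : ℝ) (hε : 0 < ε) : ∃ τ : ℝ, 0 < τ ∧ ∃ p₀ : ℕ,
    ∀ (p : ℕ) [Fact p.Prime], p₀ ≤ p → ∀ χ : DirichletCharacter ℂ p, χ ≠ 1 →
    ∀ A₁ B₁ A B : Finset (ZMod p),
      (p : ℝ) ^ ε < A₁.card → (p : ℝ) ^ ε < B₁.card →
      (p : ℝ) ^ (1 / 2 + ε) < (A₁.card : ℝ) * B₁.card →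
      ((A₁ + A₁).card : ℝ) ≤ K * A₁.card → ((B₁ + B₁).card : ℝ) ≤ K * B₁.card →
      ((A + A₁).card : ℝ) ≤ (p : ℝ) ^ τ * A.card → ((B + B₁).card : ℝ) ≤ (p : ℝ) ^ τ * B.card →
      ∀ f g : ZMod p → ℂ, ‖∑ a ∈ A, ∑ b ∈ B, f a * g b * χ (a + b)‖ ≤ (p : ℝ) ^ (-τ) *
        ((Real.sqrt A.card * Real.sqrt B.card) *
          (Real.sqrt (∑ a ∈ A, ‖f a‖ ^ 2) * Real.sqrt (∑ b ∈ B, ‖g b‖ ^ 2))) := by
  classical
  set ε' : ℝ := min ε 1 with hε'
  have hε'0 : 0 < ε' := lt_min hε one_pos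
  have hε'1 : ε' ≤ 1 := min_le_right _ _
  have hε'ε : ε' ≤ ε := min_le_left _ _
  set K' : ℝ := max K 1 with hK'
  have hK'1 : 1 ≤ K' := le_max_right _ _
  obtain ⟨C, D, hC, hgap⟩ := gap_cover hK'1
  obtain ⟨η, hη, p₁, hcore⟩ := core ε' hε'0 hε'1 D
  obtain ⟨p₂, hp₂⟩ := large (C ^ 2) (ε' / 2) (by positivity)
  obtain ⟨p₃, hp₃⟩ := large (C ^ 2) (η / 4) (by positivity)
  obtain ⟨p₄, hp₄⟩ := large 3 (η / 2 / 12) (by positivity)
  refine ⟨η / 8, by positivity, max (max p₁ 3) (max p₂ (max p₃ p₄)), ?_⟩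
  intro p hpf hp χ hχ A₁ B₁ A B hA₁ hB₁ hAB₁ hA₁d hB₁d hA hB
  have hp1 : p₁ ≤ p := ((le_max_left _ _).trans (le_max_left _ _)).trans hp
  have hp3 : 3 ≤ p := ((le_max_right _ _).trans (le_max_left _ _)).trans hp
  have hp2' := hp₂ p (((le_max_left _ _).trans (le_max_right _ _)).trans hp)
  have hp3' := hp₃ p (((le_max_left _ _).trans
    ((le_max_right _ _).trans (le_max_right _ _))).trans hp)
  have hp4' := hp₄ p (((le_max_right _ _).trans
    ((le_max_right _ _).trans (le_max_right _ _))).trans hp)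
  have hpR : (1 : ℝ) ≤ p := by exact_mod_cast (Fact.out : p.Prime).one_lt.le
  have hp0 : (0 : ℝ) < p := by linarith
  have hC0 : (0 : ℝ) < C := by linarith
  have hA₁ne : A₁.Nonempty := by
    rw [← Finset.card_pos]
    have : (0 : ℝ) < A₁.card := lt_trans (by positivity) hA₁
    exact_mod_cast this
  have hB₁ne : B₁.Nonempty := by
    rw [← Finset.card_pos]
    have : (0 : ℝ) < B₁.card := lt_trans (by positivity) hB₁
    exact_mod_cast this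
  obtain ⟨P, hPc, hPcov⟩ := hgap p hp3 A₁ hA₁ne (hA₁d.trans
    (mul_le_mul_of_nonneg_right (le_max_left _ _) (Nat.cast_nonneg _)))
  obtain ⟨Q, hQc, hQcov⟩ := hgap p hp3 B₁ hB₁ne (hB₁d.trans
    (mul_le_mul_of_nonneg_right (le_max_left _ _) (Nat.cast_nonneg _)))
  obtain ⟨FA, hFA, hFAc⟩ := hPcov A _ hA
  obtain ⟨FB, hFB, hFBc⟩ := hQcov B _ hB
  have hCle : C ≤ C ^ 2 := by nlinarith
  -- sizes of the systems
  have hhalf : (p : ℝ) ^ ε' = (p : ℝ) ^ (ε' / 2) * (p : ℝ) ^ (ε' / 2) := by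
    rw [← Real.rpow_add hp0]
    congr 1
    ring
  have hpos2 : 0 < (p : ℝ) ^ (ε' / 2) := by positivity
  have hsz : ∀ n m : ℝ, (p : ℝ) ^ ε < n → n ≤ C * m → (p : ℝ) ^ (ε' / 2) ≤ m := by
    intro n m h1 h2
    have h3 : (p : ℝ) ^ ε' ≤ (p : ℝ) ^ ε := Real.rpow_le_rpow_of_exponent_le hpR hε'ε
    have h4 : C * (p : ℝ) ^ (ε' / 2) ≤ C * m := by
      calc C * (p : ℝ) ^ (ε' / 2) ≤ (p : ℝ) ^ (ε' / 2) * (p : ℝ) ^ (ε' / 2) :=
            mul_le_mul_of_nonneg_right (hCle.trans hp2') hpos2.le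
        _ = (p : ℝ) ^ ε' := hhalf.symm
        _ ≤ C * m := by linarith
    exact le_of_mul_le_mul_left h4 hC0
  have hPbig := hsz _ _ hA₁ hPc
  have hQbig := hsz _ _ hB₁ hQc
  have hPQ : (p : ℝ) ^ (1 / 2 + ε' / 2) ≤ ((P.S 1).card : ℝ) * (Q.S 1).card := by
    have h1 : (p : ℝ) ^ (1 / 2 + ε') ≤ (p : ℝ) ^ (1 / 2 + ε) :=
      Real.rpow_le_rpow_of_exponent_le hpR (by linarith)
    have h2 : (A₁.card : ℝ) * B₁.card ≤ (C * (P.S 1).card) * (C * (Q.S 1).card) :=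
      mul_le_mul hPc hQc (Nat.cast_nonneg _) (by positivity)
    have h3 : (p : ℝ) ^ (1 / 2 + ε') = (p : ℝ) ^ (ε' / 2) * (p : ℝ) ^ (1 / 2 + ε' / 2) := by
      rw [← Real.rpow_add hp0]
      congr 1
      ring
    have h4 : C ^ 2 * (p : ℝ) ^ (1 / 2 + ε' / 2) ≤
        C ^ 2 * (((P.S 1).card : ℝ) * (Q.S 1).card) := by
      calc C ^ 2 * (p : ℝ) ^ (1 / 2 + ε' / 2) ≤
            (p : ℝ) ^ (ε' / 2) * (p : ℝ) ^ (1 / 2 + ε' / 2) :=
            mul_le_mul_of_nonneg_right hp2' (by positivity)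
        _ = (p : ℝ) ^ (1 / 2 + ε') := h3.symm
        _ ≤ (C * (P.S 1).card) * (C * (Q.S 1).card) := by linarith
        _ = C ^ 2 * (((P.S 1).card : ℝ) * (Q.S 1).card) := by ring
    exact le_of_mul_le_mul_left h4 (by positivity)
  -- bounded weights
  have hbdd : ∀ f g : ZMod p → ℂ, (∀ x, ‖f x‖ ≤ 1) → (∀ x, ‖g x‖ ≤ 1) →
      ‖∑ a ∈ A, ∑ b ∈ B, f a * g b * χ (a + b)‖ ≤ (p : ℝ) ^ (-(η / 2)) * (A.card * B.card) := by
    intro f g hf hg
    have h1 := sum_pieces A B FA FB (P.S 1) (Q.S 1) hFAc hFBc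
      (fun a b => f a * g b * χ (a + b))
      ((p : ℝ) ^ (-η) * (((P.S 1).card : ℝ) * (Q.S 1).card))
      (fun x y A' B' hA' hB' => hcore p hp1 χ hχ P Q x y A' B' hA' hB' hPbig hQbig hPQ f g hf hg)
    refine h1.trans ?_
    have h2 : ((FA.card : ℝ) * (P.S 1).card) * ((FB.card : ℝ) * (Q.S 1).card) ≤
        (C * ((p : ℝ) ^ (η / 8) * A.card)) * (C * ((p : ℝ) ^ (η / 8) * B.card)) :=
      mul_le_mul hFA hFB (by positivity) (by positivity)
    calc (FA.card : ℝ) * FB.card * ((p : ℝ) ^ (-η) * (((P.S 1).card : ℝ) * (Q.S 1).card))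
        = (p : ℝ) ^ (-η) * (((FA.card : ℝ) * (P.S 1).card) * ((FB.card : ℝ) * (Q.S 1).card)) := by
          ring
      _ ≤ (p : ℝ) ^ (-η) * ((C * ((p : ℝ) ^ (η / 8) * A.card)) *
          (C * ((p : ℝ) ^ (η / 8) * B.card))) := mul_le_mul_of_nonneg_left h2 (by positivity)
      _ = C ^ 2 * ((p : ℝ) ^ (-η) * ((p : ℝ) ^ (η / 8) * (p : ℝ) ^ (η / 8))) *
          (A.card * B.card) := by ring
      _ ≤ (p : ℝ) ^ (η / 4) * ((p : ℝ) ^ (-η) * ((p : ℝ) ^ (η / 8) * (p : ℝ) ^ (η / 8))) *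
          (A.card * B.card) := by
          refine mul_le_mul_of_nonneg_right (mul_le_mul_of_nonneg_right hp3' (by positivity))
            (by positivity)
      _ = (p : ℝ) ^ (-(η / 2)) * (A.card * B.card) := by
          rw [← Real.rpow_add hp0, ← Real.rpow_add hp0, ← Real.rpow_add hp0]
          congr 2
          ring
  intro f g
  have h1 := linf_to_l2_pow A B (fun a b => χ (a + b)) (fun a b => χ.norm_le_one _) p (η / 2) hpR
    hp4' hbdd f g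
  have e1 : η / 2 / 4 = η / 8 := by ring
  rw [e1] at h1
  exact h1

end Pool.Agent.TH7.PG
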