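import Mathlib

/-! # Finite Fourier analysis on `ZMod p` -/

set_option autoImplicit false

namespace Pool.Agent.TH7.PG

open Finset

/-- the Fourier transform -/
noncomputable def ft {p : ℕ} [NeZero p] (f : ZMod p → ℂ) (ξ : ZMod p) : ℂ :=
  ∑ x, f x * ZMod.stdAddChar (x * ξ)

theorem norm_E {p : ℕ} [NeZero p] (x : ZMod p) : ‖(ZMod.stdAddChar x : ℂ)‖ = 1 :=
  AddChar.norm_apply _ _

theorem ft_norm_le {p : ℕ} [NeZero p] (f : ZMod p → ℂ) (ξ : ZMod p) :
    ‖ft f ξ‖ ≤ ∑ x, ‖f x‖ := by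
  unfold ft
  refine (norm_sum_le _ _).trans (Finset.sum_le_sum fun x _ => ?_)
  rw [norm_mul, norm_E, mul_one]

theorem sum_E {p : ℕ} [Fact p.Prime] (b : ZMod p) :
    ∑ x : ZMod p, (ZMod.stdAddChar (x * b) : ℂ) = if b = 0 then (p : ℂ) else 0 := by
  have h := AddChar.sum_mulShift b (ZMod.isPrimitive_stdAddChar p)
  rw [h, ZMod.card]
  simp

theorem conj_E {p : ℕ} [NeZero p] (x : ZMod p) :
    (starRingEnd ℂ) (ZMod.stdAddChar x : ℂ) = ZMod.stdAddChar (-x) := by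
  rw [AddChar.map_neg_eq_conj]

/-- Parseval -/
theorem parseval {p : ℕ} [Fact p.Prime] (f : ZMod p → ℂ) :
    ∑ ξ, ‖ft f ξ‖ ^ 2 = p * ∑ x, ‖f x‖ ^ 2 := by
  have h : ((∑ ξ, ‖ft f ξ‖ ^ 2 : ℝ) : ℂ) = ((p * ∑ x, ‖f x‖ ^ 2 : ℝ) : ℂ) := by
    push_cast
    have h1 : ∀ ξ : ZMod p, ((‖ft f ξ‖ : ℂ)) ^ 2 =
        ∑ x, ∑ y, f x * (starRingEnd ℂ) (f y) * ZMod.stdAddChar (ξ * (x - y)) := by
      intro ξ
      rw [← Complex.mul_conj']
      unfold ft
      rw [map_sum, Finset.sum_mul_sum]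
      refine Finset.sum_congr rfl fun x _ => Finset.sum_congr rfl fun y _ => ?_
      rw [map_mul (starRingEnd ℂ) (f y), conj_E]
      have e : ξ * (x - y) = x * ξ + -(y * ξ) := by ring
      rw [e, AddChar.map_add_eq_mul]
      ring
    rw [Finset.sum_congr rfl fun ξ _ => h1 ξ, Finset.sum_comm, Finset.mul_sum]
    refine Finset.sum_congr rfl fun x _ => ?_
    rw [Finset.sum_comm]
    have h2 : ∀ y : ZMod p, ∑ ξ : ZMod p, f x * (starRingEnd ℂ) (f y) *
        (ZMod.stdAddChar (ξ * (x - y)) : ℂ) = if y = x then p * (‖f x‖ : ℂ) ^ 2 else 0 := by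
      intro y
      rw [← Finset.mul_sum, sum_E]
      by_cases hxy : y = x
      · subst hxy
        rw [if_pos (sub_self _), if_pos rfl, ← Complex.mul_conj']
        ring
      · rw [if_neg hxy, if_neg (fun h => hxy (sub_eq_zero.1 h).symm), mul_zero]
    rw [Finset.sum_congr rfl fun y _ => h2 y, Finset.sum_ite_eq' Finset.univ x, if_pos (mem_univ _)]
  exact_mod_cast h

/-- the indicator function as a complex function -/
noncomputable def ind {p : ℕ} (U : Finset (ZMod p)) : ZMod p → ℂ :=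
  fun x => open Classical in if x ∈ U then 1 else 0

theorem ind_l1 {p : ℕ} [NeZero p] (U : Finset (ZMod p)) : ∑ x, ‖ind U x‖ = U.card := by
  classical
  unfold ind
  have : ∀ x : ZMod p, ‖(if x ∈ U then (1 : ℂ) else 0)‖ = if x ∈ U then 1 else 0 := by
    intro x
    split_ifs <;> simp
  simp only [this]
  rw [Finset.sum_ite_mem, Finset.univ_inter]
  simp

theorem ind_l2 {p : ℕ} [NeZero p] (U : Finset (ZMod p)) : ∑ x, ‖ind U x‖ ^ 2 = U.card := by
  classical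
  unfold ind
  have : ∀ x : ZMod p, ‖(if x ∈ U then (1 : ℂ) else 0)‖ ^ 2 = if x ∈ U then 1 else 0 := by
    intro x
    split_ifs <;> simp
  simp only [this]
  rw [Finset.sum_ite_mem, Finset.univ_inter]
  simp

/-- the geometric sum -/
theorem geom_bound {p : ℕ} [NeZero p] (h : ℕ) (ξ : ZMod p) :
    ‖∑ s ∈ range h, (ZMod.stdAddChar ((s : ZMod p) * ξ) : ℂ)‖ * (2 * |(ξ.valMinAbs : ℝ)|) ≤ p := by
  by_cases hξ : ξ = 0
  · subst hξ
    simp
  have hpn : 0 < p := Nat.pos_of_ne_zero (NeZero.ne p)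
  have hp : (0 : ℝ) < p := by exact_mod_cast hpn
  set q : ℂ := ZMod.stdAddChar ξ with hq
  have h1 : ∀ s : ℕ, (ZMod.stdAddChar ((s : ZMod p) * ξ) : ℂ) = q ^ s := by
    intro s
    rw [hq, ← AddChar.map_nsmul_eq_pow, nsmul_eq_mul]
  have hqn : ‖q‖ = 1 := norm_E ξ
  set m : ℤ := ξ.valMinAbs with hm
  have hmξ : ((m : ℤ) : ZMod p) = ξ := ZMod.coe_valMinAbs ξ
  have hm1 : m.natAbs ≤ p / 2 := ZMod.natAbs_valMinAbs_le ξ
  have hm2 : 2 * |(m : ℝ)| ≤ p := by
    have h2 : (m.natAbs : ℝ) ≤ (p / 2 : ℕ) := by exact_mod_cast hm1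
    have h3 : ((p / 2 : ℕ) : ℝ) ≤ p / 2 := Nat.cast_div_le
    have h4 : (m.natAbs : ℝ) = |(m : ℝ)| := by rw [Nat.cast_natAbs, Int.cast_abs]
    rw [h4] at h2
    linarith
  -- the lower bound for `q - 1`
  have hlow : 4 * |(m : ℝ)| / p ≤ ‖q - 1‖ := by
    have hqe : q = Complex.exp (Complex.I * ((2 * Real.pi * m / p : ℝ) : ℂ)) := by
      rw [hq, ← hmξ, ZMod.stdAddChar_coe]
      congr 1
      push_cast
      ring
    have h5 : ‖q - 1‖ = 2 * |Real.sin (2 * Real.pi * m / p / 2)| := by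
      rw [hqe]
      have := Complex.norm_exp_I_mul_ofReal_sub_one (2 * Real.pi * m / p)
      rw [this, norm_mul, Real.norm_eq_abs, Real.norm_eq_abs]
      norm_num
    rw [h5]
    have h6 : |Real.sin (2 * Real.pi * m / p / 2)| = Real.sin (Real.pi * |(m : ℝ)| / p) := by
      have e1 : 2 * Real.pi * (m : ℝ) / p / 2 = Real.pi * m / p := by ring
      rw [e1]
      have h7 : 0 ≤ Real.sin (Real.pi * |(m : ℝ)| / p) := by
        refine Real.sin_nonneg_of_nonneg_of_le_pi (by positivity) ?_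
        rw [div_le_iff₀ hp]
        have : |(m : ℝ)| ≤ p := by linarith [abs_nonneg (m : ℝ)]
        exact mul_le_mul_of_nonneg_left this Real.pi_pos.le
      rcases le_total 0 (m : ℝ) with h0 | h0
      · rw [abs_of_nonneg h0] at h7 ⊢
        exact abs_of_nonneg h7
      · rw [abs_of_nonpos h0] at h7 ⊢
        have e2 : Real.pi * -(m : ℝ) / p = -(Real.pi * m / p) := by ring
        rw [e2, Real.sin_neg] at h7 ⊢
        rw [abs_of_nonpos (by linarith)]
    rw [h6]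
    have h8 := Real.mul_le_sin (x := Real.pi * |(m : ℝ)| / p) (by positivity) (by
      rw [div_le_div_iff₀ hp (by norm_num)]
      nlinarith [Real.pi_pos])
    have h9 : 2 / Real.pi * (Real.pi * |(m : ℝ)| / p) = 2 * |(m : ℝ)| / p := by
      field_simp
    rw [h9] at h8
    calc 4 * |(m : ℝ)| / p = 2 * (2 * |(m : ℝ)| / p) := by ring
      _ ≤ _ := by linarith
  have hm0 : m ≠ 0 := by
    rw [hm, Ne, ZMod.valMinAbs_eq_zero]
    exact hξ
  have hmpos : 0 < |(m : ℝ)| := abs_pos.2 (by exact_mod_cast hm0)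
  have hq1 : q - 1 ≠ 0 := by
    intro h0
    rw [h0, norm_zero] at hlow
    have : 0 < 4 * |(m : ℝ)| / p := by positivity
    linarith
  have hq1' : q ≠ 1 := fun h0 => hq1 (by rw [h0, sub_self])
  rw [Finset.sum_congr rfl fun s _ => h1 s, geom_sum_eq hq1', norm_div]
  have h10 : ‖q ^ h - 1‖ ≤ 2 := by
    refine (norm_sub_le _ _).trans ?_
    rw [norm_pow, hqn, one_pow, norm_one]
    norm_num
  have h11 : 0 < ‖q - 1‖ := norm_pos_iff.2 hq1
  rw [div_mul_eq_mul_div, div_le_iff₀ h11]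
  rw [div_le_iff₀ hp] at hlow
  calc ‖q ^ h - 1‖ * (2 * |(m : ℝ)|) ≤ 2 * (2 * |(m : ℝ)|) :=
        mul_le_mul_of_nonneg_right h10 (by positivity)
    _ = 4 * |(m : ℝ)| := by ring
    _ ≤ ‖q - 1‖ * p := hlow
    _ = _ := mul_comm _ _

end Pool.Agent.TH7.PG
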