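import Pool.Agent.TH7.PG.Ratio3

/-! # From the exceptional set to the energy of the ratios -/

set_option autoImplicit false

namespace Pool.Agent.TH7.PG

open Finset

open Classical in
/-- the pairs of quadruples with the same image are controlled by the pairs of triples -/
theorem pairs_le {p : ℕ} [Fact p.Prime] (Y : Finset ℕ) (hY : ∀ y ∈ Y, (y : ZMod p) ≠ 0)
    (U B : Finset (ZMod p)) :
    ((((Y ×ˢ (U ×ˢ (B ×ˢ B))) ×ˢ (Y ×ˢ (U ×ˢ (B ×ˢ B)))).filter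
      fun w : (ℕ × ZMod p × ZMod p × ZMod p) × (ℕ × ZMod p × ZMod p × ZMod p) =>
        ((w.1.2.1 + w.1.2.2.1) / (w.1.1 : ZMod p), (w.1.2.1 + w.1.2.2.2) / (w.1.1 : ZMod p)) =
        ((w.2.2.1 + w.2.2.2.1) / (w.2.1 : ZMod p),
          (w.2.2.1 + w.2.2.2.2) / (w.2.1 : ZMod p))).card : ℝ) ≤
      B.card * ∑ u : ZMod p, (((Y ×ˢ (U ×ˢ B)).filter fun w : ℕ × ZMod p × ZMod p =>
        (w.2.1 + w.2.2) * (w.1 : ZMod p) = u).card : ℝ) ^ 2 := by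
  rw [← card_pairs (Y ×ˢ (U ×ˢ B)) fun w : ℕ × ZMod p × ZMod p =>
        (w.2.1 + w.2.2) * (w.1 : ZMod p)]
  have h1 : (((Y ×ˢ (U ×ˢ (B ×ˢ B))) ×ˢ (Y ×ˢ (U ×ˢ (B ×ˢ B)))).filter
      fun w : (ℕ × ZMod p × ZMod p × ZMod p) × (ℕ × ZMod p × ZMod p × ZMod p) =>
        ((w.1.2.1 + w.1.2.2.1) / (w.1.1 : ZMod p), (w.1.2.1 + w.1.2.2.2) / (w.1.1 : ZMod p)) =
        ((w.2.2.1 + w.2.2.2.1) / (w.2.1 : ZMod p),
          (w.2.2.1 + w.2.2.2.2) / (w.2.1 : ZMod p))).card ≤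
      (B ×ˢ (((Y ×ˢ (U ×ˢ B)) ×ˢ (Y ×ˢ (U ×ˢ B))).filter
        fun w : (ℕ × ZMod p × ZMod p) × (ℕ × ZMod p × ZMod p) =>
          (w.1.2.1 + w.1.2.2) * (w.1.1 : ZMod p) =
          (w.2.2.1 + w.2.2.2) * (w.2.1 : ZMod p))).card := by
    refine Finset.card_le_card_of_injOn (fun w => (w.1.2.2.2,
      ((w.2.1, w.1.2.1, w.1.2.2.1), (w.1.1, w.2.2.1, w.2.2.2.1)))) ?_ ?_
    · rintro ⟨⟨y, t, b, b'⟩, ⟨y₁, t₁, b₁, b₁'⟩⟩ hw
      have hw' := mem_coe.1 hw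
      simp only [mem_filter, mem_product, Prod.mk.injEq] at hw'
      obtain ⟨⟨⟨hy, ht, hb, hb'⟩, hy1, ht1, hb1, hb1'⟩, e1, e2⟩ := hw'
      refine mem_coe.2 ?_
      simp only [mem_filter, mem_product]
      refine ⟨hb', ⟨⟨hy1, ht, hb⟩, hy, ht1, hb1⟩, ?_⟩
      rw [div_eq_div_iff (hY y hy) (hY y₁ hy1)] at e1
      exact e1
    · rintro ⟨⟨y, t, b, b'⟩, ⟨y₁, t₁, b₁, b₁'⟩⟩ hw ⟨⟨z, s, c, c'⟩, ⟨z₁, s₁, c₁, c₁'⟩⟩ hw2 h
      have hw' := mem_coe.1 hw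
      have hw2' := mem_coe.1 hw2
      simp only [mem_filter, mem_product, Prod.mk.injEq] at hw' hw2' h
      obtain ⟨⟨⟨hy, ht, hb, hb'⟩, hy1, ht1, hb1, hb1'⟩, e1, e2⟩ := hw'
      obtain ⟨⟨⟨gy, gt, gb, gb'⟩, gy1, gt1, gb1, gb1'⟩, f1, f2⟩ := hw2'
      obtain ⟨h1, ⟨h2, h3, h4⟩, h5, h6, h7⟩ := h
      subst h1 h2 h3 h4 h5 h6 h7
      have e3 : b₁' = c₁' := by
        rw [f2] at e2
        rw [div_left_inj' (hY _ hy1)] at e2
        exact (add_left_cancel e2).symm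
      rw [e3]
  rw [card_product] at h1
  exact_mod_cast h1

open Classical in
theorem bad_count {p : ℕ} [Fact p.Prime] (Y : Finset ℕ) (hY : ∀ y ∈ Y, (y : ZMod p) ≠ 0)
    (U B : Finset (ZMod p)) (X : Finset (ZMod p × ZMod p)) :
    (∑ y ∈ Y, (((U ×ˢ (B ×ˢ B)).filter fun t =>
        ((t.1 + t.2.1) / (y : ZMod p), (t.1 + t.2.2) / (y : ZMod p)) ∈ X).card : ℝ)) ^ 2 ≤
      X.card * (B.card * ∑ u : ZMod p, (((Y ×ˢ (U ×ˢ B)).filter fun w : ℕ × ZMod p × ZMod p =>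
        (w.2.1 + w.2.2) * (w.1 : ZMod p) = u).card : ℝ) ^ 2) := by
  set φ : ℕ × ZMod p × ZMod p × ZMod p → ZMod p × ZMod p := fun w =>
    ((w.2.1 + w.2.2.1) / (w.1 : ZMod p), (w.2.1 + w.2.2.2) / (w.1 : ZMod p)) with hφ
  set Ω : Finset (ℕ × ZMod p × ZMod p × ZMod p) := Y ×ˢ (U ×ˢ (B ×ˢ B)) with hΩ
  have h1 : ∑ y ∈ Y, (((U ×ˢ (B ×ˢ B)).filter fun t =>
        ((t.1 + t.2.1) / (y : ZMod p), (t.1 + t.2.2) / (y : ZMod p)) ∈ X).card : ℝ) =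
      ∑ x ∈ X, ((Ω.filter fun w => φ w = x).card : ℝ) := by
    have e1 : ∑ y ∈ Y, ((U ×ˢ (B ×ˢ B)).filter fun t =>
        ((t.1 + t.2.1) / (y : ZMod p), (t.1 + t.2.2) / (y : ZMod p)) ∈ X).card =
        (Ω.filter fun w => φ w ∈ X).card := by
      rw [hΩ, Finset.card_filter, Finset.sum_product]
      refine Finset.sum_congr rfl fun y _ => ?_
      rw [Finset.card_filter]
    have e2 : (Ω.filter fun w => φ w ∈ X).card = ∑ x ∈ X, (Ω.filter fun w => φ w = x).card := by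
      rw [Finset.card_eq_sum_card_fiberwise (f := φ) (s := Ω.filter fun w => φ w ∈ X) (t := X)
        fun w hw => (mem_filter.1 (mem_coe.1 hw)).2]
      refine Finset.sum_congr rfl fun x hx => ?_
      congr 1
      ext w
      simp only [mem_filter]
      constructor
      · rintro ⟨⟨h1, _⟩, h3⟩
        exact ⟨h1, h3⟩
      · rintro ⟨h1, h3⟩
        exact ⟨⟨h1, h3 ▸ hx⟩, h3⟩
    have e3 := e1.trans e2
    exact_mod_cast e3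
  rw [h1]
  have h2 : (∑ x ∈ X, ((Ω.filter fun w => φ w = x).card : ℝ)) ^ 2 ≤
      X.card * ∑ x ∈ X, ((Ω.filter fun w => φ w = x).card : ℝ) ^ 2 := sq_sum_le_card_mul_sum_sq
  refine h2.trans (mul_le_mul_of_nonneg_left ?_ (Nat.cast_nonneg _))
  refine le_trans ?_ (pairs_le Y hY U B)
  rw [card_pairs Ω φ]
  exact Finset.sum_le_sum_of_subset_of_nonneg (Finset.subset_univ X) fun _ _ _ => sq_nonneg _

end Pool.Agent.TH7.PG
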