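import Pool.Agent.TH7.PG.Core
import Pool.Agent.TH7.PG.L2

/-! # Pairs of sets that are nearly invariant under short arithmetic progressions -/

set_option autoImplicit false
set_option linter.unusedSectionVars false

namespace Pool.Agent.TH7.PG

open Finset
open scoped Pointwise

/-- the set `A - {0, z, ..., (L-1) z}` -/
def dn {p : ℕ} (A : Finset (ZMod p)) (L : ℕ) (z : ZMod p) : Finset (ZMod p) :=
  (A ×ˢ (univ : Finset (Fin L))).image fun u => u.1 - ((u.2 : ℕ) : ZMod p) * z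

theorem dn_card {p : ℕ} (A : Finset (ZMod p)) (L N : ℕ) (hLN : L ≤ N) (z : ZMod p) :
    (dn A L z).card ≤ (A + (range N).image fun i : ℕ => (i : ZMod p) * z).card := by
  classical
  refine Finset.card_le_card_of_injOn (fun t => t + ((L - 1 : ℕ) : ZMod p) * z) ?_ ?_
  · intro t ht
    obtain ⟨u, hu, rfl⟩ := mem_image.1 (mem_coe.1 ht)
    have hu1 := (mem_product.1 hu).1
    have hi := u.2.2
    refine mem_coe.2 (Finset.mem_add.2 ⟨u.1, hu1, ((L - 1 - (u.2 : ℕ) : ℕ) : ZMod p) * z,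
      mem_image.2 ⟨L - 1 - (u.2 : ℕ), mem_range.2 (by omega), rfl⟩, ?_⟩)
    have e1 : ((L - 1 : ℕ) : ZMod p) = ((L - 1 - (u.2 : ℕ) : ℕ) : ZMod p) +
        ((u.2 : ℕ) : ZMod p) := by
      rw [← Nat.cast_add]
      congr 1
      omega
    show u.1 + _ = u.1 - ((u.2 : ℕ) : ZMod p) * z + ((L - 1 : ℕ) : ZMod p) * z
    rw [e1]
    ring
  · intro a _ b _ hab
    exact add_right_cancel hab

theorem bad_local {p : ℕ} [Fact p.Prime] (A B : Finset (ZMod p)) (L : ℕ) (z z' : ZMod p)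
    (hz : z ≠ 0) (X : Finset (ZMod p)) (M m : ℝ) (hX : (X.card : ℝ) ≤ M)
    (hAB : ∀ Y : Finset (ZMod p), (Y.card : ℝ) ≤ M →
      (((A ×ˢ B).filter fun t => t.1 + t.2 ∈ Y).card : ℝ) ≤ m) :
    ((((dn A L z) ×ˢ (dn B L z')).filter fun t => (t.1 + t.2) / z ∈ X).card : ℝ) ≤
      (L : ℝ) ^ 2 * m := by
  classical
  set Y : Fin L × Fin L → Finset (ZMod p) := fun u =>
    X.image fun x => x * z + ((u.1 : ℕ) : ZMod p) * z + ((u.2 : ℕ) : ZMod p) * z' with hY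
  have hsub : ((dn A L z) ×ˢ (dn B L z')).filter (fun t => (t.1 + t.2) / z ∈ X) ⊆
      (univ : Finset (Fin L × Fin L)).biUnion fun u =>
        ((A ×ˢ B).filter fun t => t.1 + t.2 ∈ Y u).image
          fun t => (t.1 - ((u.1 : ℕ) : ZMod p) * z, t.2 - ((u.2 : ℕ) : ZMod p) * z') := by
    intro t ht
    have ht1 := mem_filter.1 ht
    have ht2 := mem_product.1 ht1.1
    obtain ⟨u, hu, hu2⟩ := mem_image.1 ht2.1
    obtain ⟨v, hv, hv2⟩ := mem_image.1 ht2.2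
    rw [mem_biUnion]
    refine ⟨(u.2, v.2), mem_univ _, mem_image.2 ⟨(u.1, v.1), mem_filter.2
      ⟨mem_product.2 ⟨(mem_product.1 hu).1, (mem_product.1 hv).1⟩, ?_⟩, ?_⟩⟩
    · refine mem_image.2 ⟨_, ht1.2, ?_⟩
      show (t.1 + t.2) / z * z + ((u.2 : ℕ) : ZMod p) * z + ((v.2 : ℕ) : ZMod p) * z' = u.1 + v.1
      rw [div_mul_cancel₀ _ hz, ← hu2, ← hv2]
      ring
    · exact Prod.ext hu2 hv2
  have h1 : ∀ u ∈ (univ : Finset (Fin L × Fin L)),
      ((((A ×ˢ B).filter fun t => t.1 + t.2 ∈ Y u).image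
          fun t => (t.1 - ((u.1 : ℕ) : ZMod p) * z, t.2 - ((u.2 : ℕ) : ZMod p) * z')).card : ℝ) ≤
      m := by
    intro u _
    have h2 : ((Y u).card : ℝ) ≤ M := by
      refine le_trans ?_ hX
      exact_mod_cast card_image_le
    refine le_trans ?_ (hAB (Y u) h2)
    exact_mod_cast card_image_le
  calc ((((dn A L z) ×ˢ (dn B L z')).filter fun t => (t.1 + t.2) / z ∈ X).card : ℝ)
      ≤ ((∑ u : Fin L × Fin L, (((A ×ˢ B).filter fun t => t.1 + t.2 ∈ Y u).image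
          fun t => (t.1 - ((u.1 : ℕ) : ZMod p) * z,
            t.2 - ((u.2 : ℕ) : ZMod p) * z')).card : ℕ) : ℝ) := by
        exact_mod_cast (card_le_card hsub).trans card_biUnion_le
    _ ≤ ∑ _u : Fin L × Fin L, m := by
        push_cast
        exact Finset.sum_le_sum h1
    _ = (L : ℝ) ^ 2 * m := by
        rw [Finset.sum_const, nsmul_eq_mul, Finset.card_univ, Fintype.card_prod, Fintype.card_fin]
        push_cast
        ring

theorem local_num (x κ c ε' ε ab U L : ℝ) (hx : 1 ≤ x) (hκ : 0 < κ) (hc : 0 < c)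
    (hε' : 4 * κ ≤ ε') (hκc : κ * c ≤ κ) (hεε : ε' ≤ ε) (hab : 0 ≤ ab)
    (hU : U ≤ (x ^ (κ * c / 16)) ^ 2 * ab) (hU0 : 0 ≤ U) (hL : L ≤ x ^ κ) (hL0 : 0 ≤ L) (R : ℝ)
    (hR : R ≤ 2 * x ^ (-(κ * c / 2))) (hR0 : 0 ≤ R) (h3 : 3 ≤ x ^ (κ * c / 8)) :
    R * U + L ^ 2 * (x ^ (-ε) * ab) ≤ x ^ (-(κ * c / 4)) * ab := by
  have hx0 : 0 < x := by linarith
  have e1 : (x ^ (κ * c / 16)) ^ 2 = x ^ (κ * c / 8) := by
    rw [← Real.rpow_natCast, ← Real.rpow_mul hx0.le]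
    congr 1
    push_cast
    ring
  rw [e1] at hU
  have h1 : R * U ≤ 2 * x ^ (-(3 * (κ * c) / 8)) * ab := by
    calc R * U ≤ (2 * x ^ (-(κ * c / 2))) * (x ^ (κ * c / 8) * ab) :=
          mul_le_mul hR hU hU0 (by positivity)
      _ = 2 * (x ^ (-(κ * c / 2)) * x ^ (κ * c / 8)) * ab := by ring
      _ = 2 * x ^ (-(3 * (κ * c) / 8)) * ab := by
          rw [← Real.rpow_add hx0]
          congr 3
          ring
  have h2 : L ^ 2 * (x ^ (-ε) * ab) ≤ x ^ (-(3 * (κ * c) / 8)) * ab := by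
    calc L ^ 2 * (x ^ (-ε) * ab) ≤ (x ^ κ) ^ 2 * (x ^ (-ε) * ab) :=
          mul_le_mul_of_nonneg_right (pow_le_pow_left₀ hL0 hL 2) (by positivity)
      _ = (x ^ (2 * κ) * x ^ (-ε)) * ab := by
          have e2 : (x ^ κ) ^ 2 = x ^ (2 * κ) := by
            rw [← Real.rpow_natCast, ← Real.rpow_mul hx0.le]
            congr 1
            push_cast
            ring
          rw [e2]
          ring
      _ ≤ x ^ (-(3 * (κ * c) / 8)) * ab := by
          refine mul_le_mul_of_nonneg_right ?_ hab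
          rw [← Real.rpow_add hx0]
          exact Real.rpow_le_rpow_of_exponent_le hx (by nlinarith)
  have h4 : x ^ (-(κ * c / 4)) = x ^ (κ * c / 8) * x ^ (-(3 * (κ * c) / 8)) := by
    rw [← Real.rpow_add hx0]
    congr 1
    ring
  rw [h4]
  have h5 : 0 ≤ x ^ (-(3 * (κ * c) / 8)) * ab := by positivity
  calc R * U + L ^ 2 * (x ^ (-ε) * ab) ≤ 3 * (x ^ (-(3 * (κ * c) / 8)) * ab) := by linarith
    _ ≤ x ^ (κ * c / 8) * (x ^ (-(3 * (κ * c) / 8)) * ab) := mul_le_mul_of_nonneg_right h3 h5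
    _ = _ := by ring

theorem local_pairs (ε : ℝ) (hε : 0 < ε) : ∃ τ : ℝ, 0 < τ ∧ ∃ p₀ : ℕ,
    ∀ (p : ℕ) [Fact p.Prime], p₀ ≤ p → ∀ χ : DirichletCharacter ℂ p, χ ≠ 1 →
    ∀ (A B : Finset (ZMod p)) (z z' : ZMod p) (N N' : ℕ), z ≠ 0 → z' ≠ 0 →
      (p : ℝ) ^ ε ≤ N → (p : ℝ) ^ ε ≤ N' →
      ((A + (range N).image fun i : ℕ => (i : ZMod p) * z).card : ℝ) ≤ (p : ℝ) ^ τ * A.card →
      ((B + (range N').image fun i : ℕ => (i : ZMod p) * z').card : ℝ) ≤ (p : ℝ) ^ τ * B.card →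
      (∀ X : Finset (ZMod p), (X.card : ℝ) ≤ (p : ℝ) ^ (1 / 2 + ε) →
        (((A ×ˢ B).filter fun t => t.1 + t.2 ∈ X).card : ℝ) ≤
          (p : ℝ) ^ (-ε) * (A.card * B.card)) →
      ∀ f g : ZMod p → ℂ, ‖∑ a ∈ A, ∑ b ∈ B, f a * g b * χ (a + b)‖ ≤ (p : ℝ) ^ (-τ) *
        ((Real.sqrt A.card * Real.sqrt B.card) *
          (Real.sqrt (∑ a ∈ A, ‖f a‖ ^ 2) * Real.sqrt (∑ b ∈ B, ‖g b‖ ^ 2))) := by
  classical
  set ε' : ℝ := min ε 1 with hε'
  have hε'0 : 0 < ε' := lt_min hε one_pos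
  have hε'1 : ε' ≤ 1 := min_le_right _ _
  have hε'ε : ε' ≤ ε := min_le_left _ _
  set κ : ℝ := ε' / 64 with hκ
  set c : ℝ := ε' / 64 with hc
  have hκ0 : 0 < κ := by positivity
  have hc0 : 0 < c := by positivity
  have hκ1 : κ ≤ 1 := by rw [hκ]; linarith
  have hc1 : c ≤ 1 / 4 := by rw [hc]; linarith
  have hκc0 : 0 < κ * c := mul_pos hκ0 hc0
  set k : ℕ := ⌈1 / κ⌉₊ with hk
  have hk1 : 1 ≤ κ * k := by
    have h1 : 1 / κ ≤ k := Nat.le_ceil _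
    rw [div_le_iff₀ hκ0] at h1
    linarith
  have hk2 : κ * k ≤ 2 := by
    have h1 : (k : ℝ) < 1 / κ + 1 := Nat.ceil_lt_add_one (by positivity)
    have h2 : κ * k < κ * (1 / κ + 1) := mul_lt_mul_of_pos_left h1 hκ0
    have h3 : κ * (1 / κ + 1) = 1 + κ := by
      field_simp
    linarith
  set C₁ : ℝ := (4 * k : ℝ) ^ (2 * k) * 2 ^ k + 4 * k with hC₁
  obtain ⟨p₁, hp₁⟩ := large 2 κ hκ0
  obtain ⟨p₂, hp₂⟩ := large C₁ (ε' / 2) (by positivity)
  obtain ⟨p₃, hp₃⟩ := large 3 (κ * c / 8) (by positivity)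
  obtain ⟨p₄, hp₄⟩ := large 3 (κ * c / 4 / 12) (by positivity)
  refine ⟨κ * c / 16, by positivity, max (max p₁ p₂) (max p₃ p₄), ?_⟩
  intro p hpf hp χ hχ A B z z' N N' hz hz' hN hN' hA hB hAB
  have hp1 := hp₁ p (((le_max_left _ _).trans (le_max_left _ _)).trans hp)
  have hp2 := hp₂ p (((le_max_right _ _).trans (le_max_left _ _)).trans hp)
  have hp3 := hp₃ p (((le_max_left _ _).trans (le_max_right _ _)).trans hp)
  have hp4 := hp₄ p (((le_max_right _ _).trans (le_max_right _ _)).trans hp)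
  have hpR : (1 : ℝ) ≤ p := by exact_mod_cast (Fact.out : p.Prime).one_lt.le
  have hp0 : (0 : ℝ) < p := by linarith
  set L : ℕ := ⌊(p : ℝ) ^ κ⌋₊ with hL
  have hLle : (L : ℝ) ≤ (p : ℝ) ^ κ := Nat.floor_le (by positivity)
  have hLge : (p : ℝ) ^ κ / 2 ≤ L := by
    have := Nat.lt_floor_add_one ((p : ℝ) ^ κ)
    rw [← hL] at this
    linarith
  have hL1 : 1 ≤ L := by
    rw [hL]
    exact Nat.le_floor (by push_cast; linarith)
  have hL1' : (1 : ℝ) ≤ L := by exact_mod_cast hL1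
  have hκε : κ ≤ ε := by rw [hκ]; linarith
  have hLN : ∀ n : ℕ, (p : ℝ) ^ ε ≤ n → L ≤ n := by
    intro n hn
    have h1 : (L : ℝ) ≤ n := by
      refine hLle.trans (le_trans ?_ hn)
      exact Real.rpow_le_rpow_of_exponent_le hpR hκε
    exact_mod_cast h1
  have hLp : L ≤ p := by
    have h1 : (L : ℝ) ≤ p := by
      refine hLle.trans ?_
      calc (p : ℝ) ^ κ ≤ (p : ℝ) ^ (1 : ℝ) := Real.rpow_le_rpow_of_exponent_le hpR hκ1
        _ = p := Real.rpow_one _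
    exact_mod_cast h1
  have hLpos : (0 : ℝ) < L := by linarith
  set Bd : ℝ := (L : ℝ) ^ (1 - c) with hBd
  have hBd0 : 0 < Bd := by positivity
  set G : ℝ := ((4 * k : ℝ) ^ (2 * k) * (L : ℝ) ^ k * p +
    (4 * k) * (L : ℝ) ^ (2 * k) * Real.sqrt p) / Bd ^ (2 * k) with hG
  have hG0 : 0 ≤ G := by positivity
  set M : ℝ := (L : ℝ) ^ 2 * G with hM
  have hX : ((Bad χ L Bd (z' / z)).card : ℝ) ≤ M :=
    bad_card χ L hLp Bd G hG0 (fun h hh => G_bound χ hχ k L hL1 hLp Bd hBd0 h hh) _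
      (div_ne_zero hz' hz)
  have hMle : M ≤ C₁ * (p : ℝ) ^ (1 / 2 + 4 * c + 2 * κ) :=
    M_num p κ c k L hpR hκ0 hc0 hc1 hk1 hk2 hL1' hLge hLle
  have hMle2 : M ≤ (p : ℝ) ^ (1 / 2 + ε) := by
    refine hMle.trans ?_
    calc C₁ * (p : ℝ) ^ (1 / 2 + 4 * c + 2 * κ) ≤
          (p : ℝ) ^ (ε' / 2) * (p : ℝ) ^ (1 / 2 + 4 * c + 2 * κ) :=
          mul_le_mul_of_nonneg_right hp2 (by positivity)
      _ = (p : ℝ) ^ (ε' / 2 + (1 / 2 + 4 * c + 2 * κ)) := by rw [← Real.rpow_add hp0]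
      _ ≤ (p : ℝ) ^ (1 / 2 + ε) := by
          refine Real.rpow_le_rpow_of_exponent_le hpR ?_
          rw [hκ, hc]
          linarith
  have hbdd : ∀ f g : ZMod p → ℂ, (∀ x, ‖f x‖ ≤ 1) → (∀ x, ‖g x‖ ≤ 1) →
      ‖∑ a ∈ A, ∑ b ∈ B, f a * g b * χ (a + b)‖ ≤
        (p : ℝ) ^ (-(κ * c / 4)) * (A.card * B.card) := by
    intro f g hf hg
    have hsb := shift_bound χ L hL1 Bd hBd0.le z z' hz A B (dn A L z) (dn B L z')
      (fun a ha i => mem_image.2 ⟨(a, i), mem_product.2 ⟨ha, mem_univ _⟩, rfl⟩)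
      (fun b hb j => mem_image.2 ⟨(b, j), mem_product.2 ⟨hb, mem_univ _⟩, rfl⟩) f g hf hg
    refine hsb.trans ?_
    have hbad := bad_local A B L z z' hz (Bad χ L Bd (z' / z)) M
      ((p : ℝ) ^ (-ε) * (A.card * B.card)) hX (fun Y hY => hAB Y (hY.trans hMle2))
    have hUA : ((dn A L z).card : ℝ) ≤ (p : ℝ) ^ (κ * c / 16) * A.card := by
      refine le_trans ?_ hA
      exact_mod_cast dn_card A L N (hLN N hN) z
    have hUB : ((dn B L z').card : ℝ) ≤ (p : ℝ) ^ (κ * c / 16) * B.card := by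
      refine le_trans ?_ hB
      exact_mod_cast dn_card B L N' (hLN N' hN') z'
    have hU : ((dn A L z).card : ℝ) * (dn B L z').card ≤
        ((p : ℝ) ^ (κ * c / 16)) ^ 2 * ((A.card : ℝ) * B.card) := by
      calc _ ≤ ((p : ℝ) ^ (κ * c / 16) * A.card) * ((p : ℝ) ^ (κ * c / 16) * B.card) :=
            mul_le_mul hUA hUB (Nat.cast_nonneg _) (by positivity)
        _ = _ := by ring
    have hR : Real.sqrt ((1 + Bd) / L) ≤ 2 * (p : ℝ) ^ (-(κ * c / 2)) :=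
      R_num p κ c L hpR hκ0 hc0 (by linarith) hL1' hLge
    refine (add_le_add le_rfl hbad).trans ?_
    exact local_num p κ c ε' ε ((A.card : ℝ) * B.card)
      (((dn A L z).card : ℝ) * (dn B L z').card) L hpR hκ0 hc0 (by rw [hκ]; linarith)
      (by nlinarith) hε'ε (by positivity) hU (by positivity) hLle (by positivity) _ hR
      (Real.sqrt_nonneg _) hp3
  intro f g
  have h1 := linf_to_l2_pow A B (fun a b => χ (a + b)) (fun a b => χ.norm_le_one _) p (κ * c / 4)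
    hpR hp4 hbdd f g
  have e1 : κ * c / 4 / 4 = κ * c / 16 := by ring
  rw [e1] at h1
  exact h1

end Pool.Agent.TH7.PG
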