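import Pool.Agent.TH7.PG.Core
import Pool.Agent.TH7.PG.L2
import Pool.Agent.TH7.PG.Local

/-! # One set nearly invariant under a short arithmetic progression, the other arbitrary -/

set_option autoImplicit false
set_option linter.unusedSectionVars false

namespace Pool.Agent.TH7.PG

open Finset Pool.Agent.H471R4.BW Pool.Agent.H435R3.Paley
open scoped Pointwise

/-- the correlation sum of length `L` with two free starting points -/
noncomputable def VV {p : ℕ} (χ : DirichletCharacter ℂ p) (L : ℕ) (u v : ZMod p) : ℂ :=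
  ∑ i : Fin L, χ (u + ((i : ℕ) : ZMod p)) * (starRingEnd ℂ) (χ (v + ((i : ℕ) : ZMod p)))

theorem VV_norm_le {p : ℕ} (χ : DirichletCharacter ℂ p) (L : ℕ) (u v : ZMod p) :
    ‖VV χ L u v‖ ≤ L := by
  unfold VV
  refine (norm_sum_le _ _).trans ?_
  calc ∑ i : Fin L, ‖χ (u + ((i : ℕ) : ZMod p)) *
        (starRingEnd ℂ) (χ (v + ((i : ℕ) : ZMod p)))‖ ≤ ∑ _i : Fin L, (1 : ℝ) := by
        refine Finset.sum_le_sum fun i _ => ?_
        rw [norm_mul, RCLike.norm_conj]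
        exact mul_le_one₀ (χ.norm_le_one _) (norm_nonneg _) (χ.norm_le_one _)
    _ = L := by simp

/-- the single variable term -/
noncomputable def tm {p : ℕ} (χ : DirichletCharacter ℂ p) {k L : ℕ} (b c : Fin k → Fin L)
    (u : ZMod p) : ℂ :=
  (∏ i, χ (u + (((b i : Fin L) : ℕ) : ZMod p))) *
    ∏ i, (starRingEnd ℂ) (χ (u + (((c i : Fin L) : ℕ) : ZMod p)))

theorem expandVV {p : ℕ} (χ : DirichletCharacter ℂ p) (k L : ℕ) (u v : ZMod p) :
    ((‖VV χ L u v‖ ^ (2 * k) : ℝ) : ℂ) =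
      ∑ b : Fin k → Fin L, ∑ c : Fin k → Fin L,
        tm χ b c u * (starRingEnd ℂ) (tm χ b c v) := by
  set S : ℂ := VV χ L u v with hS
  have h1 : ((‖S‖ ^ (2 * k) : ℝ) : ℂ) = S ^ k * (starRingEnd ℂ) S ^ k := by
    rw [← mul_pow, Complex.mul_conj, Complex.normSq_eq_norm_sq, pow_mul]
    push_cast
    ring
  have h2 : S ^ k = ∑ b : Fin k → Fin L, ∏ s, (χ (u + (((b s : Fin L) : ℕ) : ZMod p)) *
      (starRingEnd ℂ) (χ (v + (((b s : Fin L) : ℕ) : ZMod p)))) := by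
    rw [hS, VV, ← Fin.prod_const, Finset.prod_univ_sum, Fintype.piFinset_univ]
  have h3 : (starRingEnd ℂ) S ^ k = ∑ c : Fin k → Fin L,
      ∏ s, ((starRingEnd ℂ) (χ (u + (((c s : Fin L) : ℕ) : ZMod p))) *
      (χ (v + (((c s : Fin L) : ℕ) : ZMod p)))) := by
    rw [hS, VV, map_sum, ← Fin.prod_const, Finset.prod_univ_sum, Fintype.piFinset_univ]
    simp only [map_mul, RingHomCompTriple.comp_apply, RingHom.id_apply]
  rw [h1, h2, h3, Finset.sum_mul_sum]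
  refine Finset.sum_congr rfl fun b _ => Finset.sum_congr rfl fun c _ => ?_
  rw [Finset.prod_mul_distrib, Finset.prod_mul_distrib]
  unfold tm
  simp only [map_mul, map_prod, RingHomCompTriple.comp_apply, RingHom.id_apply]
  ring

open Classical in
theorem mom2 {p : ℕ} [Fact p.Prime] (χ : DirichletCharacter ℂ p) (hχ : χ ≠ 1) (k L : ℕ)
    (hk : 1 ≤ k) (hL : L ≤ p) :
    ∑ u : ZMod p, ∑ v : ZMod p, ‖VV χ L u v‖ ^ (2 * k) ≤
      (k : ℝ) ^ (2 * k) * (L : ℝ) ^ k * (p : ℝ) ^ 2 + (2 * k) ^ 2 * (L : ℝ) ^ (2 * k) * p := by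
  set T : (Fin k → Fin L) × (Fin k → Fin L) → ℂ := fun w => ∑ u : ZMod p, tm χ w.1 w.2 u with hT
  have hW : ((∑ u : ZMod p, ∑ v : ZMod p, ‖VV χ L u v‖ ^ (2 * k) : ℝ) : ℂ) =
      ∑ w : (Fin k → Fin L) × (Fin k → Fin L), T w * (starRingEnd ℂ) (T w) := by
    have h1 : ∀ w : (Fin k → Fin L) × (Fin k → Fin L), T w * (starRingEnd ℂ) (T w) =
        ∑ u : ZMod p, ∑ v : ZMod p, tm χ w.1 w.2 u * (starRingEnd ℂ) (tm χ w.1 w.2 v) := by
      intro w
      rw [hT]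
      simp only [map_sum]
      rw [Finset.sum_mul_sum]
    have h2 : ∑ w : (Fin k → Fin L) × (Fin k → Fin L), T w * (starRingEnd ℂ) (T w) =
        ∑ w : (Fin k → Fin L) × (Fin k → Fin L), ∑ u : ZMod p, ∑ v : ZMod p,
          tm χ w.1 w.2 u * (starRingEnd ℂ) (tm χ w.1 w.2 v) :=
      Finset.sum_congr rfl fun w _ => h1 w
    rw [h2]
    conv_rhs => rw [Finset.sum_comm]
    push_cast
    refine Finset.sum_congr rfl fun u _ => ?_
    conv_rhs => rw [Finset.sum_comm]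
    refine Finset.sum_congr rfl fun v _ => ?_
    have := expandVV χ k L u v
    push_cast at this
    rw [this, ← Finset.univ_product_univ, Finset.sum_product]
  have hW0 : 0 ≤ ∑ u : ZMod p, ∑ v : ZMod p, ‖VV χ L u v‖ ^ (2 * k) :=
    Finset.sum_nonneg fun u _ => Finset.sum_nonneg fun v _ => by positivity
  have hW1 : ∑ u : ZMod p, ∑ v : ZMod p, ‖VV χ L u v‖ ^ (2 * k) =
      ‖∑ w : (Fin k → Fin L) × (Fin k → Fin L), T w * (starRingEnd ℂ) (T w)‖ := by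
    rw [← hW, Complex.norm_real, Real.norm_eq_abs, abs_of_nonneg hW0]
  have hnorm : ∀ (w : (Fin k → Fin L) × (Fin k → Fin L)) (u : ZMod p),
      ‖tm χ w.1 w.2 u‖ ≤ (1 : ℝ) := by
    intro w u
    unfold tm
    rw [norm_mul, norm_prod, norm_prod]
    refine mul_le_one₀ (Finset.prod_le_one (fun i _ => norm_nonneg _) fun i _ => ?_)
      (Finset.prod_nonneg fun i _ => norm_nonneg _)
      (Finset.prod_le_one (fun i _ => norm_nonneg _) fun i _ => ?_)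
    · exact χ.norm_le_one _
    · rw [RCLike.norm_conj]
      exact χ.norm_le_one _
  rw [hW1]
  refine (norm_sum_le _ _).trans ?_
  set Q : (Fin k → Fin L) × (Fin k → Fin L) → Prop := fun w =>
    Uniq (fun i => ((w.1 i : Fin L) : ℕ)) (fun i => ((w.2 i : Fin L) : ℕ)) with hQ
  rw [← Finset.sum_filter_add_sum_filter_not Finset.univ (fun w => ¬ Q w)]
  have hTn : ∀ w, ‖T w * (starRingEnd ℂ) (T w)‖ = ‖T w‖ ^ 2 := by
    intro w
    rw [norm_mul, RCLike.norm_conj, sq]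
  refine add_le_add ?_ ?_
  · have h1 : ∀ w ∈ Finset.univ.filter (fun w => ¬ Q w),
        ‖T w * (starRingEnd ℂ) (T w)‖ ≤ (p : ℝ) ^ 2 := by
      intro w _
      rw [hTn]
      refine pow_le_pow_left₀ (norm_nonneg _) ?_ 2
      refine (norm_sum_le _ _).trans ?_
      calc ∑ u : ZMod p, ‖tm χ w.1 w.2 u‖ ≤ ∑ _u : ZMod p, (1 : ℝ) :=
            Finset.sum_le_sum fun u _ => hnorm w u
        _ = p := by simp
    refine (Finset.sum_le_card_nsmul _ _ _ h1).trans ?_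
    rw [nsmul_eq_mul]
    have h2 : ((Finset.univ.filter (fun w => ¬ Q w)).card : ℝ) ≤
        (k : ℝ) ^ (2 * k) * (L : ℝ) ^ k := by
      exact_mod_cast tup k L hk
    exact mul_le_mul_of_nonneg_right h2 (by positivity)
  · have h1 : ∀ w ∈ Finset.univ.filter (fun w => ¬ ¬ Q w),
        ‖T w * (starRingEnd ℂ) (T w)‖ ≤ (2 * k) ^ 2 * p := by
      intro w hw
      rw [Finset.mem_filter] at hw
      have h3 := Pool.Agent.W27.BG.complete_all p χ hχ k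
        (fun i => ((w.1 i : Fin L) : ℕ)) (fun i => ((w.2 i : Fin L) : ℕ))
        (fun i => lt_of_lt_of_le (w.1 i).2 hL) (fun i => lt_of_lt_of_le (w.2 i).2 hL)
        (not_not.1 hw.2)
      rw [hTn]
      have h4 : ‖T w‖ ≤ (2 * k) * Real.sqrt p := h3
      calc ‖T w‖ ^ 2 ≤ ((2 * k) * Real.sqrt p) ^ 2 := pow_le_pow_left₀ (norm_nonneg _) h4 2
        _ = (2 * k) ^ 2 * p := by
            rw [mul_pow, Real.sq_sqrt (Nat.cast_nonneg _)]
    refine (Finset.sum_le_card_nsmul _ _ _ h1).trans ?_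
    rw [nsmul_eq_mul]
    have h2 : ((Finset.univ.filter (fun w => ¬ ¬ Q w)).card : ℝ) ≤ (L : ℝ) ^ (2 * k) := by
      have h3 := Finset.card_filter_le (Finset.univ : Finset ((Fin k → Fin L) × (Fin k → Fin L)))
        (fun w => ¬ ¬ Q w)
      have h4 : (Finset.univ : Finset ((Fin k → Fin L) × (Fin k → Fin L))).card = L ^ (2 * k) := by
        rw [Finset.card_univ, Fintype.card_prod, Fintype.card_fun, Fintype.card_fin,
          Fintype.card_fin, two_mul, pow_add]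
      rw [h4] at h3
      exact_mod_cast h3
    calc _ ≤ (L : ℝ) ^ (2 * k) * ((2 * k) ^ 2 * p) :=
          mul_le_mul_of_nonneg_right h2 (by positivity)
      _ = (2 * k) ^ 2 * (L : ℝ) ^ (2 * k) * p := by ring

/-- the exceptional pairs -/
noncomputable def Bad2 {p : ℕ} [NeZero p] (χ : DirichletCharacter ℂ p) (L : ℕ) (B : ℝ) :
    Finset (ZMod p × ZMod p) :=
  open Classical in univ.filter fun w => B < ‖VV χ L w.1 w.2‖

theorem bad2_card {p : ℕ} [Fact p.Prime] (χ : DirichletCharacter ℂ p) (hχ : χ ≠ 1) (k L : ℕ)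
    (hk : 1 ≤ k) (hL : L ≤ p) (B : ℝ) (hB : 0 < B) :
    ((Bad2 χ L B).card : ℝ) ≤
      ((k : ℝ) ^ (2 * k) * (L : ℝ) ^ k * (p : ℝ) ^ 2 + (2 * k) ^ 2 * (L : ℝ) ^ (2 * k) * p) /
        B ^ (2 * k) := by
  classical
  rw [le_div_iff₀ (by positivity)]
  refine le_trans ?_ (mom2 χ hχ k L hk hL)
  rw [← Finset.sum_product' (f := fun u v => ‖VV χ L u v‖ ^ (2 * k)), Finset.univ_product_univ]
  calc ((Bad2 χ L B).card : ℝ) * B ^ (2 * k)
      = ∑ _w ∈ Bad2 χ L B, B ^ (2 * k) := by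
        rw [Finset.sum_const, nsmul_eq_mul]
    _ ≤ ∑ w ∈ Bad2 χ L B, ‖VV χ L w.1 w.2‖ ^ (2 * k) := by
        refine Finset.sum_le_sum fun w hw => ?_
        exact pow_le_pow_left₀ hB.le (mem_filter.1 hw).2.le _
    _ ≤ ∑ w : ZMod p × ZMod p, ‖VV χ L w.1 w.2‖ ^ (2 * k) :=
        Finset.sum_le_sum_of_subset_of_nonneg (Finset.subset_univ _) fun _ _ _ => by positivity

theorem shift_one {p : ℕ} [Fact p.Prime] (χ : DirichletCharacter ℂ p) (L : ℕ) (hL : 1 ≤ L)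
    (B : ℝ) (hB : 0 ≤ B) (z : ZMod p) (hz : z ≠ 0) (A₀ B₀ U : Finset (ZMod p))
    (hU : ∀ a ∈ A₀, ∀ i : Fin L, a - ((i : ℕ) : ZMod p) * z ∈ U)
    (g : ZMod p → ℂ) (hg : ∀ x, ‖g x‖ ≤ 1) :
    ∑ a ∈ A₀, ‖∑ b ∈ B₀, g b * χ (a + b)‖ ^ 2 ≤
      B / L * ((U.card : ℝ) * (B₀.card : ℝ) ^ 2) +
      (((U ×ˢ (B₀ ×ˢ B₀)).filter fun t =>
        ((t.1 + t.2.1) / z, (t.1 + t.2.2) / z) ∈ Bad2 χ L B).card : ℝ) := by
  classical
  have hLpos : (0 : ℝ) < L := by exact_mod_cast hL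
  set h : ZMod p → ℝ := fun t => ‖∑ b ∈ B₀, g b * χ (t + b)‖ ^ 2 with hh
  have h0 : ∀ t, 0 ≤ h t := fun t => by positivity
  have h1 : ∀ i : Fin L, ∑ a ∈ A₀, h a ≤ ∑ t ∈ U, h (t + ((i : ℕ) : ZMod p) * z) := by
    intro i
    have e1 : ∑ a ∈ A₀, h a = ∑ t ∈ A₀.image (fun a => a - ((i : ℕ) : ZMod p) * z),
        h (t + ((i : ℕ) : ZMod p) * z) := by
      rw [Finset.sum_image fun a _ b _ hab => sub_left_injective hab]
      refine Finset.sum_congr rfl fun a _ => ?_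
      rw [sub_add_cancel]
    rw [e1]
    refine Finset.sum_le_sum_of_subset_of_nonneg ?_ fun _ _ _ => h0 _
    intro t ht
    obtain ⟨a, ha, rfl⟩ := mem_image.1 ht
    exact hU a ha i
  -- the inner sums
  have h2 : ∀ t : ZMod p, ∑ i : Fin L, h (t + ((i : ℕ) : ZMod p) * z) ≤
      ∑ u ∈ B₀ ×ˢ B₀, ‖VV χ L ((t + u.1) / z) ((t + u.2) / z)‖ := by
    intro t
    have e1 : ((∑ i : Fin L, h (t + ((i : ℕ) : ZMod p) * z) : ℝ) : ℂ) =
        ∑ u ∈ B₀ ×ˢ B₀, (g u.1 * (starRingEnd ℂ) (g u.2)) * ((χ z * (starRingEnd ℂ) (χ z)) *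
          VV χ L ((t + u.1) / z) ((t + u.2) / z)) := by
      have e2 : ∀ i : Fin L, ((h (t + ((i : ℕ) : ZMod p) * z) : ℝ) : ℂ) =
          ∑ u ∈ B₀ ×ˢ B₀, (g u.1 * (starRingEnd ℂ) (g u.2)) * ((χ z * (starRingEnd ℂ) (χ z)) *
          (χ ((t + u.1) / z + ((i : ℕ) : ZMod p)) *
            (starRingEnd ℂ) (χ ((t + u.2) / z + ((i : ℕ) : ZMod p))))) := by
        intro i
        have e3 : ((h (t + ((i : ℕ) : ZMod p) * z) : ℝ) : ℂ) =
            (∑ b ∈ B₀, g b * χ (t + ((i : ℕ) : ZMod p) * z + b)) *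
            (starRingEnd ℂ) (∑ b ∈ B₀, g b * χ (t + ((i : ℕ) : ZMod p) * z + b)) := by
          rw [hh, Complex.mul_conj, Complex.normSq_eq_norm_sq]
        rw [e3, map_sum, Finset.sum_mul_sum, Finset.sum_product]
        refine Finset.sum_congr rfl fun b _ => Finset.sum_congr rfl fun b' _ => ?_
        have e4 : ∀ y : ZMod p, t + ((i : ℕ) : ZMod p) * z + y =
            z * ((t + y) / z + ((i : ℕ) : ZMod p)) := by
          intro y
          field_simp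
          ring
        rw [e4 b, e4 b', map_mul, map_mul, map_mul, map_mul]
        ring
      rw [Complex.ofReal_sum, Finset.sum_congr rfl fun i _ => e2 i, Finset.sum_comm]
      refine Finset.sum_congr rfl fun u _ => ?_
      rw [← Finset.mul_sum, ← Finset.mul_sum]
      rfl
    have e5 : ∑ i : Fin L, h (t + ((i : ℕ) : ZMod p) * z) =
        ‖∑ u ∈ B₀ ×ˢ B₀, (g u.1 * (starRingEnd ℂ) (g u.2)) * ((χ z * (starRingEnd ℂ) (χ z)) *
          VV χ L ((t + u.1) / z) ((t + u.2) / z))‖ := by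
      rw [← e1, Complex.norm_real, Real.norm_eq_abs, abs_of_nonneg]
      exact Finset.sum_nonneg fun i _ => h0 _
    rw [e5]
    refine (norm_sum_le _ _).trans (Finset.sum_le_sum fun u _ => ?_)
    rw [norm_mul, norm_mul, norm_mul, norm_mul, RCLike.norm_conj, RCLike.norm_conj]
    have a1 : ‖g u.1‖ * ‖g u.2‖ ≤ 1 := mul_le_one₀ (hg _) (norm_nonneg _) (hg _)
    have a2 : ‖χ z‖ * ‖χ z‖ ≤ 1 :=
      mul_le_one₀ (χ.norm_le_one _) (norm_nonneg _) (χ.norm_le_one _)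
    calc _ ≤ 1 * (1 * ‖VV χ L ((t + u.1) / z) ((t + u.2) / z)‖) :=
          mul_le_mul a1 (mul_le_mul_of_nonneg_right a2 (norm_nonneg _)) (by positivity) zero_le_one
      _ = _ := by ring
  set Z : Finset (ZMod p × (ZMod p × ZMod p)) := (U ×ˢ (B₀ ×ˢ B₀)).filter fun t =>
        ((t.1 + t.2.1) / z, (t.1 + t.2.2) / z) ∈ Bad2 χ L B with hZ
  have h3 : ∑ t ∈ U, ∑ i : Fin L, h (t + ((i : ℕ) : ZMod p) * z) ≤
      B * ((U.card : ℝ) * (B₀.card : ℝ) ^ 2) + L * Z.card := by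
    refine (Finset.sum_le_sum fun t _ => h2 t).trans ?_
    rw [← Finset.sum_product (s := U) (t := B₀ ×ˢ B₀)
      (f := fun t => ‖VV χ L ((t.1 + t.2.1) / z) ((t.1 + t.2.2) / z)‖)]
    rw [← Finset.sum_filter_add_sum_filter_not (U ×ˢ (B₀ ×ˢ B₀))
      (fun t => ((t.1 + t.2.1) / z, (t.1 + t.2.2) / z) ∈ Bad2 χ L B), add_comm]
    refine add_le_add ?_ ?_
    · refine (Finset.sum_le_card_nsmul _ _ B fun t ht => ?_).trans ?_
      · have h4 := (mem_filter.1 ht).2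
        by_contra hcon
        push Not at hcon
        exact h4 (mem_filter.2 ⟨mem_univ _, hcon⟩)
      · rw [nsmul_eq_mul, mul_comm B]
        refine mul_le_mul_of_nonneg_right ?_ hB
        have h5 := Finset.card_filter_le (U ×ˢ (B₀ ×ˢ B₀))
          (fun t => ¬ ((t.1 + t.2.1) / z, (t.1 + t.2.2) / z) ∈ Bad2 χ L B)
        rw [Finset.card_product, Finset.card_product] at h5
        have h6 : (((U ×ˢ (B₀ ×ˢ B₀)).filter fun t =>
          ¬ ((t.1 + t.2.1) / z, (t.1 + t.2.2) / z) ∈ Bad2 χ L B).card : ℝ) ≤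
          (U.card : ℝ) * ((B₀.card : ℝ) * B₀.card) := by exact_mod_cast h5
        rw [sq]
        exact h6
    · refine (Finset.sum_le_card_nsmul _ _ (L : ℝ) fun t _ => VV_norm_le χ L _ _).trans ?_
      rw [nsmul_eq_mul, mul_comm]
  have h7 : (L : ℝ) * ∑ a ∈ A₀, h a ≤ B * ((U.card : ℝ) * (B₀.card : ℝ) ^ 2) + L * Z.card := by
    refine le_trans ?_ h3
    rw [Finset.sum_comm]
    calc (L : ℝ) * ∑ a ∈ A₀, h a = ∑ _i : Fin L, ∑ a ∈ A₀, h a := by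
          rw [Finset.sum_const, nsmul_eq_mul, Finset.card_univ, Fintype.card_fin]
      _ ≤ _ := Finset.sum_le_sum fun i _ => h1 i
  have h8 : ∑ a ∈ A₀, h a ≤ (B * ((U.card : ℝ) * (B₀.card : ℝ) ^ 2) + L * Z.card) / L := by
    rw [le_div_iff₀ hLpos, mul_comm]
    exact h7
  refine h8.trans (le_of_eq ?_)
  field_simp

theorem bad_one {p : ℕ} [Fact p.Prime] (A B : Finset (ZMod p)) (L : ℕ) (z : ZMod p)
    (hz : z ≠ 0) (X : Finset (ZMod p × ZMod p)) (M m : ℝ) (hX : (X.card : ℝ) ≤ M)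
    (hAB : ∀ Y : Finset (ZMod p × ZMod p), (Y.card : ℝ) ≤ M →
      (((A ×ˢ (B ×ˢ B)).filter fun t => (t.1 + t.2.1, t.1 + t.2.2) ∈ Y).card : ℝ) ≤ m) :
    ((((dn A L z) ×ˢ (B ×ˢ B)).filter fun t =>
      ((t.1 + t.2.1) / z, (t.1 + t.2.2) / z) ∈ X).card : ℝ) ≤ L * m := by
  classical
  set Y : Fin L → Finset (ZMod p × ZMod p) := fun i =>
    X.image fun x => (x.1 * z + ((i : ℕ) : ZMod p) * z, x.2 * z + ((i : ℕ) : ZMod p) * z) with hY
  have hsub : ((dn A L z) ×ˢ (B ×ˢ B)).filter (fun t =>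
      ((t.1 + t.2.1) / z, (t.1 + t.2.2) / z) ∈ X) ⊆
      (univ : Finset (Fin L)).biUnion fun i =>
        ((A ×ˢ (B ×ˢ B)).filter fun t => (t.1 + t.2.1, t.1 + t.2.2) ∈ Y i).image
          fun t => (t.1 - ((i : ℕ) : ZMod p) * z, t.2) := by
    intro t ht
    have ht1 := mem_filter.1 ht
    have ht2 := mem_product.1 ht1.1
    obtain ⟨u, hu, hu2⟩ := mem_image.1 ht2.1
    rw [mem_biUnion]
    refine ⟨u.2, mem_univ _, mem_image.2 ⟨(u.1, t.2), mem_filter.2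
      ⟨mem_product.2 ⟨(mem_product.1 hu).1, ht2.2⟩, ?_⟩, ?_⟩⟩
    · refine mem_image.2 ⟨_, ht1.2, ?_⟩
      refine Prod.ext ?_ ?_
      · show (t.1 + t.2.1) / z * z + ((u.2 : ℕ) : ZMod p) * z = u.1 + t.2.1
        rw [div_mul_cancel₀ _ hz, ← hu2]
        ring
      · show (t.1 + t.2.2) / z * z + ((u.2 : ℕ) : ZMod p) * z = u.1 + t.2.2
        rw [div_mul_cancel₀ _ hz, ← hu2]
        ring
    · exact Prod.ext hu2 rfl
  have h1 : ∀ i ∈ (univ : Finset (Fin L)),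
      ((((A ×ˢ (B ×ˢ B)).filter fun t => (t.1 + t.2.1, t.1 + t.2.2) ∈ Y i).image
          fun t => (t.1 - ((i : ℕ) : ZMod p) * z, t.2)).card : ℝ) ≤ m := by
    intro i _
    have h2 : ((Y i).card : ℝ) ≤ M := by
      refine le_trans ?_ hX
      exact_mod_cast card_image_le
    refine le_trans ?_ (hAB (Y i) h2)
    exact_mod_cast card_image_le
  calc ((((dn A L z) ×ˢ (B ×ˢ B)).filter fun t =>
      ((t.1 + t.2.1) / z, (t.1 + t.2.2) / z) ∈ X).card : ℝ)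
      ≤ ((∑ i : Fin L, (((A ×ˢ (B ×ˢ B)).filter fun t =>
          (t.1 + t.2.1, t.1 + t.2.2) ∈ Y i).image
          fun t => (t.1 - ((i : ℕ) : ZMod p) * z, t.2)).card : ℕ) : ℝ) := by
        exact_mod_cast (card_le_card hsub).trans card_biUnion_le
    _ ≤ ∑ _i : Fin L, m := by
        push_cast
        exact Finset.sum_le_sum h1
    _ = L * m := by
        rw [Finset.sum_const, nsmul_eq_mul, Finset.card_univ, Fintype.card_fin]

/-- numerical bound for the size of the exceptional set of pairs -/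
theorem M2_num (x κ c : ℝ) (k : ℕ) (l : ℝ) (hx : 1 ≤ x) (hκ : 0 < κ) (hc : 0 < c) (hc4 : c ≤ 1 / 4)
    (hk1 : 1 ≤ κ * k) (hk2 : κ * k ≤ 2) (hl1 : 1 ≤ l) (hl : x ^ κ / 2 ≤ l) (hl' : l ≤ x ^ κ) :
    ((k : ℝ) ^ (2 * k) * l ^ k * x ^ 2 + (2 * k) ^ 2 * l ^ (2 * k) * x) /
        (l ^ (1 - c)) ^ (2 * k) ≤
      ((k : ℝ) ^ (2 * k) * 2 ^ k + (2 * k) ^ 2) * x ^ (1 + 4 * c) := by
  have hx0 : 0 < x := by linarith
  have hl0 : 0 < l := by linarith
  have hk0 : (0 : ℝ) ≤ k := Nat.cast_nonneg k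
  have e1 : (l ^ (1 - c)) ^ (2 * k) = l ^ ((2 * k : ℝ) * (1 - c)) := by
    rw [← Real.rpow_natCast, ← Real.rpow_mul hl0.le]
    congr 1
    push_cast
    ring
  have e2 : l ^ k / l ^ ((2 * k : ℝ) * (1 - c)) = l ^ (-(k * (1 - 2 * c)) : ℝ) := by
    rw [← Real.rpow_natCast, ← Real.rpow_sub hl0]
    congr 1
    ring
  have e3 : l ^ (2 * k) / l ^ ((2 * k : ℝ) * (1 - c)) = l ^ (2 * k * c : ℝ) := by
    rw [← Real.rpow_natCast, ← Real.rpow_sub hl0]
    congr 1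
    push_cast
    ring
  have h1 : l ^ (-(k * (1 - 2 * c)) : ℝ) ≤ 2 ^ k * x ^ (-(1 - 2 * c)) := by
    have hy : 0 < x ^ κ / 2 := by positivity
    calc l ^ (-(k * (1 - 2 * c)) : ℝ) ≤ (x ^ κ / 2) ^ (-(k * (1 - 2 * c)) : ℝ) := by
          refine Real.rpow_le_rpow_of_nonpos hy hl ?_
          have : 0 ≤ (k : ℝ) * (1 - 2 * c) := mul_nonneg hk0 (by linarith)
          linarith
      _ = x ^ (κ * -(k * (1 - 2 * c)) : ℝ) * 2 ^ ((k : ℝ) * (1 - 2 * c)) := by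
          rw [Real.div_rpow (by positivity) (by norm_num), ← Real.rpow_mul hx0.le,
            div_eq_mul_inv, ← Real.rpow_neg (by norm_num)]
          congr 2
          ring
      _ ≤ x ^ (-(1 - 2 * c)) * 2 ^ (k : ℝ) := by
          refine mul_le_mul ?_ ?_ (by positivity) (by positivity)
          · refine Real.rpow_le_rpow_of_exponent_le hx ?_
            have : (1 - 2 * c) ≤ (κ * k) * (1 - 2 * c) := by nlinarith
            linarith
          · refine Real.rpow_le_rpow_of_exponent_le (by norm_num) ?_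
            nlinarith
      _ = 2 ^ k * x ^ (-(1 - 2 * c)) := by
          rw [Real.rpow_natCast]
          ring
  have h2 : l ^ (2 * k * c : ℝ) ≤ x ^ (4 * c) := by
    calc l ^ (2 * k * c : ℝ) ≤ (x ^ κ) ^ (2 * k * c : ℝ) :=
          Real.rpow_le_rpow hl0.le hl' (by positivity)
      _ = x ^ (κ * (2 * k * c) : ℝ) := by rw [← Real.rpow_mul hx0.le]
      _ ≤ x ^ (4 * c) := by
          refine Real.rpow_le_rpow_of_exponent_le hx ?_
          nlinarith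
  have h4 : ((k : ℝ) ^ (2 * k) * l ^ k * x ^ 2 + (2 * k) ^ 2 * l ^ (2 * k) * x) /
        (l ^ (1 - c)) ^ (2 * k) = (k : ℝ) ^ (2 * k) * l ^ (-(k * (1 - 2 * c)) : ℝ) * x ^ 2 +
        (2 * k) ^ 2 * l ^ (2 * k * c : ℝ) * x := by
    rw [e1, ← e2, ← e3]
    ring
  have h5 : x ^ (-(1 - 2 * c)) * x ^ 2 ≤ x ^ (1 + 4 * c) := by
    rw [← Real.rpow_natCast x 2, ← Real.rpow_add hx0]
    refine Real.rpow_le_rpow_of_exponent_le hx ?_
    push_cast
    linarith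
  have h6 : x ^ (4 * c) * x = x ^ (1 + 4 * c) := by
    rw [Real.rpow_add hx0, Real.rpow_one, mul_comm]
  rw [h4]
  have a1 : (k : ℝ) ^ (2 * k) * l ^ (-(k * (1 - 2 * c)) : ℝ) * x ^ 2 ≤
      (k : ℝ) ^ (2 * k) * 2 ^ k * x ^ (1 + 4 * c) := by
    calc (k : ℝ) ^ (2 * k) * l ^ (-(k * (1 - 2 * c)) : ℝ) * x ^ 2
        ≤ (k : ℝ) ^ (2 * k) * (2 ^ k * x ^ (-(1 - 2 * c))) * x ^ 2 := by
          refine mul_le_mul_of_nonneg_right (mul_le_mul_of_nonneg_left h1 (by positivity))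
            (by positivity)
      _ = (k : ℝ) ^ (2 * k) * 2 ^ k * (x ^ (-(1 - 2 * c)) * x ^ 2) := by ring
      _ ≤ (k : ℝ) ^ (2 * k) * 2 ^ k * x ^ (1 + 4 * c) :=
          mul_le_mul_of_nonneg_left h5 (by positivity)
  have a2 : (2 * k) ^ 2 * l ^ (2 * k * c : ℝ) * x ≤ (2 * k) ^ 2 * x ^ (1 + 4 * c) := by
    rw [← h6, mul_assoc]
    exact mul_le_mul_of_nonneg_left (mul_le_mul_of_nonneg_right h2 hx0.le) (by positivity)
  calc _ ≤ (k : ℝ) ^ (2 * k) * 2 ^ k * x ^ (1 + 4 * c) + (2 * k) ^ 2 * x ^ (1 + 4 * c) :=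
        add_le_add a1 a2
    _ = _ := by ring

theorem R2_num (x κ c l : ℝ) (hx : 1 ≤ x) (hκ : 0 < κ) (hc1 : c ≤ 1) (hc0 : 0 < c) (hl1 : 1 ≤ l)
    (hl : x ^ κ / 2 ≤ l) : l ^ (1 - c) / l ≤ 2 * x ^ (-(κ * c)) := by
  have hx0 : 0 < x := by linarith
  have hl0 : 0 < l := by linarith
  have hy : 0 < x ^ κ / 2 := by positivity
  have e1 : l ^ (1 - c) / l = l ^ (-c) := by
    rw [show (1 - c) = -c + 1 by ring, Real.rpow_add hl0, Real.rpow_one]
    field_simp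
  rw [e1]
  calc l ^ (-c) ≤ (x ^ κ / 2) ^ (-c) := Real.rpow_le_rpow_of_nonpos hy hl (by linarith)
    _ = x ^ (κ * -c) * 2 ^ c := by
        rw [Real.div_rpow (by positivity) (by norm_num), ← Real.rpow_mul hx0.le,
          div_eq_mul_inv, ← Real.rpow_neg (by norm_num), neg_neg]
    _ ≤ x ^ (κ * -c) * 2 ^ (1 : ℝ) := by
        refine mul_le_mul_of_nonneg_left ?_ (by positivity)
        exact Real.rpow_le_rpow_of_exponent_le (by norm_num) hc1
    _ = 2 * x ^ (-(κ * c)) := by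
        rw [Real.rpow_one, mul_neg]
        ring

theorem one_num (x κ c ε a b U L R : ℝ) (hx : 1 ≤ x) (hκ : 0 < κ) (hc : 0 < c)
    (hε' : 4 * κ ≤ ε) (hκc : κ * c ≤ κ) (ha : 0 ≤ a) (hb : 0 ≤ b)
    (hU : U ≤ x ^ (κ * c / 16) * a) (hU0 : 0 ≤ U) (hL : L ≤ x ^ κ) (hL0 : 0 ≤ L)
    (hR : R ≤ 2 * x ^ (-(κ * c))) (h3 : 3 ≤ x ^ (κ * c / 16)) :
    a * (R * (U * b ^ 2) + L * (x ^ (-ε) * (a * b ^ 2))) ≤ (x ^ (-(κ * c / 4)) * (a * b)) ^ 2 := by
  have hx0 : 0 < x := by linarith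
  have hκc0 : 0 < κ * c := mul_pos hκ hc
  have e1 : (x ^ (-(κ * c / 4)) * (a * b)) ^ 2 = x ^ (-(κ * c / 2)) * (a * b) ^ 2 := by
    rw [mul_pow, ← Real.rpow_natCast (x ^ _), ← Real.rpow_mul hx0.le]
    congr 2
    push_cast
    ring
  rw [e1]
  have h1 : R * (U * b ^ 2) ≤ 2 * x ^ (-(15 * (κ * c) / 16)) * (a * b ^ 2) := by
    calc R * (U * b ^ 2) ≤ (2 * x ^ (-(κ * c))) * ((x ^ (κ * c / 16) * a) * b ^ 2) :=
          mul_le_mul hR (mul_le_mul_of_nonneg_right hU (by positivity)) (by positivity)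
            (by positivity)
      _ = 2 * (x ^ (-(κ * c)) * x ^ (κ * c / 16)) * (a * b ^ 2) := by ring
      _ = 2 * x ^ (-(15 * (κ * c) / 16)) * (a * b ^ 2) := by
          rw [← Real.rpow_add hx0]
          congr 3
          ring
  have h2 : L * (x ^ (-ε) * (a * b ^ 2)) ≤ x ^ (-(15 * (κ * c) / 16)) * (a * b ^ 2) := by
    calc L * (x ^ (-ε) * (a * b ^ 2)) ≤ x ^ κ * (x ^ (-ε) * (a * b ^ 2)) :=
          mul_le_mul_of_nonneg_right hL (by positivity)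
      _ = (x ^ κ * x ^ (-ε)) * (a * b ^ 2) := by ring
      _ ≤ x ^ (-(15 * (κ * c) / 16)) * (a * b ^ 2) := by
          refine mul_le_mul_of_nonneg_right ?_ (by positivity)
          rw [← Real.rpow_add hx0]
          exact Real.rpow_le_rpow_of_exponent_le hx (by nlinarith)
  have h4 : 3 * x ^ (-(15 * (κ * c) / 16)) ≤ x ^ (-(κ * c / 2)) := by
    calc 3 * x ^ (-(15 * (κ * c) / 16)) ≤ x ^ (κ * c / 16) * x ^ (-(15 * (κ * c) / 16)) :=
          mul_le_mul_of_nonneg_right h3 (by positivity)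
      _ = x ^ (-(14 * (κ * c) / 16)) := by
          rw [← Real.rpow_add hx0]
          congr 1
          ring
      _ ≤ x ^ (-(κ * c / 2)) := Real.rpow_le_rpow_of_exponent_le hx (by nlinarith)
  calc a * (R * (U * b ^ 2) + L * (x ^ (-ε) * (a * b ^ 2)))
      ≤ a * (3 * x ^ (-(15 * (κ * c) / 16)) * (a * b ^ 2)) := by
        refine mul_le_mul_of_nonneg_left ?_ ha
        linarith
    _ ≤ a * (x ^ (-(κ * c / 2)) * (a * b ^ 2)) :=
        mul_le_mul_of_nonneg_left (mul_le_mul_of_nonneg_right h4 (by positivity)) ha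
    _ = _ := by ring

theorem one_sided (ε : ℝ) (hε : 0 < ε) : ∃ τ : ℝ, 0 < τ ∧ ∃ p₀ : ℕ,
    ∀ (p : ℕ) [Fact p.Prime], p₀ ≤ p → ∀ χ : DirichletCharacter ℂ p, χ ≠ 1 →
    ∀ (A B : Finset (ZMod p)) (z : ZMod p) (N : ℕ), z ≠ 0 → (p : ℝ) ^ ε ≤ N →
      ((A + (range N).image fun i : ℕ => (i : ZMod p) * z).card : ℝ) ≤ (p : ℝ) ^ τ * A.card →
      (∀ X : Finset (ZMod p × ZMod p), (X.card : ℝ) ≤ (p : ℝ) ^ (1 + ε) →
        (((A ×ˢ (B ×ˢ B)).filter fun t => (t.1 + t.2.1, t.1 + t.2.2) ∈ X).card : ℝ) ≤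
          (p : ℝ) ^ (-ε) * (A.card * (B.card : ℝ) ^ 2)) →
      ∀ f g : ZMod p → ℂ, ‖∑ a ∈ A, ∑ b ∈ B, f a * g b * χ (a + b)‖ ≤ (p : ℝ) ^ (-τ) *
        ((Real.sqrt A.card * Real.sqrt B.card) *
          (Real.sqrt (∑ a ∈ A, ‖f a‖ ^ 2) * Real.sqrt (∑ b ∈ B, ‖g b‖ ^ 2))) := by
  classical
  set ε' : ℝ := min ε 1 with hε'
  have hε'0 : 0 < ε' := lt_min hε one_pos
  have hε'1 : ε' ≤ 1 := min_le_right _ _
  have hε'ε : ε' ≤ ε := min_le_left _ _
  set κ : ℝ := ε' / 64 with hκ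
  set c : ℝ := ε' / 64 with hc
  have hκ0 : 0 < κ := by positivity
  have hc0 : 0 < c := by positivity
  have hκ1 : κ ≤ 1 := by rw [hκ]; linarith
  have hc1 : c ≤ 1 / 4 := by rw [hc]; linarith
  have hκc0 : 0 < κ * c := mul_pos hκ0 hc0
  set k : ℕ := ⌈1 / κ⌉₊ with hk
  have hk1 : 1 ≤ κ * k := by
    have h1 : 1 / κ ≤ k := Nat.le_ceil _
    rw [div_le_iff₀ hκ0] at h1
    linarith
  have hk2 : κ * k ≤ 2 := by
    have h1 : (k : ℝ) < 1 / κ + 1 := Nat.ceil_lt_add_one (by positivity)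
    have h2 : κ * k < κ * (1 / κ + 1) := mul_lt_mul_of_pos_left h1 hκ0
    have h3 : κ * (1 / κ + 1) = 1 + κ := by
      field_simp
    linarith
  have hkn : 1 ≤ k := by
    rw [hk]
    exact Nat.one_le_ceil_iff.2 (by positivity)
  set C₁ : ℝ := (k : ℝ) ^ (2 * k) * 2 ^ k + (2 * k) ^ 2 with hC₁
  obtain ⟨p₁, hp₁⟩ := large 2 κ hκ0
  obtain ⟨p₂, hp₂⟩ := large C₁ (ε' / 2) (by positivity)
  obtain ⟨p₃, hp₃⟩ := large 3 (κ * c / 16) (by positivity)
  obtain ⟨p₄, hp₄⟩ := large 3 (κ * c / 4 / 12) (by positivity)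
  refine ⟨κ * c / 16, by positivity, max (max p₁ p₂) (max p₃ p₄), ?_⟩
  intro p hpf hp χ hχ A B z N hz hN hA hAB
  have hp1 := hp₁ p (((le_max_left _ _).trans (le_max_left _ _)).trans hp)
  have hp2 := hp₂ p (((le_max_right _ _).trans (le_max_left _ _)).trans hp)
  have hp3 := hp₃ p (((le_max_left _ _).trans (le_max_right _ _)).trans hp)
  have hp4 := hp₄ p (((le_max_right _ _).trans (le_max_right _ _)).trans hp)
  have hpR : (1 : ℝ) ≤ p := by exact_mod_cast (Fact.out : p.Prime).one_lt.le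
  have hp0 : (0 : ℝ) < p := by linarith
  set L : ℕ := ⌊(p : ℝ) ^ κ⌋₊ with hL
  have hLle : (L : ℝ) ≤ (p : ℝ) ^ κ := Nat.floor_le (by positivity)
  have hLge : (p : ℝ) ^ κ / 2 ≤ L := by
    have := Nat.lt_floor_add_one ((p : ℝ) ^ κ)
    rw [← hL] at this
    linarith
  have hL1 : 1 ≤ L := by
    rw [hL]
    exact Nat.le_floor (by push_cast; linarith)
  have hL1' : (1 : ℝ) ≤ L := by exact_mod_cast hL1
  have hκε : κ ≤ ε := by rw [hκ]; linarith
  have hLN : L ≤ N := by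
    have h1 : (L : ℝ) ≤ N := by
      refine hLle.trans (le_trans ?_ hN)
      exact Real.rpow_le_rpow_of_exponent_le hpR hκε
    exact_mod_cast h1
  have hLp : L ≤ p := by
    have h1 : (L : ℝ) ≤ p := by
      refine hLle.trans ?_
      calc (p : ℝ) ^ κ ≤ (p : ℝ) ^ (1 : ℝ) := Real.rpow_le_rpow_of_exponent_le hpR hκ1
        _ = p := Real.rpow_one _
    exact_mod_cast h1
  have hLpos : (0 : ℝ) < L := by linarith
  set Bd : ℝ := (L : ℝ) ^ (1 - c) with hBd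
  have hBd0 : 0 < Bd := by positivity
  set M : ℝ := ((k : ℝ) ^ (2 * k) * (L : ℝ) ^ k * (p : ℝ) ^ 2 +
    (2 * k) ^ 2 * (L : ℝ) ^ (2 * k) * p) / Bd ^ (2 * k) with hM
  have hX : ((Bad2 χ L Bd).card : ℝ) ≤ M := bad2_card χ hχ k L hkn hLp Bd hBd0
  have hMle : M ≤ C₁ * (p : ℝ) ^ (1 + 4 * c) :=
    M2_num p κ c k L hpR hκ0 hc0 hc1 hk1 hk2 hL1' hLge hLle
  have hMle2 : M ≤ (p : ℝ) ^ (1 + ε) := by
    refine hMle.trans ?_
    calc C₁ * (p : ℝ) ^ (1 + 4 * c) ≤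
          (p : ℝ) ^ (ε' / 2) * (p : ℝ) ^ (1 + 4 * c) :=
          mul_le_mul_of_nonneg_right hp2 (by positivity)
      _ = (p : ℝ) ^ (ε' / 2 + (1 + 4 * c)) := by rw [← Real.rpow_add hp0]
      _ ≤ (p : ℝ) ^ (1 + ε) := by
          refine Real.rpow_le_rpow_of_exponent_le hpR ?_
          rw [hc]
          linarith
  have hbdd : ∀ f g : ZMod p → ℂ, (∀ x, ‖f x‖ ≤ 1) → (∀ x, ‖g x‖ ≤ 1) →
      ‖∑ a ∈ A, ∑ b ∈ B, f a * g b * χ (a + b)‖ ≤
        (p : ℝ) ^ (-(κ * c / 4)) * (A.card * B.card) := by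
    intro f g hf hg
    have hsb := shift_one χ L hL1 Bd hBd0.le z hz A B (dn A L z)
      (fun a ha i => mem_image.2 ⟨(a, i), mem_product.2 ⟨ha, mem_univ _⟩, rfl⟩) g hg
    have hbad := bad_one A B L z hz (Bad2 χ L Bd) M
      ((p : ℝ) ^ (-ε) * (A.card * (B.card : ℝ) ^ 2)) hX (fun Y hY => hAB Y (hY.trans hMle2))
    have hUA : ((dn A L z).card : ℝ) ≤ (p : ℝ) ^ (κ * c / 16) * A.card := by
      refine le_trans ?_ hA
      exact_mod_cast dn_card A L N hLN z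
    have hR : Bd / L ≤ 2 * (p : ℝ) ^ (-(κ * c)) :=
      R2_num p κ c L hpR hκ0 (by linarith) hc0 hL1' hLge
    have hcs : ‖∑ a ∈ A, ∑ b ∈ B, f a * g b * χ (a + b)‖ ^ 2 ≤
        A.card * ∑ a ∈ A, ‖∑ b ∈ B, g b * χ (a + b)‖ ^ 2 := by
      have h1 : ‖∑ a ∈ A, ∑ b ∈ B, f a * g b * χ (a + b)‖ ≤
          ∑ a ∈ A, ‖f a‖ * ‖∑ b ∈ B, g b * χ (a + b)‖ := by
        refine (norm_sum_le _ _).trans (Finset.sum_le_sum fun a _ => ?_)
        rw [← norm_mul, Finset.mul_sum]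
        simp only [mul_assoc]
        exact le_rfl
      have h2 := Finset.sum_mul_sq_le_sq_mul_sq A (fun a => ‖f a‖)
        (fun a => ‖∑ b ∈ B, g b * χ (a + b)‖)
      have h3 : ∑ a ∈ A, ‖f a‖ ^ 2 ≤ A.card := by
        calc ∑ a ∈ A, ‖f a‖ ^ 2 ≤ ∑ _a ∈ A, (1 : ℝ) :=
              Finset.sum_le_sum fun a _ => pow_le_one₀ (norm_nonneg _) (hf a)
          _ = A.card := by simp
      calc _ ≤ (∑ a ∈ A, ‖f a‖ * ‖∑ b ∈ B, g b * χ (a + b)‖) ^ 2 :=
            pow_le_pow_left₀ (norm_nonneg _) h1 2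
        _ ≤ _ := h2
        _ ≤ _ := mul_le_mul_of_nonneg_right h3 (Finset.sum_nonneg fun _ _ => by positivity)
    have hfin : ‖∑ a ∈ A, ∑ b ∈ B, f a * g b * χ (a + b)‖ ^ 2 ≤
        ((p : ℝ) ^ (-(κ * c / 4)) * (A.card * B.card)) ^ 2 := by
      refine hcs.trans ((mul_le_mul_of_nonneg_left (hsb.trans (add_le_add le_rfl hbad))
        (Nat.cast_nonneg _)).trans ?_)
      exact one_num p κ c ε A.card B.card (dn A L z).card L (Bd / L) hpR hκ0 hc0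
        (by rw [hκ]; linarith) (by nlinarith) (Nat.cast_nonneg _) (Nat.cast_nonneg _) hUA
        (Nat.cast_nonneg _) hLle (Nat.cast_nonneg _) hR hp3
    exact le_of_sq_le_sq hfin (by positivity)
  intro f g
  have h1 := linf_to_l2_pow A B (fun a b => χ (a + b)) (fun a b => χ.norm_le_one _) p (κ * c / 4)
    hpR hp4 hbdd f g
  have e1 : κ * c / 4 / 4 = κ * c / 16 := by ring
  rw [e1] at h1
  exact h1

end Pool.Agent.TH7.PG
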