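import Pool.Agent.TH7.PG.HalfA
import Pool.Agent.TH7.PG.OneSided

/-! # Many primes in a window -/

set_option autoImplicit false

namespace Pool.Agent.TH7.PG

open Finset

theorem log_small : ∃ n₀ : ℕ, ∀ n : ℕ, n₀ ≤ n → Real.log (n + 1) ≤ n / 10 ∧ 2 ≤ n := by
  refine ⟨1000, fun n hn => ⟨?_, by omega⟩⟩
  have hn' : (1000 : ℝ) ≤ n := by exact_mod_cast hn
  have h1 : Real.log (n + 1) = 2 * Real.log (Real.sqrt (n + 1)) := by
    rw [Real.log_sqrt (by positivity)]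
    ring
  have h2 : Real.log (Real.sqrt (n + 1)) ≤ Real.sqrt (n + 1) - 1 :=
    Real.log_le_sub_one_of_pos (Real.sqrt_pos.2 (by positivity))
  have h3 : Real.sqrt (n + 1) ≤ (n : ℝ) / 20 := by
    rw [Real.sqrt_le_left (by positivity)]
    nlinarith
  rw [h1]
  linarith

theorem primes_many (κ : ℝ) (hκ : 0 < κ) : ∃ p₀ : ℕ, ∀ p : ℕ, p₀ ≤ p → ∀ M : ℕ, M ≤ p →
    (p : ℝ) ^ (3 * κ) ≤ M → ∃ Y : Finset ℕ,
      (∀ y ∈ Y, y.Prime ∧ ⌈(p : ℝ) ^ κ⌉₊ ≤ y ∧ y ≤ M) ∧ M * (p : ℝ) ^ (-κ) ≤ Y.card := by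
  classical
  obtain ⟨n₀, hn₀⟩ := log_small
  obtain ⟨p₁, hp₁⟩ := large (max n₀ 2) (3 * κ) (by positivity)
  obtain ⟨p₂, hp₂⟩ := large (8 / κ) (κ / 2) (by positivity)
  obtain ⟨p₃, hp₃⟩ := large 4 κ (by positivity)
  obtain ⟨p₄, hp₄⟩ := large 2 (κ / 2) (by positivity)
  refine ⟨max (max p₁ p₂) (max p₃ (max p₄ 2)), ?_⟩
  intro p hp M hM hM3
  have hp1 := hp₁ p (((le_max_left _ _).trans (le_max_left _ _)).trans hp)
  have hp2 := hp₂ p (((le_max_right _ _).trans (le_max_left _ _)).trans hp)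
  have hp3 := hp₃ p (((le_max_left _ _).trans (le_max_right _ _)).trans hp)
  have hp5 : max p₄ 2 ≤ p := ((le_max_right _ _).trans (le_max_right _ _)).trans hp
  have hp4 := hp₄ p ((le_max_left _ _).trans hp5)
  have hp6 : (2 : ℝ) ≤ p := by exact_mod_cast (le_max_right _ _).trans hp5
  have hp0 : (0 : ℝ) < p := by linarith
  have hpR : (1 : ℝ) ≤ p := by linarith
  have hMn : n₀ ≤ M := by
    have : (n₀ : ℝ) ≤ M := (le_max_left _ _).trans (hp1.trans hM3)
    exact_mod_cast this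
  obtain ⟨hlog, hM2⟩ := hn₀ M hMn
  have hM2' : (2 : ℝ) ≤ M := by exact_mod_cast hM2
  set T : ℕ := ⌈(p : ℝ) ^ κ⌉₊ with hT
  set Y : Finset ℕ := (range (M + 1)).filter fun y => y.Prime ∧ T ≤ y with hY
  refine ⟨Y, ?_, ?_⟩
  · intro y hy
    obtain ⟨h1, h2, h3⟩ := mem_filter.1 hy
    exact ⟨h2, h3, by have := mem_range.1 h1; omega⟩
  -- the count
  have hpi : Nat.primeCounting M ≤ Y.card + T := by
    have h1 : Nat.primeCounting M = ((range (M + 1)).filter Nat.Prime).card := by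
      rw [Nat.primeCounting, Nat.primeCounting', Nat.count_eq_card_filter_range]
    rw [h1]
    have h2 : (range (M + 1)).filter Nat.Prime ⊆ Y ∪ range T := by
      intro y hy
      obtain ⟨h3, h4⟩ := mem_filter.1 hy
      rw [mem_union]
      by_cases h : T ≤ y
      · exact Or.inl (mem_filter.2 ⟨h3, h4, h⟩)
      · exact Or.inr (mem_range.2 (not_le.1 h))
    have h5 := card_le_card h2
    have h6 := card_union_le Y (range T)
    rw [card_range] at h6
    omega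
  have hpi' : (Nat.primeCounting M : ℝ) ≤ Y.card + T := by exact_mod_cast hpi
  have hge := Chebyshev.pi_ge M
  have hlogM : 0 < Real.log M := Real.log_pos (by linarith)
  have hlogp : Real.log M ≤ (p : ℝ) ^ κ / 4 := by
    have h1 : Real.log M ≤ Real.log p := Real.log_le_log (by linarith) (by exact_mod_cast hM)
    have h2 : Real.log p ≤ (p : ℝ) ^ (κ / 2) / (κ / 2) :=
      Real.log_le_rpow_div hp0.le (by positivity)
    have h5 : (p : ℝ) ^ κ = (p : ℝ) ^ (κ / 2) * (p : ℝ) ^ (κ / 2) := by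
      rw [← Real.rpow_add hp0]
      congr 1
      ring
    have h8 : 0 < (p : ℝ) ^ (κ / 2) := by positivity
    have h9 : (p : ℝ) ^ (κ / 2) / (κ / 2) = (8 / κ) * (p : ℝ) ^ (κ / 2) / 4 := by
      field_simp
      ring
    rw [h9] at h2
    have h10 : (8 / κ) * (p : ℝ) ^ (κ / 2) ≤ (p : ℝ) ^ (κ / 2) * (p : ℝ) ^ (κ / 2) :=
      mul_le_mul_of_nonneg_right hp2 h8.le
    rw [h5]
    linarith
  have hT' : (T : ℝ) ≤ (p : ℝ) ^ κ + 1 := (Nat.ceil_lt_add_one (by positivity)).le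
  have hl2 : (0.69 : ℝ) ≤ Real.log 2 := by
    have := Real.log_two_gt_d9
    linarith
  have h1 : 2 * M * (p : ℝ) ^ (-κ) ≤ Nat.primeCounting M := by
    refine le_trans ?_ hge
    rw [le_div_iff₀ hlogM]
    have h2 : (p : ℝ) ^ (-κ) * (p : ℝ) ^ κ = 1 := by
      rw [← Real.rpow_add hp0]
      simp
    have h3 : 0 < (p : ℝ) ^ (-κ) := by positivity
    calc 2 * M * (p : ℝ) ^ (-κ) * Real.log M ≤ 2 * M * (p : ℝ) ^ (-κ) * ((p : ℝ) ^ κ / 4) :=
          mul_le_mul_of_nonneg_left hlogp (by positivity)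
      _ = M / 2 * ((p : ℝ) ^ (-κ) * (p : ℝ) ^ κ) := by ring
      _ = M / 2 := by rw [h2, mul_one]
      _ ≤ M * Real.log 2 - Real.log (M + 1) := by nlinarith
  have h4 : (p : ℝ) ^ κ + 1 ≤ M * (p : ℝ) ^ (-κ) := by
    calc (p : ℝ) ^ κ + 1 ≤ (p : ℝ) ^ (2 * κ) := by
          have h5 : (p : ℝ) ^ (2 * κ) = (p : ℝ) ^ κ * (p : ℝ) ^ κ := by
            rw [← Real.rpow_add hp0]
            congr 1
            ring
          rw [h5]
          nlinarith
      _ = (p : ℝ) ^ (3 * κ) * (p : ℝ) ^ (-κ) := by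
          rw [← Real.rpow_add hp0]
          congr 1
          ring
      _ ≤ M * (p : ℝ) ^ (-κ) := mul_le_mul_of_nonneg_right hM3 (by positivity)
  linarith

end Pool.Agent.TH7.PG
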