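import Pool.Agent.TH7.PG.HalfB

/-! # Power saving: one set nearly invariant, the other arbitrary, difference one -/

set_option autoImplicit false

namespace Pool.Agent.TH7.PG

open Finset
open scoped Pointwise

theorem half_num (x κ C₁ Z Xc a b Yc V r : ℝ) (hx : 1 ≤ x) (hκ : 0 < κ) (hC₁ : 0 ≤ C₁)
    (hr : 0 ≤ r) (ha : 0 ≤ a) (hb : 0 ≤ b) (hY : 0 ≤ Yc) (hV0 : 0 ≤ V) (hXc0 : 0 ≤ Xc)
    (hXc : Xc ≤ C₁ * x ^ (1 + 4 * κ)) (hV : V ≤ x ^ κ * a) (hb1 : x ^ (15 * κ) ≤ b)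
    (hYab : x ^ (1 + 14 * κ) ≤ Yc * a * b) (h8 : 8 * (1 + r) * C₁ ≤ x ^ κ)
    (hZ : Z ^ 2 ≤ Xc * (b * (b ^ 2 * (4 * (Yc ^ 2 * V ^ 2 / x) + 2 * (1 + r) * (Yc * V))))) :
    Z ^ 2 ≤ (Yc * (x ^ (-(4 * κ)) * (a * b ^ 2))) ^ 2 := by
  have hx0 : 0 < x := by linarith
  have hxκ : 0 < x ^ κ := by positivity
  have e1 : (Yc * (x ^ (-(4 * κ)) * (a * b ^ 2))) ^ 2 =
      x ^ (-(8 * κ)) * (Yc ^ 2 * a ^ 2 * b ^ 4) := by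
    have : (x ^ (-(4 * κ))) ^ 2 = x ^ (-(8 * κ)) := by
      rw [← Real.rpow_natCast, ← Real.rpow_mul hx0.le]
      congr 1
      push_cast
      ring
    rw [mul_pow, mul_pow, this]
    ring
  rw [e1]
  have hV2 : V ^ 2 ≤ (x ^ κ * a) ^ 2 := pow_le_pow_left₀ hV0 hV 2
  have h1 : Z ^ 2 ≤ (C₁ * x ^ (1 + 4 * κ)) * (b * (b ^ 2 * (4 * (Yc ^ 2 * (x ^ κ * a) ^ 2 / x) +
      2 * (1 + r) * (Yc * (x ^ κ * a))))) := by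
    refine hZ.trans ?_
    gcongr
  have h2 : (C₁ * x ^ (1 + 4 * κ)) * (b * (b ^ 2 * (4 * (Yc ^ 2 * (x ^ κ * a) ^ 2 / x) +
      2 * (1 + r) * (Yc * (x ^ κ * a))))) =
      4 * C₁ * x ^ (6 * κ) * (Yc ^ 2 * a ^ 2 * b ^ 3) +
        2 * (1 + r) * C₁ * x ^ (1 + 5 * κ) * (Yc * a * b ^ 3) := by
    have e2 : x ^ (1 + 4 * κ) * (x ^ κ) ^ 2 / x = x ^ (6 * κ) := by
      rw [div_eq_iff hx0.ne', ← Real.rpow_natCast (x ^ κ), ← Real.rpow_mul hx0.le,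
        ← Real.rpow_add hx0]
      nth_rewrite 3 [← Real.rpow_one x]
      rw [← Real.rpow_add hx0]
      congr 1
      push_cast
      ring
    have e3 : x ^ (1 + 4 * κ) * x ^ κ = x ^ (1 + 5 * κ) := by
      rw [← Real.rpow_add hx0]
      congr 1
      ring
    rw [← e2, ← e3]
    ring
  rw [h2] at h1
  have h3 : 8 * C₁ ≤ x ^ κ := by
    refine le_trans ?_ h8
    nlinarith
  have h4 : 4 * C₁ * x ^ (6 * κ) * (Yc ^ 2 * a ^ 2 * b ^ 3) ≤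
      x ^ (-(8 * κ)) * (Yc ^ 2 * a ^ 2 * b ^ 4) / 2 := by
    have e4 : x ^ κ * x ^ (6 * κ) = x ^ (-(8 * κ)) * x ^ (15 * κ) := by
      rw [← Real.rpow_add hx0, ← Real.rpow_add hx0]
      congr 1
      ring
    have h5 : 8 * C₁ * x ^ (6 * κ) ≤ x ^ (-(8 * κ)) * b := by
      calc 8 * C₁ * x ^ (6 * κ) ≤ x ^ κ * x ^ (6 * κ) :=
            mul_le_mul_of_nonneg_right h3 (by positivity)
        _ = x ^ (-(8 * κ)) * x ^ (15 * κ) := e4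
        _ ≤ _ := mul_le_mul_of_nonneg_left hb1 (by positivity)
    calc 4 * C₁ * x ^ (6 * κ) * (Yc ^ 2 * a ^ 2 * b ^ 3)
        = (8 * C₁ * x ^ (6 * κ)) * (Yc ^ 2 * a ^ 2 * b ^ 3) / 2 := by ring
      _ ≤ (x ^ (-(8 * κ)) * b) * (Yc ^ 2 * a ^ 2 * b ^ 3) / 2 := by
          have := mul_le_mul_of_nonneg_right h5 (show 0 ≤ Yc ^ 2 * a ^ 2 * b ^ 3 by positivity)
          linarith
      _ = _ := by ring
  have h6 : 2 * (1 + r) * C₁ * x ^ (1 + 5 * κ) * (Yc * a * b ^ 3) ≤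
      x ^ (-(8 * κ)) * (Yc ^ 2 * a ^ 2 * b ^ 4) / 2 := by
    have e4 : x ^ κ * x ^ (1 + 5 * κ) = x ^ (-(8 * κ)) * x ^ (1 + 14 * κ) := by
      rw [← Real.rpow_add hx0, ← Real.rpow_add hx0]
      congr 1
      ring
    have h5 : 8 * (1 + r) * C₁ * x ^ (1 + 5 * κ) ≤ x ^ (-(8 * κ)) * (Yc * a * b) := by
      calc 8 * (1 + r) * C₁ * x ^ (1 + 5 * κ) ≤ x ^ κ * x ^ (1 + 5 * κ) :=
            mul_le_mul_of_nonneg_right h8 (by positivity)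
        _ = x ^ (-(8 * κ)) * x ^ (1 + 14 * κ) := e4
        _ ≤ _ := mul_le_mul_of_nonneg_left hYab (by positivity)
    have h7 : 0 ≤ 8 * (1 + r) * C₁ * x ^ (1 + 5 * κ) := by positivity
    have h9 := mul_le_mul_of_nonneg_right h5 (show 0 ≤ Yc * a * b ^ 3 by positivity)
    have h10 : 0 ≤ 8 * (1 + r) * C₁ * x ^ (1 + 5 * κ) * (Yc * a * b ^ 3) := by positivity
    calc 2 * (1 + r) * C₁ * x ^ (1 + 5 * κ) * (Yc * a * b ^ 3)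
        = (8 * (1 + r) * C₁ * x ^ (1 + 5 * κ)) * (Yc * a * b ^ 3) / 4 := by ring
      _ ≤ (8 * (1 + r) * C₁ * x ^ (1 + 5 * κ)) * (Yc * a * b ^ 3) / 2 := by linarith
      _ ≤ (x ^ (-(8 * κ)) * (Yc * a * b)) * (Yc * a * b ^ 3) / 2 := by linarith
      _ = _ := by ring
  linarith

/-- averaging the shifted bound over the multipliers -/
theorem half_avg {p : ℕ} [Fact p.Prime] (χ : DirichletCharacter ℂ p) (L : ℕ) (hL : 1 ≤ L)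
    (Bd : ℝ) (hBd : 0 ≤ Bd) (Y : Finset ℕ) (hY : ∀ y ∈ Y, (y : ZMod p) ≠ 0)
    (A₀ B₀ U : Finset (ZMod p))
    (hU : ∀ y ∈ Y, ∀ a ∈ A₀, ∀ i : Fin L, a - ((i : ℕ) : ZMod p) * (y : ZMod p) ∈ U)
    (g : ZMod p → ℂ) (hg : ∀ x, ‖g x‖ ≤ 1) (Z : ℝ)
    (hZ : ∑ y ∈ Y, (((U ×ˢ (B₀ ×ˢ B₀)).filter fun t =>
        ((t.1 + t.2.1) / (y : ZMod p), (t.1 + t.2.2) / (y : ZMod p)) ∈ Bad2 χ L Bd).card : ℝ) ≤
          Y.card * Z) (hY0 : 0 < Y.card) :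
    ∑ a ∈ A₀, ‖∑ b ∈ B₀, g b * χ (a + b)‖ ^ 2 ≤
      Bd / L * ((U.card : ℝ) * (B₀.card : ℝ) ^ 2) + Z := by
  have hYpos : (0 : ℝ) < Y.card := by exact_mod_cast hY0
  have h1 : ∑ y ∈ Y, ∑ a ∈ A₀, ‖∑ b ∈ B₀, g b * χ (a + b)‖ ^ 2 ≤
      ∑ y ∈ Y, (Bd / L * ((U.card : ℝ) * (B₀.card : ℝ) ^ 2) +
      (((U ×ˢ (B₀ ×ˢ B₀)).filter fun t =>
        ((t.1 + t.2.1) / (y : ZMod p), (t.1 + t.2.2) / (y : ZMod p)) ∈ Bad2 χ L Bd).card : ℝ)) :=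
    Finset.sum_le_sum fun y hy => shift_one χ L hL Bd hBd (y : ZMod p) (hY y hy) A₀ B₀ U
      (hU y hy) g hg
  rw [Finset.sum_const, nsmul_eq_mul, Finset.sum_add_distrib, Finset.sum_const,
    nsmul_eq_mul] at h1
  have h2 : (Y.card : ℝ) * ∑ a ∈ A₀, ‖∑ b ∈ B₀, g b * χ (a + b)‖ ^ 2 ≤
      Y.card * (Bd / L * ((U.card : ℝ) * (B₀.card : ℝ) ^ 2) + Z) := by
    rw [mul_add]
    linarith
  exact le_of_mul_le_mul_left h2 hYpos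

end Pool.Agent.TH7.PG
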