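import Pool.Agent.TH7.PG.HalfC

/-! # Power saving: one set nearly invariant, the other arbitrary, difference one -/

set_option autoImplicit false
set_option linter.unusedSectionVars false

namespace Pool.Agent.TH7.PG

open Finset
open scoped Pointwise

theorem dn_one_mem {p : ℕ} (A : Finset (ZMod p)) (N : ℕ) (a : ZMod p) (ha : a ∈ A) (n : ℕ)
    (hn : n < N) : a - (n : ZMod p) ∈ dn A N 1 :=
  mem_image.2 ⟨(a, ⟨n, hn⟩), mem_product.2 ⟨ha, mem_univ _⟩, by simp⟩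

theorem dn_one_sub {p : ℕ} (A : Finset (ZMod p)) (N₁ N k h : ℕ) (hN : N₁ + k * h ≤ N)
    (t : ZMod p) (ht : t ∈ dn A N₁ 1) (s : Fin k → Fin h) :
    t - ∑ i, (((s i : Fin h) : ℕ) : ZMod p) ∈ dn A N 1 := by
  obtain ⟨u, hu, rfl⟩ := mem_image.1 ht
  have h1 : ∑ i, ((s i : Fin h) : ℕ) ≤ k * h := by
    calc ∑ i, ((s i : Fin h) : ℕ) ≤ ∑ _i : Fin k, h :=
          Finset.sum_le_sum fun i _ => (s i).2.le
      _ = k * h := by simp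
  have h2 := u.2.2
  have h3 := dn_one_mem A N u.1 (mem_product.1 hu).1 ((u.2 : ℕ) + ∑ i, ((s i : Fin h) : ℕ))
    (by omega)
  have h4 : u.1 - ((u.2 : ℕ) : ZMod p) * 1 - ∑ i, (((s i : Fin h) : ℕ) : ZMod p) =
      u.1 - (((u.2 : ℕ) + ∑ i, ((s i : Fin h) : ℕ) : ℕ) : ZMod p) := by
    push_cast
    ring
  rw [h4]
  exact h3

/-- the choice of parameters -/
theorem half_params (κ : ℝ) (hκ : 0 < κ) (hκ1 : κ ≤ 1 / 64) (k : ℕ) (hk1 : 1 ≤ κ * k)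
    (hkn : 1 ≤ k) : ∃ p₀ : ℕ, ∀ p : ℕ, p₀ ≤ p → ∀ N : ℕ, (p : ℝ) ^ (64 * κ) ≤ N → N ≤ p →
    ∃ (h Y0 : ℕ) (W : ℝ) (Y : Finset ℕ), 1 ≤ h ∧ N / 2 + k * h ≤ N ∧ 0 < W ∧
      2 * (Y0 * W) < p ∧ (p : ℝ) * (p / (2 * W)) ^ k ≤ (h : ℝ) ^ k ∧ Y0 < p ∧
      (∀ y ∈ Y, y.Prime ∧ ⌈(p : ℝ) ^ κ⌉₊ ≤ y ∧ y ≤ Y0) ∧
      N * (p : ℝ) ^ (-(3 * κ)) / 2 ≤ Y.card ∧ ⌊(p : ℝ) ^ κ⌋₊ * Y0 ≤ N / 2 ∧ 1 ≤ Y0 ∧
      0 < Y.card := by
  obtain ⟨p₁, hp₁⟩ := primes_many κ hκ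
  obtain ⟨p₂, hp₂⟩ := large (4 * k + 4) κ hκ
  refine ⟨max (max p₁ p₂) 2, ?_⟩
  intro p hp N hN hNp
  have hp1 := hp₁ p (((le_max_left _ _).trans (le_max_left _ _)).trans hp)
  have hp2 := hp₂ p (((le_max_right _ _).trans (le_max_left _ _)).trans hp)
  have hp3 : 2 ≤ p := (le_max_right _ _).trans hp
  have hp0 : (0 : ℝ) < p := by
    have : (2 : ℝ) ≤ p := by exact_mod_cast hp3
    linarith
  have hpR : (1 : ℝ) ≤ p := by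
    have : (2 : ℝ) ≤ p := by exact_mod_cast hp3
    linarith
  have hkR : (1 : ℝ) ≤ k := by exact_mod_cast hkn
  have hκp : 0 < (p : ℝ) ^ κ := by positivity
  have hN1 : (p : ℝ) ^ κ ≤ N :=
    le_trans (Real.rpow_le_rpow_of_exponent_le hpR (by linarith)) hN
  have hN4 : (4 * k + 4 : ℝ) ≤ N := hp2.trans hN1
  have hN0 : (0 : ℝ) < N := by linarith
  have hN4' : 4 * k + 4 ≤ N := by exact_mod_cast hN4
  set h : ℕ := N / (2 * k) with hh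
  have h2k : 0 < 2 * k := by omega
  have hh1 : 1 ≤ h := (Nat.le_div_iff_mul_le h2k).2 (by omega)
  have hhR : (1 : ℝ) ≤ h := by exact_mod_cast hh1
  have hhN : N ≤ 4 * k * h := by
    have h1 : N < 2 * k * (h + 1) := Nat.lt_mul_div_succ N h2k
    have h2 : 2 * k * (h + 1) ≤ 2 * k * (h + h) := Nat.mul_le_mul_left _ (by omega)
    calc N ≤ 2 * k * (h + h) := (h1.trans_le h2).le
      _ = 4 * k * h := by ring
  have hhN' : (N : ℝ) ≤ 4 * k * h := by exact_mod_cast hhN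
  have hkh : N / 2 + k * h ≤ N := by
    have h1 : h * (2 * k) ≤ N := Nat.div_mul_le_self N (2 * k)
    have h2 : h * (2 * k) = 2 * (k * h) := by ring
    omega
  have hneg1 : (p : ℝ) ^ (-κ) * (p : ℝ) ^ κ = 1 := by
    rw [← Real.rpow_add hp0]
    simp
  have hneg2 : (p : ℝ) ^ (-(2 * κ)) * (p : ℝ) ^ κ = (p : ℝ) ^ (-κ) := by
    rw [← Real.rpow_add hp0]
    congr 1
    ring
  set W : ℝ := (p : ℝ) ^ (1 + κ) / (2 * h) with hW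
  have hW0 : 0 < W := by positivity
  set Y0 : ℕ := ⌊(N : ℝ) * (p : ℝ) ^ (-(2 * κ))⌋₊ with hY0
  have hY0le : (Y0 : ℝ) ≤ N * (p : ℝ) ^ (-(2 * κ)) := Nat.floor_le (by positivity)
  have hY0lt : (N : ℝ) * (p : ℝ) ^ (-(2 * κ)) < Y0 + 1 := Nat.lt_floor_add_one _
  have hbig : (p : ℝ) ^ (3 * κ) * 2 ≤ N * (p : ℝ) ^ (-(2 * κ)) := by
    have h1 : (p : ℝ) ^ (64 * κ) * (p : ℝ) ^ (-(2 * κ)) = (p : ℝ) ^ (62 * κ) := by
      rw [← Real.rpow_add hp0]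
      congr 1
      ring
    have h2 : (p : ℝ) ^ (3 * κ) * (p : ℝ) ^ κ = (p : ℝ) ^ (4 * κ) := by
      rw [← Real.rpow_add hp0]
      congr 1
      ring
    have h3 : (p : ℝ) ^ (4 * κ) ≤ (p : ℝ) ^ (62 * κ) :=
      Real.rpow_le_rpow_of_exponent_le hpR (by linarith)
    have h4 : (p : ℝ) ^ (64 * κ) * (p : ℝ) ^ (-(2 * κ)) ≤ N * (p : ℝ) ^ (-(2 * κ)) :=
      mul_le_mul_of_nonneg_right hN (by positivity)
    have h5 : (p : ℝ) ^ (3 * κ) * 2 ≤ (p : ℝ) ^ (3 * κ) * (p : ℝ) ^ κ :=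
      mul_le_mul_of_nonneg_left (by linarith) (by positivity)
    linarith
  have hp3κ : 1 ≤ (p : ℝ) ^ (3 * κ) := Real.one_le_rpow hpR (by positivity)
  have hY0half : (N : ℝ) * (p : ℝ) ^ (-(2 * κ)) / 2 ≤ Y0 := by linarith
  have hY03 : (p : ℝ) ^ (3 * κ) ≤ Y0 := by linarith
  have hY01 : 1 ≤ Y0 := by
    have : (1 : ℝ) ≤ Y0 := hp3κ.trans hY03
    exact_mod_cast this
  have hneglt : (p : ℝ) ^ (-(2 * κ)) < 1 := by
    refine Real.rpow_lt_one_of_one_lt_of_neg ?_ (by linarith)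
    exact_mod_cast hp3
  have hY0p : Y0 < p := by
    have h1 : (Y0 : ℝ) < p := by
      calc (Y0 : ℝ) ≤ N * (p : ℝ) ^ (-(2 * κ)) := hY0le
        _ < N * 1 := mul_lt_mul_of_pos_left hneglt hN0
        _ ≤ p := by rw [mul_one]; exact_mod_cast hNp
    exact_mod_cast h1
  obtain ⟨Y, hY1, hY2⟩ := hp1 Y0 hY0p.le hY03
  have hYc : N * (p : ℝ) ^ (-(3 * κ)) / 2 ≤ Y.card := by
    refine le_trans ?_ hY2
    have e1 : (p : ℝ) ^ (-(3 * κ)) = (p : ℝ) ^ (-(2 * κ)) * (p : ℝ) ^ (-κ) := by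
      rw [← Real.rpow_add hp0]
      congr 1
      ring
    rw [e1]
    calc (N : ℝ) * ((p : ℝ) ^ (-(2 * κ)) * (p : ℝ) ^ (-κ)) / 2 =
          (N * (p : ℝ) ^ (-(2 * κ)) / 2) * (p : ℝ) ^ (-κ) := by ring
      _ ≤ Y0 * (p : ℝ) ^ (-κ) := mul_le_mul_of_nonneg_right hY0half (by positivity)
  refine ⟨h, Y0, W, Y, hh1, hkh, hW0, ?_, ?_, hY0p, hY1, hYc, ?_, hY01, ?_⟩
  · have h1 : (2 : ℝ) * (Y0 * W) = Y0 * (p : ℝ) ^ κ * p / h := by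
      rw [hW, Real.rpow_add hp0, Real.rpow_one]
      field_simp
    rw [h1, div_lt_iff₀ (by linarith)]
    have h2 : (Y0 : ℝ) * (p : ℝ) ^ κ < h := by
      have h3 : (Y0 : ℝ) * (p : ℝ) ^ κ ≤ N * (p : ℝ) ^ (-κ) := by
        calc (Y0 : ℝ) * (p : ℝ) ^ κ ≤ (N * (p : ℝ) ^ (-(2 * κ))) * (p : ℝ) ^ κ :=
              mul_le_mul_of_nonneg_right hY0le hκp.le
          _ = N * (p : ℝ) ^ (-κ) := by rw [mul_assoc, hneg2]
      have h4 : (N : ℝ) * (p : ℝ) ^ (-κ) ≤ 4 * k * h * (p : ℝ) ^ (-κ) :=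
        mul_le_mul_of_nonneg_right hhN' (by positivity)
      have h5 : 4 * (k : ℝ) * h * (p : ℝ) ^ (-κ) < h := by
        have h6 : 0 < (p : ℝ) ^ (-κ) := by positivity
        have h7 : 4 * (k : ℝ) * (p : ℝ) ^ (-κ) < 1 := by
          calc 4 * (k : ℝ) * (p : ℝ) ^ (-κ) < (p : ℝ) ^ κ * (p : ℝ) ^ (-κ) :=
                mul_lt_mul_of_pos_right (by linarith) h6
            _ = 1 := by rw [mul_comm, hneg1]
        calc 4 * (k : ℝ) * h * (p : ℝ) ^ (-κ) = (4 * (k : ℝ) * (p : ℝ) ^ (-κ)) * h := by ring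
          _ < 1 * h := mul_lt_mul_of_pos_right h7 (by linarith)
          _ = h := one_mul _
      linarith
    calc (Y0 : ℝ) * (p : ℝ) ^ κ * p < h * p := mul_lt_mul_of_pos_right h2 hp0
      _ = p * h := mul_comm _ _
  · have h1 : (p : ℝ) / (2 * W) = h * (p : ℝ) ^ (-κ) := by
      rw [hW, Real.rpow_add hp0, Real.rpow_one, Real.rpow_neg hp0.le]
      field_simp
    rw [h1, mul_pow]
    have h2 : ((p : ℝ) ^ (-κ)) ^ k ≤ (p : ℝ) ^ (-1 : ℝ) := by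
      rw [← Real.rpow_natCast, ← Real.rpow_mul hp0.le]
      exact Real.rpow_le_rpow_of_exponent_le hpR (by linarith)
    have h3 : (p : ℝ) * (p : ℝ) ^ (-1 : ℝ) = 1 := by
      rw [Real.rpow_neg_one]
      exact mul_inv_cancel₀ hp0.ne'
    calc (p : ℝ) * ((h : ℝ) ^ k * ((p : ℝ) ^ (-κ)) ^ k) ≤
          p * ((h : ℝ) ^ k * (p : ℝ) ^ (-1 : ℝ)) := by
          refine mul_le_mul_of_nonneg_left (mul_le_mul_of_nonneg_left h2 (by positivity)) hp0.le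
      _ = (h : ℝ) ^ k * (p * (p : ℝ) ^ (-1 : ℝ)) := by ring
      _ = (h : ℝ) ^ k := by rw [h3, mul_one]
  · have h1 : ((⌊(p : ℝ) ^ κ⌋₊ * Y0 : ℕ) : ℝ) * 4 ≤ N := by
      push_cast
      have h2 : ((⌊(p : ℝ) ^ κ⌋₊ : ℕ) : ℝ) ≤ (p : ℝ) ^ κ := Nat.floor_le hκp.le
      calc ((⌊(p : ℝ) ^ κ⌋₊ : ℕ) : ℝ) * Y0 * 4 ≤
            (p : ℝ) ^ κ * (N * (p : ℝ) ^ (-(2 * κ))) * (p : ℝ) ^ κ :=
            mul_le_mul (mul_le_mul h2 hY0le (Nat.cast_nonneg _) hκp.le) (by linarith)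
              (by norm_num) (by positivity)
        _ = N * (((p : ℝ) ^ (-(2 * κ)) * (p : ℝ) ^ κ) * (p : ℝ) ^ κ) := by ring
        _ = N := by rw [hneg2, hneg1, mul_one]
    have h3 : ⌊(p : ℝ) ^ κ⌋₊ * Y0 * 4 ≤ N := by exact_mod_cast h1
    omega
  · have h1 : 0 < N * (p : ℝ) ^ (-(3 * κ)) / 2 := by positivity
    have h2 : (0 : ℝ) < Y.card := h1.trans_le hYc
    exact_mod_cast h2

end Pool.Agent.TH7.PG
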