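import Pool.Agent.TH7.PG.HalfD

/-! # Power saving: one set nearly invariant, the other arbitrary -/

set_option autoImplicit false
set_option linter.unusedSectionVars false

namespace Pool.Agent.TH7.PG

open Finset
open scoped Pointwise

theorem half_one (ε : ℝ) (hε : 0 < ε) (hε1 : ε ≤ 1) : ∃ τ : ℝ, 0 < τ ∧ ∃ p₀ : ℕ,
    ∀ (p : ℕ) [Fact p.Prime], p₀ ≤ p → ∀ χ : DirichletCharacter ℂ p, χ ≠ 1 →
    ∀ (A B : Finset (ZMod p)) (N : ℕ), (p : ℝ) ^ ε ≤ N → N ≤ p →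
      ((A + (range N).image fun i : ℕ => (i : ZMod p) * 1).card : ℝ) ≤ (p : ℝ) ^ τ * A.card →
      (p : ℝ) ^ ε ≤ B.card → (p : ℝ) ^ (1 + ε) ≤ A.card * B.card * N →
      ∀ f g : ZMod p → ℂ, ‖∑ a ∈ A, ∑ b ∈ B, f a * g b * χ (a + b)‖ ≤ (p : ℝ) ^ (-τ) *
        ((Real.sqrt A.card * Real.sqrt B.card) *
          (Real.sqrt (∑ a ∈ A, ‖f a‖ ^ 2) * Real.sqrt (∑ b ∈ B, ‖g b‖ ^ 2))) := by
  classical
  obtain ⟨κ, hκ⟩ : ∃ κ : ℝ, κ = ε / 64 := ⟨_, rfl⟩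
  have hεκ : ε = 64 * κ := by rw [hκ]; ring
  have hκ0 : 0 < κ := by rw [hκ]; positivity
  have hκ64 : κ ≤ 1 / 64 := by rw [hκ]; linarith
  have hκ1 : κ ≤ 1 := by linarith
  have hκκ0 : 0 < κ * κ := mul_pos hκ0 hκ0
  set k : ℕ := ⌈1 / κ⌉₊ with hk
  have hk1 : 1 ≤ κ * k := by
    have h1 : 1 / κ ≤ k := Nat.le_ceil _
    rw [div_le_iff₀ hκ0] at h1
    linarith
  have hk2 : κ * k ≤ 2 := by
    have h1 : (k : ℝ) < 1 / κ + 1 := Nat.ceil_lt_add_one (by positivity)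
    have h2 : κ * k < κ * (1 / κ + 1) := mul_lt_mul_of_pos_left h1 hκ0
    have h3 : κ * (1 / κ + 1) = 1 + κ := by
      field_simp
    linarith
  have hkn : 1 ≤ k := by
    rw [hk]
    exact Nat.one_le_ceil_iff.2 (by positivity)
  set C₁ : ℝ := (k : ℝ) ^ (2 * k) * 2 ^ k + (2 * k) ^ 2 with hC₁
  have hC0 : 0 ≤ C₁ := by positivity
  obtain ⟨p₁, hp₁⟩ := large 2 κ hκ0
  obtain ⟨p₂, hp₂⟩ := large (8 * (1 + k) * C₁) κ hκ0
  obtain ⟨p₃, hp₃⟩ := large 3 (κ * κ / 16) (by positivity)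
  obtain ⟨p₄, hp₄⟩ := large 3 (κ * κ / 4 / 12) (by positivity)
  obtain ⟨p₅, hp₅⟩ := half_params κ hκ0 hκ64 k hk1 hkn
  refine ⟨κ * κ / 16, by positivity, max p₅ (max (max p₁ p₂) (max p₃ p₄)), ?_⟩
  intro p hpf hp' χ hχ A B N hN hNp hA hB hABN
  have hp5 := hp₅ p ((le_max_left _ _).trans hp')
  have hp : max (max p₁ p₂) (max p₃ p₄) ≤ p := (le_max_right _ _).trans hp'
  have hp1 := hp₁ p (((le_max_left _ _).trans (le_max_left _ _)).trans hp)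
  have hp2 := hp₂ p (((le_max_right _ _).trans (le_max_left _ _)).trans hp)
  have hp3 := hp₃ p (((le_max_left _ _).trans (le_max_right _ _)).trans hp)
  have hp4 := hp₄ p (((le_max_right _ _).trans (le_max_right _ _)).trans hp)
  have hpR : (1 : ℝ) ≤ p := by exact_mod_cast (Fact.out : p.Prime).one_lt.le
  have hp0 : (0 : ℝ) < p := by linarith
  have hab0 : (0 : ℝ) ≤ (A.card : ℝ) * B.card := mul_nonneg (Nat.cast_nonneg _) (Nat.cast_nonneg _)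
  have habb0 : (0 : ℝ) ≤ (A.card : ℝ) * (B.card : ℝ) ^ 2 :=
    mul_nonneg (Nat.cast_nonneg _) (pow_nonneg (Nat.cast_nonneg _) 2)
  rw [hεκ] at hN hB hABN
  obtain ⟨h, Y0, W, Y, hh1, hkh, hW0, hYW, hδ, hY0p, hY, hYc, hLY, hY01, hYpos⟩ :=
    hp5 N hN hNp
  set L : ℕ := ⌊(p : ℝ) ^ κ⌋₊ with hL
  have hLle : (L : ℝ) ≤ (p : ℝ) ^ κ := Nat.floor_le (by positivity)
  have hLge : (p : ℝ) ^ κ / 2 ≤ L := by
    have := Nat.lt_floor_add_one ((p : ℝ) ^ κ)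
    rw [← hL] at this
    linarith
  have hL1 : 1 ≤ L := by
    rw [hL]
    exact Nat.le_floor (by push_cast; linarith)
  have hL1' : (1 : ℝ) ≤ L := by exact_mod_cast hL1
  have hLp : L ≤ p := by
    have h1 : (L : ℝ) ≤ p := by
      refine hLle.trans ?_
      calc (p : ℝ) ^ κ ≤ (p : ℝ) ^ (1 : ℝ) := Real.rpow_le_rpow_of_exponent_le hpR hκ1
        _ = p := Real.rpow_one _
    exact_mod_cast h1
  have hLpos : (0 : ℝ) < L := by linarith
  set Bd : ℝ := (L : ℝ) ^ (1 - κ) with hBd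
  have hBd0 : 0 < Bd := by positivity
  have hX : ((Bad2 χ L Bd).card : ℝ) ≤ C₁ * (p : ℝ) ^ (1 + 4 * κ) :=
    (bad2_card χ hχ k L hkn hLp Bd hBd0).trans
      (M2_num p κ κ k L hpR hκ0 hκ0 (by linarith) hk1 hk2 hL1' hLge hLle)
  -- the sets
  set U : Finset (ZMod p) := dn A (N / 2) 1 with hU
  set V : Finset (ZMod p) := dn A N 1 with hV
  have hUA : (U.card : ℝ) ≤ (p : ℝ) ^ (κ * κ / 16) * A.card := by
    refine le_trans ?_ hA
    exact_mod_cast dn_card A (N / 2) N (Nat.div_le_self _ _) 1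
  have hVA : (V.card : ℝ) ≤ (p : ℝ) ^ κ * A.card := by
    have h1 : (V.card : ℝ) ≤ (p : ℝ) ^ (κ * κ / 16) * A.card := by
      refine le_trans ?_ hA
      exact_mod_cast dn_card A N N le_rfl 1
    refine h1.trans (mul_le_mul_of_nonneg_right ?_ (Nat.cast_nonneg _))
    exact Real.rpow_le_rpow_of_exponent_le hpR (by nlinarith)
  have hYz : ∀ y ∈ Y, ((y : ℕ) : ZMod p) ≠ 0 := by
    intro y hy h
    rw [ZMod.natCast_eq_zero_iff] at h
    have := Nat.le_of_dvd (hY y hy).1.pos h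
    have := (hY y hy).2.2
    omega
  have hUmem : ∀ y ∈ Y, ∀ a ∈ A, ∀ i : Fin L, a - ((i : ℕ) : ZMod p) * (y : ZMod p) ∈ U := by
    intro y hy a ha i
    have h1 : (i : ℕ) * y < N / 2 := by
      have h2 : ((i : ℕ) + 1) * y ≤ L * Y0 := Nat.mul_le_mul i.2 (hY y hy).2.2
      have h3 : 0 < y := (hY y hy).1.pos
      have h4 : ((i : ℕ) + 1) * y = (i : ℕ) * y + y := by ring
      omega
    have h2 := dn_one_mem A (N / 2) a ha ((i : ℕ) * y) h1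
    rw [Nat.cast_mul] at h2
    exact h2
  have hr : p < ⌈(p : ℝ) ^ κ⌉₊ ^ (k + 1) := by
    have h1 : (p : ℝ) < ((⌈(p : ℝ) ^ κ⌉₊ ^ (k + 1) : ℕ) : ℝ) := by
      push_cast
      calc (p : ℝ) = (p : ℝ) ^ (1 : ℝ) := (Real.rpow_one _).symm
        _ < (p : ℝ) ^ (κ * (k + 1 : ℕ)) := by
            refine Real.rpow_lt_rpow_of_exponent_lt ?_ ?_
            · exact_mod_cast (Fact.out : p.Prime).one_lt
            · push_cast
              linarith
        _ = ((p : ℝ) ^ κ) ^ (k + 1) := by rw [Real.rpow_mul hp0.le, Real.rpow_natCast]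
        _ ≤ ((⌈(p : ℝ) ^ κ⌉₊ : ℕ) : ℝ) ^ (k + 1) :=
            pow_le_pow_left₀ (by positivity) (Nat.le_ceil _) _
    exact_mod_cast h1
  have hen := ratio_energy Y W Y0 ⌈(p : ℝ) ^ κ⌉₊ k k h hW0 hYW (fun y hy => (hY y hy).1)
    (fun y hy => (hY y hy).2.2) hY0p (fun y hy => (hY y hy).2.1) hr hh1 hδ U V B
    (fun t ht s => dn_one_sub A (N / 2) N k h hkh t ht s)
  have hbc := bad_count Y hYz U B (Bad2 χ L Bd)
  set Z : ℝ := ∑ y ∈ Y, (((U ×ˢ (B ×ˢ B)).filter fun t =>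
        ((t.1 + t.2.1) / (y : ZMod p), (t.1 + t.2.2) / (y : ZMod p)) ∈
          Bad2 χ L Bd).card : ℝ) with hZ
  have hZle : Z ≤ Y.card * ((p : ℝ) ^ (-(4 * κ)) * (A.card * (B.card : ℝ) ^ 2)) := by
    have h1 : Z ^ 2 ≤ (Y.card * ((p : ℝ) ^ (-(4 * κ)) * (A.card * (B.card : ℝ) ^ 2))) ^ 2 := by
      refine half_num p κ C₁ Z (Bad2 χ L Bd).card A.card B.card Y.card V.card k hpR hκ0 hC0
        (Nat.cast_nonneg _) (Nat.cast_nonneg _) (Nat.cast_nonneg _) (Nat.cast_nonneg _)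
        (Nat.cast_nonneg _) (Nat.cast_nonneg _) hX hVA ?_ ?_ hp2 ?_
      · exact le_trans (Real.rpow_le_rpow_of_exponent_le hpR (by linarith)) hB
      · have h2 : (p : ℝ) ^ (1 + 14 * κ) ≤ (p : ℝ) ^ (1 + 64 * κ) * (p : ℝ) ^ (-(3 * κ)) / 2 := by
          rw [← Real.rpow_add hp0]
          have h3 : (p : ℝ) ^ (1 + 14 * κ) * 2 ≤ (p : ℝ) ^ (1 + 64 * κ + -(3 * κ)) := by
            calc (p : ℝ) ^ (1 + 14 * κ) * 2 ≤ (p : ℝ) ^ (1 + 14 * κ) * (p : ℝ) ^ κ :=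
                  mul_le_mul_of_nonneg_left hp1 (by positivity)
              _ = (p : ℝ) ^ (1 + 15 * κ) := by
                  rw [← Real.rpow_add hp0]
                  congr 1
                  ring
              _ ≤ _ := Real.rpow_le_rpow_of_exponent_le hpR (by linarith)
          linarith
        have h4 : (p : ℝ) ^ (1 + 64 * κ) * (p : ℝ) ^ (-(3 * κ)) ≤
            (A.card * B.card * N) * (p : ℝ) ^ (-(3 * κ)) :=
          mul_le_mul_of_nonneg_right hABN (by positivity)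
        calc (p : ℝ) ^ (1 + 14 * κ) ≤ (A.card * B.card * N) * (p : ℝ) ^ (-(3 * κ)) / 2 := by
              linarith
          _ = (N * (p : ℝ) ^ (-(3 * κ)) / 2) * (A.card * B.card) := by ring
          _ ≤ Y.card * (A.card * B.card) := mul_le_mul_of_nonneg_right hYc hab0
          _ = Y.card * A.card * B.card := by ring
      · refine hbc.trans ?_
        refine mul_le_mul_of_nonneg_left (mul_le_mul_of_nonneg_left ?_ (Nat.cast_nonneg _))
          (Nat.cast_nonneg _)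
        convert hen using 1
    exact le_of_sq_le_sq h1 (mul_nonneg (Nat.cast_nonneg _)
      (mul_nonneg (Real.rpow_nonneg hp0.le _) habb0))
  have hR : Bd / L ≤ 2 * (p : ℝ) ^ (-(κ * κ)) :=
    R2_num p κ κ L hpR hκ0 (by linarith) hκ0 hL1' hLge
  have hbdd : ∀ f g : ZMod p → ℂ, (∀ x, ‖f x‖ ≤ 1) → (∀ x, ‖g x‖ ≤ 1) →
      ‖∑ a ∈ A, ∑ b ∈ B, f a * g b * χ (a + b)‖ ≤
        (p : ℝ) ^ (-(κ * κ / 4)) * (A.card * B.card) := by
    intro f g hf hg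
    have hsb := half_avg χ L hL1 Bd hBd0.le Y hYz A B U hUmem g hg
      ((p : ℝ) ^ (-(4 * κ)) * (A.card * (B.card : ℝ) ^ 2)) hZle hYpos
    have hcs : ‖∑ a ∈ A, ∑ b ∈ B, f a * g b * χ (a + b)‖ ^ 2 ≤
        A.card * ∑ a ∈ A, ‖∑ b ∈ B, g b * χ (a + b)‖ ^ 2 := by
      have h1 : ‖∑ a ∈ A, ∑ b ∈ B, f a * g b * χ (a + b)‖ ≤
          ∑ a ∈ A, ‖f a‖ * ‖∑ b ∈ B, g b * χ (a + b)‖ := by
        refine (norm_sum_le _ _).trans (Finset.sum_le_sum fun a _ => ?_)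
        rw [← norm_mul, Finset.mul_sum]
        simp only [mul_assoc]
        exact le_rfl
      have h2 := Finset.sum_mul_sq_le_sq_mul_sq A (fun a => ‖f a‖)
        (fun a => ‖∑ b ∈ B, g b * χ (a + b)‖)
      have h3 : ∑ a ∈ A, ‖f a‖ ^ 2 ≤ A.card := by
        calc ∑ a ∈ A, ‖f a‖ ^ 2 ≤ ∑ _a ∈ A, (1 : ℝ) :=
              Finset.sum_le_sum fun a _ => pow_le_one₀ (norm_nonneg _) (hf a)
          _ = A.card := by simp
      calc _ ≤ (∑ a ∈ A, ‖f a‖ * ‖∑ b ∈ B, g b * χ (a + b)‖) ^ 2 :=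
            pow_le_pow_left₀ (norm_nonneg _) h1 2
        _ ≤ _ := h2
        _ ≤ _ := mul_le_mul_of_nonneg_right h3 (Finset.sum_nonneg fun _ _ => by positivity)
    have hfin : ‖∑ a ∈ A, ∑ b ∈ B, f a * g b * χ (a + b)‖ ^ 2 ≤
        ((p : ℝ) ^ (-(κ * κ / 4)) * (A.card * B.card)) ^ 2 := by
      refine hcs.trans ((mul_le_mul_of_nonneg_left hsb (Nat.cast_nonneg _)).trans ?_)
      have h1 := one_num p κ κ (4 * κ) A.card B.card U.card 1 (Bd / L) hpR hκ0 hκ0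
        le_rfl (by nlinarith) (Nat.cast_nonneg _) (Nat.cast_nonneg _) hUA
        (Nat.cast_nonneg _) (by linarith) zero_le_one hR hp3
      rw [one_mul] at h1
      exact h1
    exact le_of_sq_le_sq hfin (mul_nonneg (Real.rpow_nonneg hp0.le _) hab0)
  intro f g
  have h1 := linf_to_l2_pow A B (fun a b => χ (a + b)) (fun a b => χ.norm_le_one _) p (κ * κ / 4)
    hpR hp4 hbdd f g
  have e1 : κ * κ / 4 / 4 = κ * κ / 16 := by ring
  rw [e1] at h1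
  exact h1

end Pool.Agent.TH7.PG
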