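import Pool.Agent.TH7.PG.HalfE

/-! # Power saving: one set nearly invariant, the other arbitrary, general difference -/

set_option autoImplicit false
set_option linter.unusedSectionVars false

namespace Pool.Agent.TH7.PG

open Finset
open scoped Pointwise

theorem half (ε : ℝ) (hε : 0 < ε) : ∃ τ : ℝ, 0 < τ ∧ ∃ p₀ : ℕ,
    ∀ (p : ℕ) [Fact p.Prime], p₀ ≤ p → ∀ χ : DirichletCharacter ℂ p, χ ≠ 1 →
    ∀ (A B : Finset (ZMod p)) (z : ZMod p) (N : ℕ), z ≠ 0 → (p : ℝ) ^ ε ≤ N →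
      ((A + (range N).image fun i : ℕ => (i : ZMod p) * z).card : ℝ) ≤ (p : ℝ) ^ τ * A.card →
      (p : ℝ) ^ ε ≤ B.card → (p : ℝ) ^ (1 + ε) ≤ A.card * B.card * N →
      ∀ f g : ZMod p → ℂ, ‖∑ a ∈ A, ∑ b ∈ B, f a * g b * χ (a + b)‖ ≤ (p : ℝ) ^ (-τ) *
        ((Real.sqrt A.card * Real.sqrt B.card) *
          (Real.sqrt (∑ a ∈ A, ‖f a‖ ^ 2) * Real.sqrt (∑ b ∈ B, ‖g b‖ ^ 2))) := by
  classical
  set ε' : ℝ := min ε 1 with hε'
  have hε'0 : 0 < ε' := lt_min hε one_pos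
  have hε'1 : ε' ≤ 1 := min_le_right _ _
  have hε'ε : ε' ≤ ε := min_le_left _ _
  obtain ⟨τ, hτ, p₀, h⟩ := half_one ε' hε'0 hε'1
  refine ⟨τ, hτ, p₀, ?_⟩
  intro p hpf hp χ hχ A B z N hz hN hA hB hABN f g
  have hpR : (1 : ℝ) ≤ p := by exact_mod_cast (Fact.out : p.Prime).one_lt.le
  have hp0 : (0 : ℝ) < p := by linarith
  have hz' : z⁻¹ ≠ 0 := inv_ne_zero hz
  have hinj : Function.Injective fun x : ZMod p => x * z⁻¹ := mul_left_injective₀ hz'
  have hle : (p : ℝ) ^ ε' ≤ (p : ℝ) ^ ε := Real.rpow_le_rpow_of_exponent_le hpR hε'ε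
  have hle2 : (p : ℝ) ^ (1 + ε') ≤ (p : ℝ) ^ (1 + ε) :=
    Real.rpow_le_rpow_of_exponent_le hpR (by linarith)
  -- `A` is not empty
  have hA0 : (1 : ℝ) ≤ A.card := by
    have h1 : A.card ≠ 0 := by
      intro h0
      rw [h0] at hABN
      have : 0 < (p : ℝ) ^ (1 + ε) := by positivity
      norm_num at hABN
      linarith
    exact_mod_cast Nat.one_le_iff_ne_zero.2 h1
  set N' : ℕ := min N p with hN'
  have hN'1 : (p : ℝ) ^ ε' ≤ N' := by
    rcases le_total N p with h1 | h1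
    · rw [hN', min_eq_left h1]
      exact hle.trans hN
    · rw [hN', min_eq_right h1]
      calc (p : ℝ) ^ ε' ≤ (p : ℝ) ^ (1 : ℝ) := Real.rpow_le_rpow_of_exponent_le hpR hε'1
        _ = p := Real.rpow_one _
  have hABN' : (p : ℝ) ^ (1 + ε') ≤ A.card * B.card * N' := by
    rcases le_total N p with h1 | h1
    · rw [hN', min_eq_left h1]
      exact hle2.trans hABN
    · rw [hN', min_eq_right h1]
      calc (p : ℝ) ^ (1 + ε') = (p : ℝ) ^ ε' * p := by
            rw [Real.rpow_add hp0, Real.rpow_one, mul_comm]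
        _ ≤ B.card * p := mul_le_mul_of_nonneg_right (hle.trans hB) hp0.le
        _ ≤ A.card * (B.card * p) := by
            have h2 : (0 : ℝ) ≤ B.card * p := mul_nonneg (Nat.cast_nonneg _) hp0.le
            nlinarith
        _ = A.card * B.card * p := by ring
  set A' : Finset (ZMod p) := A.image fun x => x * z⁻¹ with hA'
  set B' : Finset (ZMod p) := B.image fun x => x * z⁻¹ with hB'
  have hcA : A'.card = A.card := card_image_of_injective _ hinj
  have hcB : B'.card = B.card := card_image_of_injective _ hinj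
  have hsub : (A' + (range N').image fun i : ℕ => (i : ZMod p) * 1) ⊆
      (A + (range N).image fun i : ℕ => (i : ZMod p) * z).image fun x => x * z⁻¹ := by
    intro x hx
    obtain ⟨a', ha', i', hi', rfl⟩ := Finset.mem_add.1 hx
    obtain ⟨a, ha, rfl⟩ := mem_image.1 ha'
    obtain ⟨i, hi, rfl⟩ := mem_image.1 hi'
    refine mem_image.2 ⟨a + (i : ZMod p) * z, Finset.mem_add.2 ⟨a, ha, _,
      mem_image.2 ⟨i, mem_range.2 ?_, rfl⟩, rfl⟩, ?_⟩
    · exact lt_of_lt_of_le (mem_range.1 hi) (min_le_left _ _)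
    · show (a + (i : ZMod p) * z) * z⁻¹ = a * z⁻¹ + (i : ZMod p) * 1
      rw [add_mul, mul_assoc, mul_inv_cancel₀ hz]
  have hA2 : ((A' + (range N').image fun i : ℕ => (i : ZMod p) * 1).card : ℝ) ≤
      (p : ℝ) ^ τ * A'.card := by
    rw [hcA]
    refine le_trans ?_ hA
    exact_mod_cast (card_le_card hsub).trans card_image_le
  have hmain := h p hp χ hχ A' B' N' hN'1 (min_le_right _ _) hA2
    (by rw [hcB]; exact hle.trans hB) (by rw [hcA, hcB]; exact hABN')
    (fun x => f (x * z) * χ z) (fun x => g (x * z))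
  have hzz : ∀ x : ZMod p, x * z⁻¹ * z = x := fun x => by
    rw [mul_assoc, inv_mul_cancel₀ hz, mul_one]
  have e1 : ∑ a ∈ A', ∑ b ∈ B', f (a * z) * χ z * g (b * z) * χ (a + b) =
      ∑ a ∈ A, ∑ b ∈ B, f a * g b * χ (a + b) := by
    rw [hA', Finset.sum_image fun a _ b _ hab => hinj hab]
    refine Finset.sum_congr rfl fun a _ => ?_
    rw [hB', Finset.sum_image fun a _ b _ hab => hinj hab]
    refine Finset.sum_congr rfl fun b _ => ?_
    rw [hzz, hzz]
    have e2 : χ (a + b) = χ z * χ (a * z⁻¹ + b * z⁻¹) := by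
      rw [← map_mul]
      congr 1
      field_simp
    rw [e2]
    ring
  have e3 : ∑ a ∈ A', ‖f (a * z) * χ z‖ ^ 2 ≤ ∑ a ∈ A, ‖f a‖ ^ 2 := by
    rw [hA', Finset.sum_image fun a _ b _ hab => hinj hab]
    refine Finset.sum_le_sum fun a _ => ?_
    rw [hzz, norm_mul]
    refine pow_le_pow_left₀ (mul_nonneg (norm_nonneg _) (norm_nonneg _)) ?_ 2
    exact mul_le_of_le_one_right (norm_nonneg _) (χ.norm_le_one _)
  have e4 : ∑ b ∈ B', ‖g (b * z)‖ ^ 2 = ∑ b ∈ B, ‖g b‖ ^ 2 := by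
    rw [hB', Finset.sum_image fun a _ b _ hab => hinj hab]
    refine Finset.sum_congr rfl fun b _ => ?_
    rw [hzz]
  rw [e1, hcA, hcB, e4] at hmain
  refine hmain.trans ?_
  refine mul_le_mul_of_nonneg_left (mul_le_mul_of_nonneg_left (mul_le_mul_of_nonneg_right
    (Real.sqrt_le_sqrt e3) (Real.sqrt_nonneg _)) (mul_nonneg (Real.sqrt_nonneg _)
      (Real.sqrt_nonneg _))) (Real.rpow_nonneg hp0.le _)

end Pool.Agent.TH7.PG
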