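import Pool.Agent.TH7.PG.Det
import Pool.Agent.TH7.PG.Base
import Pool.Agent.W27.BG.Good

/-! # High moments of `∑ χ(w+i) conj χ(w+h+i)` over short intervals -/

set_option autoImplicit false

namespace Pool.Agent.TH7.PG

open Finset Pool.Agent.H471R4.BW

/-- first tuple of shifts -/
def bT {p k L : ℕ} (h : ZMod p) (b c : Fin k → Fin L) : Fin (k + k) → ZMod p :=
  Fin.append (fun s => (((b s : Fin L) : ℕ) : ZMod p)) (fun s => h + (((c s : Fin L) : ℕ) : ZMod p))

theorem expandV {p : ℕ} (χ : DirichletCharacter ℂ p) (k L : ℕ) (h w : ZMod p) :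
    ((‖V χ L h w‖ ^ (2 * k) : ℝ) : ℂ) =
      ∑ b : Fin k → Fin L, ∑ c : Fin k → Fin L,
        (∏ i, χ (w + bT h b c i)) * ∏ i, (starRingEnd ℂ) (χ (w + bT h c b i)) := by
  set S : ℂ := V χ L h w with hS
  have h1 : ((‖S‖ ^ (2 * k) : ℝ) : ℂ) = S ^ k * (starRingEnd ℂ) S ^ k := by
    rw [← mul_pow, Complex.mul_conj, Complex.normSq_eq_norm_sq, pow_mul]
    push_cast
    ring
  have h2 : S ^ k = ∑ b : Fin k → Fin L, ∏ s, (χ (w + (((b s : Fin L) : ℕ) : ZMod p)) *
      (starRingEnd ℂ) (χ (w + h + (((b s : Fin L) : ℕ) : ZMod p)))) := by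
    rw [hS, V, ← Fin.prod_const, Finset.prod_univ_sum, Fintype.piFinset_univ]
  have h3 : (starRingEnd ℂ) S ^ k = ∑ c : Fin k → Fin L,
      ∏ s, ((starRingEnd ℂ) (χ (w + (((c s : Fin L) : ℕ) : ZMod p))) *
      (χ (w + h + (((c s : Fin L) : ℕ) : ZMod p)))) := by
    rw [hS, V, map_sum, ← Fin.prod_const, Finset.prod_univ_sum, Fintype.piFinset_univ]
    simp only [map_mul, RCLike.conj_conj, RingHomCompTriple.comp_apply, RingHom.id_apply]
  rw [h1, h2, h3, Finset.sum_mul_sum]
  refine Finset.sum_congr rfl fun b _ => Finset.sum_congr rfl fun c _ => ?_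
  rw [Finset.prod_mul_distrib, Finset.prod_mul_distrib]
  unfold bT
  rw [Fin.prod_univ_add, Fin.prod_univ_add]
  simp only [Fin.append_left, Fin.append_right, ← add_assoc]
  ring

/-- if the combined tuples have no unique value then every entry has a partner -/
theorem partner_of_not_uniq {p : ℕ} [NeZero p] {k L : ℕ} (hL : L ≤ p) (h : ZMod p) (hh : h ≠ 0)
    (b c : Fin k → Fin L)
    (hU : ¬ Uniq (fun i => (bT h b c i).val) (fun i => (bT h c b i).val)) (s : Fin k) :
    (∃ t, t ≠ s ∧ ((((b s : Fin L) : ℕ) : ZMod p) = ((b t : Fin L) : ℕ) ∨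
      (((b s : Fin L) : ℕ) : ZMod p) = ((b t : Fin L) : ℕ) + h)) ∨
    (∃ t, ((((b s : Fin L) : ℕ) : ZMod p) = ((c t : Fin L) : ℕ) ∨
      (((b s : Fin L) : ℕ) : ZMod p) = ((c t : Fin L) : ℕ) + h)) := by
  classical
  by_contra hcon
  push Not at hcon
  obtain ⟨h1, h2⟩ := hcon
  apply hU
  refine ⟨((((b s : Fin L) : ℕ) : ZMod p)).val, ?_⟩
  have e1 : (univ.filter fun i => (bT h b c i).val = ((((b s : Fin L) : ℕ) : ZMod p)).val) =
      {Fin.castAdd k s} := by
    ext u
    rw [mem_filter, mem_singleton]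
    refine Fin.addCases (fun t => ?_) (fun t => ?_) u
    · unfold bT
      rw [Fin.append_left]
      constructor
      · rintro ⟨_, h3⟩
        have h4 := ZMod.val_injective p h3
        by_contra h5
        have h6 : t ≠ s := fun h6 => h5 (by rw [h6])
        exact (h1 t h6).1 h4.symm
      · intro h3
        have h4 : t = s := Fin.castAdd_injective k k h3
        rw [h4]
        exact ⟨mem_univ _, rfl⟩
    · unfold bT
      rw [Fin.append_right]
      constructor
      · rintro ⟨_, h3⟩
        have h4 := ZMod.val_injective p h3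
        exact absurd (by rw [← h4]; ring) (h2 t).2
      · intro h3
        exfalso
        have h4 := congrArg Fin.val h3
        simp at h4
        have := s.2
        omega
  have e2 : (univ.filter fun i => (bT h c b i).val = ((((b s : Fin L) : ℕ) : ZMod p)).val) =
      ∅ := by
    refine filter_false_of_mem fun u _ => ?_
    refine Fin.addCases (fun t => ?_) (fun t => ?_) u
    · unfold bT
      rw [Fin.append_left]
      intro h3
      have h4 := ZMod.val_injective p h3
      exact (h2 t).1 h4.symm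
    · unfold bT
      rw [Fin.append_right]
      intro h3
      have h4 := ZMod.val_injective p h3
      by_cases h5 : t = s
      · rw [h5] at h4
        exact hh (by simpa using h4)
      · exact (h1 t h5).2 (by rw [← h4]; ring)
  rw [e1, e2]
  simp

theorem uniq_symm {r : ℕ} (b c : Fin r → ℕ) (h : Uniq b c) : Uniq c b := by
  obtain ⟨v, hv⟩ := h
  exact ⟨v, by rw [add_comm]; exact hv⟩

open Classical in
theorem mom {p : ℕ} [Fact p.Prime] (χ : DirichletCharacter ℂ p) (hχ : χ ≠ 1) (k L : ℕ)
    (hL1 : 1 ≤ L) (hL : L ≤ p) (h : ZMod p) (hh : h ≠ 0) :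
    ∑ w : ZMod p, ‖V χ L h w‖ ^ (2 * k) ≤
      (4 * k : ℝ) ^ (2 * k) * (L : ℝ) ^ k * p + (4 * k) * (L : ℝ) ^ (2 * k) * Real.sqrt p := by
  set term : (Fin k → Fin L) × (Fin k → Fin L) → ZMod p → ℂ := fun u w =>
    (∏ i, χ (w + bT h u.1 u.2 i)) * ∏ i, (starRingEnd ℂ) (χ (w + bT h u.2 u.1 i)) with hterm
  have hW : ((∑ w : ZMod p, ‖V χ L h w‖ ^ (2 * k) : ℝ) : ℂ) =
      ∑ u : (Fin k → Fin L) × (Fin k → Fin L), ∑ w : ZMod p, term u w := by
    rw [Finset.sum_comm]
    push_cast
    refine Finset.sum_congr rfl fun w _ => ?_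
    have := expandV χ k L h w
    push_cast at this
    rw [this, ← Finset.univ_product_univ, Finset.sum_product]
  have hW0 : 0 ≤ ∑ w : ZMod p, ‖V χ L h w‖ ^ (2 * k) :=
    Finset.sum_nonneg fun w _ => by positivity
  have hW1 : ∑ w : ZMod p, ‖V χ L h w‖ ^ (2 * k) =
      ‖∑ u : (Fin k → Fin L) × (Fin k → Fin L), ∑ w : ZMod p, term u w‖ := by
    rw [← hW, Complex.norm_real, Real.norm_eq_abs, abs_of_nonneg hW0]
  have hnorm : ∀ u w, ‖term u w‖ ≤ 1 := by
    intro u w
    rw [hterm]
    simp only [norm_mul, norm_prod]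
    refine mul_le_one₀ (Finset.prod_le_one (fun i _ => norm_nonneg _) fun i _ => ?_)
      (Finset.prod_nonneg fun i _ => norm_nonneg _)
      (Finset.prod_le_one (fun i _ => norm_nonneg _) fun i _ => ?_)
    · exact χ.norm_le_one _
    · rw [RCLike.norm_conj]
      exact χ.norm_le_one _
  rw [hW1]
  refine (norm_sum_le _ _).trans ?_
  set Q : (Fin k → Fin L) × (Fin k → Fin L) → Prop := fun u =>
    Uniq (fun i => (bT h u.1 u.2 i).val) (fun i => (bT h u.2 u.1 i).val) with hQ
  rw [← Finset.sum_filter_add_sum_filter_not Finset.univ (fun u => ¬ Q u)]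
  refine add_le_add ?_ ?_
  · have h1 : ∀ u ∈ Finset.univ.filter (fun u => ¬ Q u),
        ‖∑ w : ZMod p, term u w‖ ≤ (p : ℝ) := by
      intro u _
      refine (norm_sum_le _ _).trans ?_
      calc ∑ w : ZMod p, ‖term u w‖ ≤ ∑ _w : ZMod p, (1 : ℝ) :=
            Finset.sum_le_sum fun w _ => hnorm u w
        _ = p := by simp
    refine (Finset.sum_le_card_nsmul _ _ _ h1).trans ?_
    rw [nsmul_eq_mul]
    have h2 : (Finset.univ.filter (fun u => ¬ Q u)).card ≤ (4 * k) ^ (2 * k) * L ^ k := by
      have hinj : Function.Injective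
          (fun u : (Fin k → Fin L) × (Fin k → Fin L) => (Sum.elim u.1 u.2 : Fin k ⊕ Fin k → Fin L)) := by
        intro u v huv
        have h3 : Sum.elim u.1 u.2 = Sum.elim v.1 v.2 := huv
        refine Prod.ext ?_ ?_
        · funext s
          exact congrFun h3 (Sum.inl s)
        · funext s
          exact congrFun h3 (Sum.inr s)
      rw [← Finset.card_image_of_injective _ hinj]
      refine partner_card p L hL hL1 h
        (fun s => Sum.elim (fun i : Fin k => (i : ℕ)) (fun i : Fin k => k + (i : ℕ)) s) ?_ k ?_ _ ?_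
      · intro s t hst
        rcases s with s | s <;> rcases t with t | t
        · simp only [Sum.elim_inl] at hst
          rw [Fin.ext hst]
        · simp only [Sum.elim_inl, Sum.elim_inr] at hst
          have := s.2
          omega
        · simp only [Sum.elim_inl, Sum.elim_inr] at hst
          have := t.2
          omega
        · simp only [Sum.elim_inr] at hst
          have : s = t := Fin.ext (by omega)
          rw [this]
      · rw [Fintype.card_sum, Fintype.card_fin]
        ring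
      · intro i hi s
        obtain ⟨u, hu, rfl⟩ := mem_image.1 hi
        have hu2 : ¬ Q u := (mem_filter.1 hu).2
        rcases s with s | s
        · rcases partner_of_not_uniq hL h hh u.1 u.2 hu2 s with ⟨t, ht, h3⟩ | ⟨t, h3⟩
          · exact ⟨Sum.inl t, fun h4 => ht (Sum.inl_injective h4), h3⟩
          · exact ⟨Sum.inr t, fun h4 => by simp at h4, h3⟩
        · have hu3 : ¬ Uniq (fun i => (bT h u.2 u.1 i).val) (fun i => (bT h u.1 u.2 i).val) :=
            fun h4 => hu2 (uniq_symm _ _ h4)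
          rcases partner_of_not_uniq hL h hh u.2 u.1 hu3 s with ⟨t, ht, h3⟩ | ⟨t, h3⟩
          · exact ⟨Sum.inr t, fun h4 => ht (Sum.inr_injective h4), h3⟩
          · exact ⟨Sum.inl t, fun h4 => by simp at h4, h3⟩
    have h3 : ((Finset.univ.filter (fun u => ¬ Q u)).card : ℝ) ≤
        (4 * k : ℝ) ^ (2 * k) * (L : ℝ) ^ k := by
      exact_mod_cast h2
    exact mul_le_mul_of_nonneg_right h3 (Nat.cast_nonneg p)
  · have h1 : ∀ u ∈ Finset.univ.filter (fun u => ¬ ¬ Q u),
        ‖∑ w : ZMod p, term u w‖ ≤ (4 * k) * Real.sqrt p := by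
      intro u hu
      rw [Finset.mem_filter] at hu
      have h3 := Pool.Agent.W27.BG.complete_all p χ hχ (k + k)
        (fun i => (bT h u.1 u.2 i).val) (fun i => (bT h u.2 u.1 i).val)
        (fun i => ZMod.val_lt _) (fun i => ZMod.val_lt _) (not_not.1 hu.2)
      simp only [ZMod.natCast_zmod_val] at h3
      refine h3.trans (le_of_eq ?_)
      push_cast
      ring
    refine (Finset.sum_le_card_nsmul _ _ _ h1).trans ?_
    rw [nsmul_eq_mul]
    have h2 : ((Finset.univ.filter (fun u => ¬ ¬ Q u)).card : ℝ) ≤ (L : ℝ) ^ (2 * k) := by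
      have h3 := Finset.card_filter_le (Finset.univ : Finset ((Fin k → Fin L) × (Fin k → Fin L)))
        (fun u => ¬ ¬ Q u)
      have h4 : (Finset.univ : Finset ((Fin k → Fin L) × (Fin k → Fin L))).card = L ^ (2 * k) := by
        rw [Finset.card_univ, Fintype.card_prod, Fintype.card_fun, Fintype.card_fin,
          Fintype.card_fin, two_mul, pow_add]
      rw [h4] at h3
      exact_mod_cast h3
    calc _ ≤ (L : ℝ) ^ (2 * k) * ((4 * k) * Real.sqrt p) :=
          mul_le_mul_of_nonneg_right h2 (by positivity)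
      _ = (4 * k) * (L : ℝ) ^ (2 * k) * Real.sqrt p := by ring

end Pool.Agent.TH7.PG
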