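import Pool.Agent.TH7.PG.Four

/-! # The energy of the ratios `(t + b) / y`, `t` in a set nearly invariant under an interval -/

set_option autoImplicit false

namespace Pool.Agent.TH7.PG

open Finset

/-- few primes of a set of large primes divide a small nonzero integer -/
theorem few_divisors {p : ℕ} [NeZero p] (Y : Finset ℕ) (T r : ℕ) (hY : ∀ y ∈ Y, y.Prime)
    (hT : ∀ y ∈ Y, T ≤ y) (hr : p < T ^ (r + 1)) (u : ZMod p) (hu : u ≠ 0) :
    (Y.filter fun y : ℕ => (y : ℤ) ∣ u.valMinAbs).card ≤ r := by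
  by_contra hcon
  push Not at hcon
  have hm0 : u.valMinAbs ≠ 0 := by
    rw [Ne, ZMod.valMinAbs_eq_zero]
    exact hu
  set m : ℕ := u.valMinAbs.natAbs with hm
  have hmpos : 0 < m := Int.natAbs_pos.2 hm0
  have h1 : ∏ y ∈ Y.filter (fun y : ℕ => (y : ℤ) ∣ u.valMinAbs), y ∣ m := by
    refine Finset.prod_primes_dvd m (fun y hy => (hY y (mem_filter.1 hy).1).prime) fun y hy => ?_
    exact Int.natCast_dvd.1 (mem_filter.1 hy).2
  have h2 := Nat.le_of_dvd hmpos h1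
  have hT1 : 1 ≤ T := by
    by_contra h
    have : T = 0 := by omega
    rw [this, zero_pow (by omega)] at hr
    omega
  have h3 : T ^ (r + 1) ≤ ∏ y ∈ Y.filter (fun y : ℕ => (y : ℤ) ∣ u.valMinAbs), y := by
    calc T ^ (r + 1) ≤ T ^ (Y.filter fun y : ℕ => (y : ℤ) ∣ u.valMinAbs).card :=
          Nat.pow_le_pow_right hT1 hcon
      _ = ∏ _y ∈ Y.filter (fun y : ℕ => (y : ℤ) ∣ u.valMinAbs), T := by rw [Finset.prod_const]
      _ ≤ _ := Finset.prod_le_prod' fun y hy => hT y (mem_filter.1 hy).1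
  have h4 : m ≤ p / 2 := ZMod.natAbs_valMinAbs_le u
  have h5 : p / 2 ≤ p := Nat.div_le_self _ _
  omega

theorem E_sum {p : ℕ} [NeZero p] {ι : Type*} (s : Finset ι) (f : ι → ZMod p) :
    (ZMod.stdAddChar (∑ i ∈ s, f i) : ℂ) = ∏ i ∈ s, (ZMod.stdAddChar (f i) : ℂ) := by
  classical
  induction s using Finset.induction_on with
  | empty => simp
  | insert a s ha ih => rw [sum_insert ha, prod_insert ha, AddChar.map_add_eq_mul, ih]

/-- the interval sum -/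
noncomputable def DD {p : ℕ} [NeZero p] (h : ℕ) (ξ : ZMod p) : ℂ :=
  ∑ s ∈ range h, (ZMod.stdAddChar ((s : ZMod p) * ξ) : ℂ)

theorem DD_le {p : ℕ} [NeZero p] (h : ℕ) (ξ : ZMod p) : ‖DD h ξ‖ ≤ h := by
  unfold DD
  refine (norm_sum_le _ _).trans ?_
  simp

/-- the smoothed indicator function -/
noncomputable def GG {p : ℕ} (k h : ℕ) (V : Finset (ZMod p)) : ZMod p → ℂ :=
  fun x => ∑ s : Fin k → Fin h, ind V (x - ∑ i, (((s i : Fin h) : ℕ) : ZMod p))

theorem ft_GG {p : ℕ} [NeZero p] (k h : ℕ) (V : Finset (ZMod p)) (ξ : ZMod p) :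
    ft (GG k h V) ξ = ft (ind V) ξ * DD h ξ ^ k := by
  have h1 : DD h ξ ^ k = ∑ s : Fin k → Fin h,
      (ZMod.stdAddChar ((∑ i, (((s i : Fin h) : ℕ) : ZMod p)) * ξ) : ℂ) := by
    have e1 : DD h ξ = ∑ s : Fin h, (ZMod.stdAddChar (((s : ℕ) : ZMod p) * ξ) : ℂ) := by
      unfold DD
      rw [Finset.sum_range]
    rw [e1, ← Fin.prod_const, Finset.prod_univ_sum, Fintype.piFinset_univ]
    refine Finset.sum_congr rfl fun s _ => ?_
    rw [Finset.sum_mul, E_sum]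
  have h2 : ft (GG k h V) ξ = ∑ s : Fin k → Fin h, ∑ x : ZMod p,
      ind V (x - ∑ i, (((s i : Fin h) : ℕ) : ZMod p)) * (ZMod.stdAddChar (x * ξ) : ℂ) := by
    unfold ft GG
    rw [Finset.sum_comm]
    exact Finset.sum_congr rfl fun x _ => Finset.sum_mul _ _ _
  rw [h1, h2, Finset.mul_sum]
  refine Finset.sum_congr rfl fun s _ => ?_
  generalize (∑ i, (((s i : Fin h) : ℕ) : ZMod p)) = c
  unfold ft
  rw [Finset.sum_mul, ← Equiv.sum_comp (Equiv.addRight c)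
    (fun x => ind V (x - c) * (ZMod.stdAddChar (x * ξ) : ℂ))]
  refine Finset.sum_congr rfl fun x _ => ?_
  simp only [Equiv.coe_addRight, add_sub_cancel_right]
  rw [add_mul, AddChar.map_add_eq_mul]
  ring

/-- the weighted number of representations `(x + b) y = u` -/
noncomputable def RR {p : ℕ} [NeZero p] (Y : Finset ℕ) (B : Finset (ZMod p)) (G : ZMod p → ℂ) :
    ZMod p → ℂ :=
  fun u => ∑ y ∈ Y, ∑ b ∈ B, ∑ x, if (x + b) * (y : ZMod p) = u then G x else 0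

theorem ft_RR {p : ℕ} [NeZero p] (Y : Finset ℕ) (B : Finset (ZMod p)) (G : ZMod p → ℂ)
    (ξ : ZMod p) :
    ft (RR Y B G) ξ = ∑ y ∈ Y, (∑ b ∈ B, (ZMod.stdAddChar (b * ((y : ZMod p) * ξ)) : ℂ)) *
      ft G ((y : ZMod p) * ξ) := by
  have h1 : ft (RR Y B G) ξ = ∑ y ∈ Y, ∑ b ∈ B, ∑ x,
      G x * (ZMod.stdAddChar ((x + b) * (y : ZMod p) * ξ) : ℂ) := by
    unfold ft RR
    simp only [Finset.sum_mul]
    rw [Finset.sum_comm]
    refine Finset.sum_congr rfl fun y _ => ?_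
    rw [Finset.sum_comm]
    refine Finset.sum_congr rfl fun b _ => ?_
    rw [Finset.sum_comm]
    refine Finset.sum_congr rfl fun x _ => ?_
    simp only [ite_mul, zero_mul]
    rw [Finset.sum_ite_eq Finset.univ ((x + b) * (y : ZMod p)), if_pos (mem_univ _)]
  rw [h1]
  refine Finset.sum_congr rfl fun y _ => ?_
  rw [Finset.sum_mul]
  refine Finset.sum_congr rfl fun b _ => ?_
  unfold ft
  rw [Finset.mul_sum]
  refine Finset.sum_congr rfl fun x _ => ?_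
  have e : (x + b) * (y : ZMod p) * ξ = b * ((y : ZMod p) * ξ) + x * ((y : ZMod p) * ξ) := by ring
  rw [e, AddChar.map_add_eq_mul]
  ring

theorem ft_RR_norm {p : ℕ} [NeZero p] (Y : Finset ℕ) (B V : Finset (ZMod p)) (k h : ℕ)
    (ξ : ZMod p) :
    ‖ft (RR Y B (GG k h V)) ξ‖ ≤ B.card * ∑ y ∈ Y, ‖ft (ind V) ((y : ZMod p) * ξ)‖ *
      ‖DD h ((y : ZMod p) * ξ)‖ ^ k := by
  rw [ft_RR, Finset.mul_sum]
  refine (norm_sum_le _ _).trans (Finset.sum_le_sum fun y _ => ?_)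
  rw [norm_mul, ft_GG, norm_mul, norm_pow]
  refine mul_le_mul_of_nonneg_right ?_ (by positivity)
  refine (norm_sum_le _ _).trans ?_
  simp

/-- two small multiples by distinct primes come from an integer -/
theorem two_active {p : ℕ} [NeZero p] (Y0 : ℕ) (W : ℝ) (hW : 2 * (Y0 * W) < p) (ξ : ZMod p)
    (y y' : ℕ) (hy : y.Prime) (hy' : y'.Prime) (hyY : y ≤ Y0) (hyY' : y' ≤ Y0) (hne : y ≠ y')
    (h1 : |((((y : ZMod p) * ξ).valMinAbs : ℤ) : ℝ)| ≤ W)
    (h2 : |((((y' : ZMod p) * ξ).valMinAbs : ℤ) : ℝ)| ≤ W) :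
    (y : ℤ) ∣ ((y : ZMod p) * ξ).valMinAbs := by
  set u : ℤ := ((y : ZMod p) * ξ).valMinAbs with hu
  set v : ℤ := ((y' : ZMod p) * ξ).valMinAbs with hv
  have hu1 : ((u : ℤ) : ZMod p) = (y : ZMod p) * ξ := ZMod.coe_valMinAbs _
  have hv1 : ((v : ℤ) : ZMod p) = (y' : ZMod p) * ξ := ZMod.coe_valMinAbs _
  have h3 : ((y' * u - y * v : ℤ) : ZMod p) = 0 := by
    push_cast
    rw [hu1, hv1]
    ring
  have h4 : (p : ℤ) ∣ (y' * u - y * v : ℤ) := (ZMod.intCast_zmod_eq_zero_iff_dvd _ p).1 h3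
  have hW0 : 0 ≤ W := (abs_nonneg _).trans h1
  have h5 : |((y' * u - y * v : ℤ) : ℝ)| < p := by
    push_cast
    calc |(y' : ℝ) * u - y * v| ≤ |(y' : ℝ) * u| + |(y : ℝ) * v| := abs_sub _ _
      _ = y' * |(u : ℝ)| + y * |(v : ℝ)| := by
          rw [abs_mul, abs_mul, Nat.abs_cast, Nat.abs_cast]
      _ ≤ Y0 * W + Y0 * W := by
          refine add_le_add (mul_le_mul (by exact_mod_cast hyY') h1 (abs_nonneg _)
            (Nat.cast_nonneg _)) (mul_le_mul (by exact_mod_cast hyY) h2 (abs_nonneg _)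
            (Nat.cast_nonneg _))
      _ = 2 * (Y0 * W) := by ring
      _ < p := hW
  have h6 : (y' * u - y * v : ℤ) = 0 := by
    refine Int.eq_zero_of_abs_lt_dvd h4 ?_
    have : ((|(y' * u - y * v : ℤ)| : ℤ) : ℝ) < ((p : ℤ) : ℝ) := by
      rw [Int.cast_abs]
      exact_mod_cast h5
    exact_mod_cast this
  have h7 : (y : ℤ) ∣ y' * u := ⟨v, by linarith⟩
  have h8 : IsCoprime (y : ℤ) (y' : ℤ) := by
    rw [Nat.isCoprime_iff_coprime]
    exact (Nat.coprime_primes hy hy').2 hne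
  exact h8.dvd_of_dvd_mul_left h7

end Pool.Agent.TH7.PG
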