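import Pool.Agent.TH7.PG.Ratio

/-! # The energy of the ratios: the bound -/

set_option autoImplicit false

namespace Pool.Agent.TH7.PG

open Finset

/-- the multipliers for which `y ξ` is small -/
noncomputable def act {p : ℕ} [NeZero p] (Y : Finset ℕ) (W : ℝ) (ξ : ZMod p) : Finset ℕ :=
  open Classical in Y.filter fun y => |((((y : ZMod p) * ξ).valMinAbs : ℤ) : ℝ)| ≤ W

theorem dil_sum {p : ℕ} [Fact p.Prime] (f : ZMod p → ℝ) (y : ZMod p) (hy : y ≠ 0) :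
    ∑ ξ : ZMod p, f (y * ξ) = ∑ ξ : ZMod p, f ξ :=
  Equiv.sum_comp (Equiv.mulLeft₀ y hy) f

theorem sq_act {p : ℕ} [NeZero p] (Y : Finset ℕ) (W : ℝ) (Y0 : ℕ) (hW : 2 * (Y0 * W) < p)
    (hY : ∀ y ∈ Y, y.Prime) (hY0 : ∀ y ∈ Y, y ≤ Y0) (ξ : ZMod p) (a : ℕ → ℝ)
    (ha : ∀ y, 0 ≤ a y) :
    (∑ y ∈ act Y W ξ, a y) ^ 2 ≤ ∑ y ∈ Y, a y ^ 2 +
      Y.card * ∑ y ∈ Y.filter (fun y : ℕ => (y : ℤ) ∣ ((y : ZMod p) * ξ).valMinAbs), a y ^ 2 := by
  classical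
  have hsub : act Y W ξ ⊆ Y := by
    unfold act
    exact filter_subset _ _
  have h0 : 0 ≤ ∑ y ∈ Y, a y ^ 2 := Finset.sum_nonneg fun y _ => sq_nonneg _
  have h0' : 0 ≤ (Y.card : ℝ) *
      ∑ y ∈ Y.filter (fun y : ℕ => (y : ℤ) ∣ ((y : ZMod p) * ξ).valMinAbs), a y ^ 2 :=
    mul_nonneg (Nat.cast_nonneg _) (Finset.sum_nonneg fun y _ => sq_nonneg _)
  by_cases hc : (act Y W ξ).card ≤ 1
  · rcases Finset.card_le_one_iff_subset_singleton.1 hc with ⟨y₀, hy₀⟩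
    rcases Finset.subset_singleton_iff.1 hy₀ with h | h
    · rw [h, Finset.sum_empty]
      nlinarith
    · rw [h, Finset.sum_singleton]
      have h1 : y₀ ∈ Y := hsub (by rw [h]; exact mem_singleton_self _)
      have h2 := Finset.single_le_sum (f := fun y => a y ^ 2) (fun y _ => sq_nonneg _) h1
      linarith
  · push Not at hc
    have h1 : (∑ y ∈ act Y W ξ, a y) ^ 2 ≤ (act Y W ξ).card * ∑ y ∈ act Y W ξ, a y ^ 2 :=
      sq_sum_le_card_mul_sum_sq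
    have h2 : act Y W ξ ⊆
        Y.filter (fun y : ℕ => (y : ℤ) ∣ ((y : ZMod p) * ξ).valMinAbs) := by
      intro y hy
      obtain ⟨y', hy', hne⟩ := Finset.exists_mem_ne hc y
      have e1 := hy
      have e2 := hy'
      unfold act at e1 e2
      rw [mem_filter] at e1 e2
      exact mem_filter.2 ⟨e1.1, two_active Y0 W hW ξ y y' (hY y e1.1) (hY y' e2.1)
        (hY0 y e1.1) (hY0 y' e2.1) hne.symm e1.2 e2.2⟩
    have h3 : ∑ y ∈ act Y W ξ, a y ^ 2 ≤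
        ∑ y ∈ Y.filter (fun y : ℕ => (y : ℤ) ∣ ((y : ZMod p) * ξ).valMinAbs), a y ^ 2 :=
      Finset.sum_le_sum_of_subset_of_nonneg h2 fun y _ _ => sq_nonneg _
    have h4 : ((act Y W ξ).card : ℝ) ≤ Y.card := by exact_mod_cast card_le_card hsub
    have h5 : ((act Y W ξ).card : ℝ) * ∑ y ∈ act Y W ξ, a y ^ 2 ≤ Y.card *
        ∑ y ∈ Y.filter (fun y : ℕ => (y : ℤ) ∣ ((y : ZMod p) * ξ).valMinAbs), a y ^ 2 :=
      mul_le_mul h4 h3 (Finset.sum_nonneg fun y _ => sq_nonneg _) (Nat.cast_nonneg _)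
    linarith

theorem act_sum {p : ℕ} [Fact p.Prime] (Y : Finset ℕ) (W : ℝ) (Y0 T r : ℕ)
    (hW : 2 * (Y0 * W) < p) (hY : ∀ y ∈ Y, y.Prime) (hY0 : ∀ y ∈ Y, y ≤ Y0) (hYp : Y0 < p)
    (hT : ∀ y ∈ Y, T ≤ y) (hr : p < T ^ (r + 1)) (V : Finset (ZMod p)) :
    ∑ ξ : ZMod p, (∑ y ∈ act Y W ξ, ‖ft (ind V) ((y : ZMod p) * ξ)‖) ^ 2 ≤
      (Y.card : ℝ) ^ 2 * (V.card : ℝ) ^ 2 + (1 + r) * Y.card * (p * V.card) := by
  classical
  set F : ZMod p → ℝ := fun u => ‖ft (ind V) u‖ ^ 2 with hF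
  have hF0 : ∀ u, 0 ≤ F u := fun u => sq_nonneg _
  have hpar : ∑ u, F u = p * V.card := by
    rw [hF, parseval, ind_l2]
  have hyz : ∀ y ∈ Y, ((y : ℕ) : ZMod p) ≠ 0 := by
    intro y hy h
    rw [ZMod.natCast_eq_zero_iff] at h
    have := Nat.le_of_dvd (hY y hy).pos h
    have := hY0 y hy
    omega
  -- the zero frequency
  rw [← Finset.add_sum_erase Finset.univ _ (Finset.mem_univ (0 : ZMod p))]
  have hzero : (∑ y ∈ act Y W (0 : ZMod p), ‖ft (ind V) ((y : ZMod p) * 0)‖) ^ 2 ≤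
      (Y.card : ℝ) ^ 2 * (V.card : ℝ) ^ 2 := by
    rw [← mul_pow]
    refine pow_le_pow_left₀ (Finset.sum_nonneg fun _ _ => norm_nonneg _) ?_ 2
    calc ∑ y ∈ act Y W (0 : ZMod p), ‖ft (ind V) ((y : ZMod p) * 0)‖
        ≤ ∑ _y ∈ act Y W (0 : ZMod p), (V.card : ℝ) := by
          refine Finset.sum_le_sum fun y _ => ?_
          refine (ft_norm_le _ _).trans (le_of_eq ?_)
          rw [ind_l1]
      _ = (act Y W (0 : ZMod p)).card * V.card := by rw [Finset.sum_const, nsmul_eq_mul]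
      _ ≤ Y.card * V.card := by
          refine mul_le_mul_of_nonneg_right ?_ (Nat.cast_nonneg _)
          unfold act
          exact_mod_cast card_filter_le _ _
  refine add_le_add hzero ?_
  -- the other frequencies
  have h1 : ∀ ξ ∈ (Finset.univ : Finset (ZMod p)).erase 0,
      (∑ y ∈ act Y W ξ, ‖ft (ind V) ((y : ZMod p) * ξ)‖) ^ 2 ≤
      ∑ y ∈ Y, F ((y : ZMod p) * ξ) + Y.card *
        ∑ y ∈ Y, if ((y : ℤ) ∣ ((y : ZMod p) * ξ).valMinAbs ∧ (y : ZMod p) * ξ ≠ 0) then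
          F ((y : ZMod p) * ξ) else 0 := by
    intro ξ hξ
    have hξ0 : ξ ≠ 0 := (mem_erase.1 hξ).1
    refine (sq_act Y W Y0 hW hY hY0 ξ (fun y => ‖ft (ind V) ((y : ZMod p) * ξ)‖)
      fun y => norm_nonneg _).trans ?_
    refine add_le_add le_rfl (mul_le_mul_of_nonneg_left ?_ (Nat.cast_nonneg _))
    rw [Finset.sum_filter]
    refine Finset.sum_le_sum fun y hy => ?_
    by_cases hd : (y : ℤ) ∣ ((y : ZMod p) * ξ).valMinAbs
    · rw [if_pos hd, if_pos ⟨hd, mul_ne_zero (hyz y hy) hξ0⟩]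
    · rw [if_neg hd, if_neg fun h => hd h.1]
  refine (Finset.sum_le_sum h1).trans ?_
  refine (Finset.sum_le_sum_of_subset_of_nonneg (Finset.erase_subset _ _) fun ξ _ _ => ?_).trans ?_
  · refine add_nonneg (Finset.sum_nonneg fun y _ => hF0 _) (mul_nonneg (Nat.cast_nonneg _)
      (Finset.sum_nonneg fun y _ => ?_))
    split_ifs
    · exact hF0 _
    · exact le_rfl
  rw [Finset.sum_add_distrib, ← Finset.mul_sum, Finset.sum_comm, Finset.sum_comm (s := univ)]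
  have h2 : ∑ y ∈ Y, ∑ ξ : ZMod p, F ((y : ZMod p) * ξ) = Y.card * (p * V.card) := by
    have h2' : ∀ y ∈ Y, ∑ ξ : ZMod p, F ((y : ZMod p) * ξ) = p * V.card := fun y hy =>
      (dil_sum F (y : ZMod p) (hyz y hy)).trans hpar
    rw [Finset.sum_congr rfl h2', Finset.sum_const, nsmul_eq_mul]
  have h3 : ∑ y ∈ Y, ∑ ξ : ZMod p, (if ((y : ℤ) ∣ ((y : ZMod p) * ξ).valMinAbs ∧
      (y : ZMod p) * ξ ≠ 0) then F ((y : ZMod p) * ξ) else 0) ≤ r * (p * V.card) := by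
    have h4 : ∀ y ∈ Y, ∑ ξ : ZMod p, (if ((y : ℤ) ∣ ((y : ZMod p) * ξ).valMinAbs ∧
        (y : ZMod p) * ξ ≠ 0) then F ((y : ZMod p) * ξ) else 0) =
        ∑ u : ZMod p, (if ((y : ℤ) ∣ u.valMinAbs ∧ u ≠ 0) then F u else 0) := fun y hy =>
      dil_sum (fun u => if ((y : ℤ) ∣ u.valMinAbs ∧ u ≠ 0) then F u else 0) (y : ZMod p) (hyz y hy)
    rw [Finset.sum_congr rfl h4, Finset.sum_comm, ← hpar, Finset.mul_sum]
    refine Finset.sum_le_sum fun u _ => ?_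
    by_cases hu : u = 0
    · have : ∀ y ∈ Y, (if ((y : ℤ) ∣ u.valMinAbs ∧ u ≠ 0) then F u else 0) = 0 := fun y _ =>
        if_neg fun h => h.2 hu
      rw [Finset.sum_eq_zero this]
      exact mul_nonneg (Nat.cast_nonneg _) (hF0 _)
    · have h5 : ∑ y ∈ Y, (if ((y : ℤ) ∣ u.valMinAbs ∧ u ≠ 0) then F u else 0) =
          (Y.filter fun y : ℕ => (y : ℤ) ∣ u.valMinAbs).card * F u := by
        rw [← nsmul_eq_mul, ← Finset.sum_const, Finset.sum_filter]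
        refine Finset.sum_congr rfl fun y _ => ?_
        by_cases hd : (y : ℤ) ∣ u.valMinAbs
        · rw [if_pos hd, if_pos ⟨hd, hu⟩]
        · rw [if_neg hd, if_neg fun h => hd h.1]
      rw [h5]
      refine mul_le_mul_of_nonneg_right ?_ (hF0 _)
      exact_mod_cast few_divisors Y T r hY hT hr u hu
  rw [h2]
  calc (Y.card : ℝ) * (p * V.card) + Y.card * _ ≤ Y.card * (p * V.card) +
        Y.card * (r * (p * V.card)) :=
        add_le_add le_rfl (mul_le_mul_of_nonneg_left h3 (Nat.cast_nonneg _))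
    _ = _ := by ring

/-- pairs of elements with equal images -/
theorem card_pairs {α β : Type*} [DecidableEq α] [DecidableEq β] [Fintype β] (Ω : Finset α)
    (φ : α → β) : (((Ω ×ˢ Ω).filter fun w => φ w.1 = φ w.2).card : ℝ) =
      ∑ u : β, ((Ω.filter fun w => φ w = u).card : ℝ) ^ 2 := by
  have h1 : ((Ω ×ˢ Ω).filter fun w => φ w.1 = φ w.2).card =
      ∑ u : β, (Ω.filter fun w => φ w = u).card ^ 2 := by
    rw [Finset.card_eq_sum_card_fiberwise (f := fun w : α × α => φ w.1)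
      (s := (Ω ×ˢ Ω).filter fun w => φ w.1 = φ w.2) (t := univ) fun _ _ => mem_coe.2 (mem_univ _)]
    refine Finset.sum_congr rfl fun u _ => ?_
    rw [sq, ← Finset.card_product]
    congr 1
    ext w
    simp only [mem_filter, mem_product]
    constructor
    · rintro ⟨⟨⟨h1, h2⟩, h3⟩, h4⟩
      exact ⟨⟨h1, h4⟩, ⟨h2, h3 ▸ h4⟩⟩
    · rintro ⟨⟨h1, h2⟩, h3, h4⟩
      exact ⟨⟨⟨h1, h3⟩, h2.trans h4.symm⟩, h2⟩
  rw [h1]
  push_cast
  rfl

end Pool.Agent.TH7.PG
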