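import Pool.Agent.TH7.PG.Ratio2

/-! # The energy of the ratios: conclusion -/

set_option autoImplicit false

namespace Pool.Agent.TH7.PG

open Finset

/-- the number of ways to reach `V` from `x` -/
noncomputable def gg {p : ℕ} (k h : ℕ) (V : Finset (ZMod p)) (x : ZMod p) : ℕ :=
  open Classical in (univ.filter fun s : Fin k → Fin h =>
    x - ∑ i, (((s i : Fin h) : ℕ) : ZMod p) ∈ V).card

theorem GG_eq {p : ℕ} (k h : ℕ) (V : Finset (ZMod p)) (x : ZMod p) :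
    GG k h V x = ((gg k h V x : ℕ) : ℂ) := by
  classical
  unfold GG gg ind
  rw [Finset.card_filter]
  push_cast
  refine Finset.sum_congr rfl fun s _ => ?_
  split_ifs <;> simp

theorem gg_full {p : ℕ} (k h : ℕ) (V : Finset (ZMod p)) (x : ZMod p)
    (hx : ∀ s : Fin k → Fin h, x - ∑ i, (((s i : Fin h) : ℕ) : ZMod p) ∈ V) :
    gg k h V x = h ^ k := by
  classical
  unfold gg
  rw [Finset.filter_true_of_mem fun s _ => hx s, Finset.card_univ, Fintype.card_fun,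
    Fintype.card_fin, Fintype.card_fin]

open Classical in
theorem RR_lower {p : ℕ} [NeZero p] (Y : Finset ℕ) (k h : ℕ) (U V B : Finset (ZMod p))
    (hUV : ∀ t ∈ U, ∀ s : Fin k → Fin h, t - ∑ i, (((s i : Fin h) : ℕ) : ZMod p) ∈ V)
    (u : ZMod p) :
    (h : ℝ) ^ k * (((Y ×ˢ (U ×ˢ B)).filter fun w : ℕ × ZMod p × ZMod p =>
      (w.2.1 + w.2.2) * (w.1 : ZMod p) = u).card : ℝ) ≤ ‖RR Y B (GG k h V) u‖ := by
  have h1 : RR Y B (GG k h V) u = ((∑ y ∈ Y, ∑ b ∈ B, ∑ x : ZMod p,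
      (if (x + b) * (y : ZMod p) = u then gg k h V x else 0) : ℕ) : ℂ) := by
    unfold RR
    push_cast
    refine Finset.sum_congr rfl fun y _ => Finset.sum_congr rfl fun b _ =>
      Finset.sum_congr rfl fun x _ => ?_
    rw [GG_eq]
  rw [h1, Complex.norm_natCast]
  have h2 : h ^ k * ((Y ×ˢ (U ×ˢ B)).filter fun w : ℕ × ZMod p × ZMod p =>
      (w.2.1 + w.2.2) * (w.1 : ZMod p) = u).card ≤ ∑ y ∈ Y, ∑ b ∈ B, ∑ x : ZMod p,
      (if (x + b) * (y : ZMod p) = u then gg k h V x else 0) := by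
    rw [Finset.card_filter, Finset.sum_product, Finset.mul_sum]
    refine Finset.sum_le_sum fun y _ => ?_
    rw [Finset.sum_product, Finset.sum_comm, Finset.mul_sum]
    refine Finset.sum_le_sum fun b _ => ?_
    rw [Finset.mul_sum]
    refine le_trans ?_ (Finset.sum_le_sum_of_subset_of_nonneg (Finset.subset_univ U)
      fun _ _ _ => Nat.zero_le _)
    refine Finset.sum_le_sum fun t ht => ?_
    rw [gg_full k h V t (hUV t ht)]
    split_ifs <;> simp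
  exact_mod_cast h2

open Classical in
theorem ratio_energy {p : ℕ} [Fact p.Prime] (Y : Finset ℕ) (W : ℝ) (Y0 T r k h : ℕ)
    (hW0 : 0 < W) (hW : 2 * (Y0 * W) < p) (hY : ∀ y ∈ Y, y.Prime) (hY0 : ∀ y ∈ Y, y ≤ Y0)
    (hYp : Y0 < p) (hT : ∀ y ∈ Y, T ≤ y) (hr : p < T ^ (r + 1)) (hh : 1 ≤ h)
    (hδ : (p : ℝ) * (p / (2 * W)) ^ k ≤ (h : ℝ) ^ k) (U V B : Finset (ZMod p))
    (hUV : ∀ t ∈ U, ∀ s : Fin k → Fin h, t - ∑ i, (((s i : Fin h) : ℕ) : ZMod p) ∈ V) :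
    ∑ u : ZMod p, (((Y ×ˢ (U ×ˢ B)).filter fun w : ℕ × ZMod p × ZMod p =>
      (w.2.1 + w.2.2) * (w.1 : ZMod p) = u).card : ℝ) ^ 2 ≤
      (B.card : ℝ) ^ 2 * (4 * ((Y.card : ℝ) ^ 2 * (V.card : ℝ) ^ 2 / p) +
        2 * (1 + r) * (Y.card * V.card)) := by
  have hp : (0 : ℝ) < p := by exact_mod_cast (Fact.out : p.Prime).pos
  have hhk : (0 : ℝ) < (h : ℝ) ^ k := by
    have : (0 : ℝ) < h := by exact_mod_cast hh
    positivity
  set ρ : ZMod p → ℝ := fun u => (((Y ×ˢ (U ×ˢ B)).filter fun w : ℕ × ZMod p × ZMod p =>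
      (w.2.1 + w.2.2) * (w.1 : ZMod p) = u).card : ℝ) with hρ
  -- the inactive multipliers
  set e₁ : ℝ := Y.card * V.card / p with he1
  have hft : ∀ ξ : ZMod p, ‖ft (RR Y B (GG k h V)) ξ‖ ≤
      B.card * (h : ℝ) ^ k * (∑ y ∈ act Y W ξ, ‖ft (ind V) ((y : ZMod p) * ξ)‖ + e₁) := by
    intro ξ
    refine (ft_RR_norm Y B V k h ξ).trans ?_
    rw [mul_assoc]
    refine mul_le_mul_of_nonneg_left ?_ (Nat.cast_nonneg _)
    rw [mul_add]
    have hsplit : ∑ y ∈ Y, ‖ft (ind V) ((y : ZMod p) * ξ)‖ * ‖DD h ((y : ZMod p) * ξ)‖ ^ k =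
        ∑ y ∈ act Y W ξ, ‖ft (ind V) ((y : ZMod p) * ξ)‖ * ‖DD h ((y : ZMod p) * ξ)‖ ^ k +
        ∑ y ∈ Y.filter (fun y : ℕ => ¬ |((((y : ZMod p) * ξ).valMinAbs : ℤ) : ℝ)| ≤ W),
          ‖ft (ind V) ((y : ZMod p) * ξ)‖ * ‖DD h ((y : ZMod p) * ξ)‖ ^ k := by
      unfold act
      rw [Finset.sum_filter_add_sum_filter_not]
    rw [hsplit]
    refine add_le_add ?_ ?_
    · rw [Finset.mul_sum]
      refine Finset.sum_le_sum fun y _ => ?_
      rw [mul_comm]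
      exact mul_le_mul_of_nonneg_right (pow_le_pow_left₀ (norm_nonneg _) (DD_le h _) k)
        (norm_nonneg _)
    · have h1 : ∀ y ∈ Y.filter (fun y : ℕ => ¬ |((((y : ZMod p) * ξ).valMinAbs : ℤ) : ℝ)| ≤ W),
          ‖ft (ind V) ((y : ZMod p) * ξ)‖ * ‖DD h ((y : ZMod p) * ξ)‖ ^ k ≤
          V.card * ((h : ℝ) ^ k / p) := by
        intro y hy
        have h2 := not_le.1 (mem_filter.1 hy).2
        have h3 := geom_bound h ((y : ZMod p) * ξ)
        have h4 : ‖DD h ((y : ZMod p) * ξ)‖ ≤ p / (2 * W) := by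
          rw [le_div_iff₀ (by positivity)]
          refine le_trans (mul_le_mul_of_nonneg_left ?_ (norm_nonneg _)) h3
          linarith
        have h5 : ‖DD h ((y : ZMod p) * ξ)‖ ^ k ≤ (h : ℝ) ^ k / p := by
          rw [le_div_iff₀ hp, mul_comm]
          exact (mul_le_mul_of_nonneg_left (pow_le_pow_left₀ (norm_nonneg _) h4 k) hp.le).trans hδ
        refine mul_le_mul ((ft_norm_le _ _).trans (le_of_eq (ind_l1 V))) h5 (by positivity)
          (Nat.cast_nonneg _)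
      refine (Finset.sum_le_card_nsmul _ _ _ h1).trans ?_
      rw [nsmul_eq_mul]
      have h6 : ((Y.filter (fun y : ℕ =>
          ¬ |((((y : ZMod p) * ξ).valMinAbs : ℤ) : ℝ)| ≤ W)).card : ℝ) ≤ Y.card := by
        exact_mod_cast card_filter_le _ _
      calc _ ≤ (Y.card : ℝ) * (V.card * ((h : ℝ) ^ k / p)) :=
            mul_le_mul_of_nonneg_right h6 (by positivity)
        _ = (h : ℝ) ^ k * e₁ := by rw [he1]; ring
  have he0 : 0 ≤ e₁ := by positivity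
  have hsq : ∀ ξ : ZMod p, ‖ft (RR Y B (GG k h V)) ξ‖ ^ 2 ≤
      ((B.card : ℝ) ^ 2 * ((h : ℝ) ^ k) ^ 2) *
        (2 * (∑ y ∈ act Y W ξ, ‖ft (ind V) ((y : ZMod p) * ξ)‖) ^ 2 + 2 * e₁ ^ 2) := by
    intro ξ
    have h1 : 0 ≤ ∑ y ∈ act Y W ξ, ‖ft (ind V) ((y : ZMod p) * ξ)‖ :=
      Finset.sum_nonneg fun _ _ => norm_nonneg _
    refine (pow_le_pow_left₀ (norm_nonneg _) (hft ξ) 2).trans ?_
    rw [mul_pow, mul_pow]
    refine mul_le_mul_of_nonneg_left ?_ (by positivity)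
    nlinarith [sq_nonneg (∑ y ∈ act Y W ξ, ‖ft (ind V) ((y : ZMod p) * ξ)‖ - e₁)]
  have hsum : ∑ ξ : ZMod p, ‖ft (RR Y B (GG k h V)) ξ‖ ^ 2 ≤
      ((B.card : ℝ) ^ 2 * ((h : ℝ) ^ k) ^ 2) *
        (2 * ((Y.card : ℝ) ^ 2 * (V.card : ℝ) ^ 2 + (1 + r) * Y.card * (p * V.card)) +
          2 * (p * e₁ ^ 2)) := by
    refine (Finset.sum_le_sum fun ξ _ => hsq ξ).trans ?_
    rw [← Finset.mul_sum, Finset.sum_add_distrib, ← Finset.mul_sum, Finset.sum_const,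
      Finset.card_univ, ZMod.card, nsmul_eq_mul]
    refine mul_le_mul_of_nonneg_left ?_ (by positivity)
    have := act_sum Y W Y0 T r hW hY hY0 hYp hT hr V
    linarith
  rw [parseval] at hsum
  have hlow : ((h : ℝ) ^ k) ^ 2 * ∑ u : ZMod p, ρ u ^ 2 ≤
      ∑ u : ZMod p, ‖RR Y B (GG k h V) u‖ ^ 2 := by
    rw [Finset.mul_sum]
    refine Finset.sum_le_sum fun u _ => ?_
    rw [← mul_pow]
    exact pow_le_pow_left₀ (mul_nonneg hhk.le (Nat.cast_nonneg _))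
      (RR_lower Y k h U V B hUV u) 2
  have h7 : (p : ℝ) * (((h : ℝ) ^ k) ^ 2 * ∑ u : ZMod p, ρ u ^ 2) ≤
      ((B.card : ℝ) ^ 2 * ((h : ℝ) ^ k) ^ 2) *
        (2 * ((Y.card : ℝ) ^ 2 * (V.card : ℝ) ^ 2 + (1 + r) * Y.card * (p * V.card)) +
          2 * (p * e₁ ^ 2)) := (mul_le_mul_of_nonneg_left hlow hp.le).trans hsum
  have h8 : (∑ u : ZMod p, ρ u ^ 2) * (p * ((h : ℝ) ^ k) ^ 2) ≤ ((B.card : ℝ) ^ 2 *
      (4 * ((Y.card : ℝ) ^ 2 * (V.card : ℝ) ^ 2 / p) + 2 * (1 + r) * (Y.card * V.card))) *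
      (p * ((h : ℝ) ^ k) ^ 2) := by
    have hp1 : (1 : ℝ) ≤ p := by exact_mod_cast (Fact.out : p.Prime).one_lt.le
    have h9 : p * e₁ ^ 2 ≤ (Y.card : ℝ) ^ 2 * (V.card : ℝ) ^ 2 := by
      have e2 : p * e₁ ^ 2 = (Y.card : ℝ) ^ 2 * (V.card : ℝ) ^ 2 / p := by
        rw [he1]
        field_simp
      rw [e2]
      exact div_le_self (by positivity) hp1
    calc (∑ u : ZMod p, ρ u ^ 2) * (p * ((h : ℝ) ^ k) ^ 2)
        = p * (((h : ℝ) ^ k) ^ 2 * ∑ u : ZMod p, ρ u ^ 2) := by ring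
      _ ≤ _ := h7
      _ ≤ ((B.card : ℝ) ^ 2 * ((h : ℝ) ^ k) ^ 2) *
        (4 * ((Y.card : ℝ) ^ 2 * (V.card : ℝ) ^ 2) +
          2 * (1 + r) * (Y.card * V.card) * p) := by
          refine mul_le_mul_of_nonneg_left ?_ (by positivity)
          linarith
      _ = _ := by
          field_simp
  exact le_of_mul_le_mul_right h8 (by positivity)

end Pool.Agent.TH7.PG
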