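import Mathlib

/-! # Systems of dilates of a generalised progression -/

set_option autoImplicit false

namespace Pool.Agent.TH7.PG

open Finset

/-- a family of symmetric sets `S ρ` behaving like the dilates of a box of dimension `D` -/
structure Sys (p D : ℕ) where
  S : ℝ → Finset (ZMod p)
  zero_mem : ∀ ρ : ℝ, 0 ≤ ρ → (0 : ZMod p) ∈ S ρ
  neg_mem : ∀ (ρ : ℝ) (x : ZMod p), x ∈ S ρ → -x ∈ S ρ
  add_mem : ∀ (ρ σ : ℝ) (x y : ZMod p), x ∈ S ρ → y ∈ S σ → x + y ∈ S (ρ + σ)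
  mono : ∀ ρ σ : ℝ, ρ ≤ σ → S ρ ⊆ S σ
  cover : ∀ (m : ℕ) (ρ : ℝ), 0 ≤ ρ → ∃ F : Finset (ZMod p), F.card ≤ (2 * m + 1) ^ D ∧
    ∀ x ∈ S (m * ρ), ∃ t ∈ F, x - t ∈ S ρ

/-- the value of a linear form -/
def lf {p k : ℕ} (v : Fin k → ZMod p) (c : Fin k → ℤ) : ZMod p := ∑ i, (c i : ZMod p) * v i

theorem lf_add {p k : ℕ} (v : Fin k → ZMod p) (c d : Fin k → ℤ) :
    lf v (fun i => c i + d i) = lf v c + lf v d := by
  unfold lf
  rw [← Finset.sum_add_distrib]
  refine Finset.sum_congr rfl fun i _ => ?_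
  push_cast
  ring

theorem lf_neg {p k : ℕ} (v : Fin k → ZMod p) (c : Fin k → ℤ) :
    lf v (fun i => -c i) = -lf v c := by
  unfold lf
  rw [← Finset.sum_neg_distrib]
  refine Finset.sum_congr rfl fun i _ => ?_
  push_cast
  ring

open Classical in
/-- the dilated box -/
noncomputable def boxS {p k : ℕ} [NeZero p] (v : Fin k → ZMod p) (R : Fin k → ℕ) (ρ : ℝ) :
    Finset (ZMod p) :=
  univ.filter fun x => ∃ c : Fin k → ℤ, (∀ i, |(c i : ℝ)| ≤ ρ * R i) ∧ x = lf v c

theorem mem_boxS {p k : ℕ} [NeZero p] (v : Fin k → ZMod p) (R : Fin k → ℕ) (ρ : ℝ) (x : ZMod p) :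
    x ∈ boxS v R ρ ↔ ∃ c : Fin k → ℤ, (∀ i, |(c i : ℝ)| ≤ ρ * R i) ∧ x = lf v c := by
  classical
  simp only [boxS, mem_filter, mem_univ, true_and]

theorem box_cover {p k : ℕ} [NeZero p] (v : Fin k → ZMod p) (R : Fin k → ℕ) (m : ℕ) (ρ : ℝ)
    (hρ : 0 ≤ ρ) : ∃ F : Finset (ZMod p), F.card ≤ (2 * m + 1) ^ k ∧
      ∀ x ∈ boxS v R (m * ρ), ∃ t ∈ F, x - t ∈ boxS v R ρ := by
  classical
  set n : Fin k → ℕ := fun i => ⌊ρ * R i⌋₊ with hn
  refine ⟨(Fintype.piFinset (fun _ : Fin k => Finset.Icc (-(m : ℤ)) m)).image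
    (fun q => lf v (fun i => q i * (2 * (n i : ℤ) + 1))), ?_, ?_⟩
  · refine card_image_le.trans ?_
    rw [Fintype.card_piFinset]
    simp only [Int.card_Icc, prod_const, card_univ, Fintype.card_fin]
    refine Nat.pow_le_pow_left ?_ _
    omega
  · intro x hx
    obtain ⟨c, hc, rfl⟩ := (mem_boxS v R _ x).1 hx
    have hcn : ∀ i, |c i| ≤ (m : ℤ) * ((n i : ℤ) + 1) := by
      intro i
      have h1 : ρ * R i < (n i : ℝ) + 1 := Nat.lt_floor_add_one _
      have h2 : |(c i : ℝ)| ≤ (m : ℝ) * ((n i : ℝ) + 1) := by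
        refine (hc i).trans ?_
        rw [mul_assoc]
        exact mul_le_mul_of_nonneg_left h1.le (Nat.cast_nonneg m)
      exact_mod_cast h2
    refine ⟨_, mem_image.2 ⟨fun i => (c i + n i) / (2 * (n i : ℤ) + 1), ?_, rfl⟩, ?_⟩
    · rw [Fintype.mem_piFinset]
      intro i
      rw [Finset.mem_Icc]
      have h1 := abs_le.1 (hcn i)
      have hpos : (0 : ℤ) < 2 * (n i : ℤ) + 1 := by positivity
      have hm0 : (0 : ℤ) ≤ m := by positivity
      have hn0 : (0 : ℤ) ≤ n i := by positivity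
      have hmn : (0 : ℤ) ≤ (m : ℤ) * n i := mul_nonneg hm0 hn0
      constructor
      · rw [Int.le_ediv_iff_mul_le hpos]
        nlinarith [h1.1]
      · rw [← Int.lt_add_one_iff, Int.ediv_lt_iff_lt_mul hpos]
        nlinarith [h1.2]
    · rw [mem_boxS]
      refine ⟨fun i => c i - (c i + n i) / (2 * (n i : ℤ) + 1) * (2 * (n i : ℤ) + 1), ?_, ?_⟩
      · intro i
        have hpos : (0 : ℤ) < 2 * (n i : ℤ) + 1 := by positivity
        have h1 : c i - (c i + n i) / (2 * (n i : ℤ) + 1) * (2 * (n i : ℤ) + 1) =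
            (c i + n i) % (2 * (n i : ℤ) + 1) - n i := by
          have := Int.emod_add_mul_ediv (c i + n i) (2 * (n i : ℤ) + 1)
          linarith
        have h2 := Int.emod_nonneg (c i + n i) hpos.ne'
        have h3 := Int.emod_lt_of_pos (c i + n i) hpos
        have h4 : |c i - (c i + n i) / (2 * (n i : ℤ) + 1) * (2 * (n i : ℤ) + 1)| ≤ (n i : ℤ) := by
          rw [h1, abs_le]
          constructor <;> linarith
        have h5 : (n i : ℝ) ≤ ρ * R i := Nat.floor_le (by positivity)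
        have h6 : |((c i - (c i + n i) / (2 * (n i : ℤ) + 1) * (2 * (n i : ℤ) + 1) : ℤ) : ℝ)| ≤
            (n i : ℝ) := by exact_mod_cast h4
        exact h6.trans h5
      · unfold lf
        rw [← Finset.sum_sub_distrib]
        refine Finset.sum_congr rfl fun i _ => ?_
        push_cast
        ring

/-- the system of a box -/
noncomputable def boxSys {p k : ℕ} [NeZero p] (D : ℕ) (hk : k ≤ D) (v : Fin k → ZMod p)
    (R : Fin k → ℕ) : Sys p D where
  S := boxS v R
  zero_mem := by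
    intro ρ hρ
    rw [mem_boxS]
    refine ⟨fun _ => 0, fun i => ?_, ?_⟩
    · simp only [Int.cast_zero, abs_zero]
      positivity
    · simp [lf]
  neg_mem := by
    intro ρ x hx
    rw [mem_boxS] at hx ⊢
    obtain ⟨c, hc, rfl⟩ := hx
    refine ⟨fun i => -c i, fun i => ?_, (lf_neg v c).symm⟩
    push_cast
    rw [abs_neg]
    exact hc i
  add_mem := by
    intro ρ σ x y hx hy
    rw [mem_boxS] at hx hy ⊢
    obtain ⟨c, hc, rfl⟩ := hx
    obtain ⟨d, hd, rfl⟩ := hy
    refine ⟨fun i => c i + d i, fun i => ?_, (lf_add v c d).symm⟩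
    push_cast
    refine (abs_add_le _ _).trans ?_
    have := hc i
    have := hd i
    nlinarith
  mono := by
    intro ρ σ h x hx
    rw [mem_boxS] at hx ⊢
    obtain ⟨c, hc, rfl⟩ := hx
    exact ⟨c, fun i => (hc i).trans (mul_le_mul_of_nonneg_right h (Nat.cast_nonneg _)), rfl⟩
  cover := by
    intro m ρ hρ
    obtain ⟨F, hF, h⟩ := box_cover v R m ρ hρ
    exact ⟨F, hF.trans (Nat.pow_le_pow_right (by omega) hk), h⟩

theorem box_card {p k : ℕ} [NeZero p] (v : Fin k → ZMod p) (R : Fin k → ℕ) :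
    (boxS v R 1).card ≤ ∏ i, (2 * R i + 1) := by
  classical
  have hsub : boxS v R 1 ⊆ (Fintype.piFinset (fun i : Fin k =>
      Finset.Icc (-(R i : ℤ)) (R i))).image (fun q => lf v q) := by
    intro x hx
    obtain ⟨c, hc, rfl⟩ := (mem_boxS v R _ x).1 hx
    refine mem_image.2 ⟨c, ?_, rfl⟩
    rw [Fintype.mem_piFinset]
    intro i
    rw [Finset.mem_Icc, ← abs_le]
    have := hc i
    rw [one_mul] at this
    exact_mod_cast this
  refine (card_le_card hsub).trans (card_image_le.trans ?_)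
  rw [Fintype.card_piFinset]
  refine Finset.prod_le_prod' fun i _ => ?_
  rw [Int.card_Icc]
  omega

end Pool.Agent.TH7.PG
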